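import Mathlib
import Pool.Agent.helper41.Coll.Defs

/-!
# K3X: the backward tree of the 3x+1 map, words, masses

States are the natural numbers `a` with `a % 3 = 2`.  The step with letter `i` (`i < 7`) goes from `a` to
`b = 4 ^ i * a` and then to `(4 b - 2) / 3` if `b % 9 = 2`, to `(2 b - 1) / 3` if `b % 9 = 8`; it is not
allowed if `b % 9 = 5`.
-/

namespace Pool.Agent.helper82.K3X

open Finset

/-- The child of the state `a` with letter `i`. -/
def nxt (i a : ℕ) : ℕ :=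
  if 4 ^ i * a % 9 = 2 then (4 * (4 ^ i * a) - 2) / 3 else (2 * (4 ^ i * a) - 1) / 3

/-- The growth factor of the step with letter `i` from `a`. -/
noncomputable def gro (i a : ℕ) : ℝ :=
  if 4 ^ i * a % 9 = 2 then 4 ^ i * (4 / 3) else 4 ^ i * (2 / 3)

/-- The node reached from `a` by the word `v` (first letter first). -/
def nd : ℕ → List ℕ → ℕ
  | a, [] => a
  | a, i :: v => nd (nxt i a) v

/-- The word `v` is allowed from `a`. -/
def Vd : ℕ → List ℕ → Prop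
  | _, [] => True
  | a, i :: v => (i < 7 ∧ 4 ^ i * a % 9 ≠ 5) ∧ Vd (nxt i a) v

/-- The number of steps of the map `f` from the node `nd a v` back to `a`. -/
def st : ℕ → List ℕ → ℕ
  | _, [] => 0
  | a, i :: v => (if 4 ^ i * a % 9 = 2 then 2 * i + 2 else 2 * i + 1) + st (nxt i a) v

/-- The product of the weights `q` along the word `v` from `a`. -/
noncomputable def pr (q : ℕ → ℕ → ℝ) : ℕ → List ℕ → ℝ
  | _, [] => 1
  | a, i :: v => q i a * pr q (nxt i a) v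

/-- All words of length `k` with letters `< 7`. -/
def wd : ℕ → Finset (List ℕ)
  | 0 => {[]}
  | k + 1 => (range 7 ×ˢ wd k).image (fun x => x.1 :: x.2)

/-- All words of length at most `D`. -/
def wds (D : ℕ) : Finset (List ℕ) := (range (D + 1)).biUnion wd

/-- The sum of the products of the weights `q` over all words of length `k` from `a`. -/
noncomputable def Uk (q : ℕ → ℕ → ℝ) (k a : ℕ) : ℝ := ∑ v ∈ wd k, pr q a v

/-- The weight `p ^ (t + 1) * growth ^ (t * s)`. -/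
noncomputable def wq (p : ℕ → ℕ → ℝ) (t : ℕ) (s : ℝ) (i a : ℕ) : ℝ :=
  p i a ^ (t + 1) * gro i a ^ ((t : ℝ) * s)

/-- Weights: nonnegative, zero on the steps which are not allowed, periodic modulo `3 ^ (N + 1)`. -/
structure Wt (N : ℕ) (q : ℕ → ℕ → ℝ) : Prop where
  nn : ∀ i a, 0 ≤ q i a
  inv : ∀ i a, 4 ^ i * a % 9 = 5 → q i a = 0
  per : ∀ i a, q i (a + 3 ^ (N + 1)) = q i a

/-- `h` is a superharmonic function (on the residues modulo `3 ^ N`) for the weights `q`, with the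
factor `lam`. -/
structure Sup (N : ℕ) (q : ℕ → ℕ → ℝ) (h : ℕ → ℝ) (lam : ℝ) : Prop where
  one : ∀ a, 1 ≤ h a
  per : ∀ a, h (a + 3 ^ N) = h a
  sub : ∀ c, c % 3 = 2 → ∑ l ∈ range 3, ∑ i ∈ range 7,
    q i (c + l * 3 ^ N) * h (nxt i (c + l * 3 ^ N)) ≤ 3 * lam * h c

/-- The certificate. -/
structure Cert (N t : ℕ) (slo shi llo lhi : ℝ) (p : ℕ → ℕ → ℝ) : Prop where
  N1 : 1 ≤ N
  wt : Wt N p
  sum : ∀ a, a % 3 = 2 → ∑ i ∈ range 7, p i a = 1
  le : ∃ d : ℝ, 0 < d ∧ d < 1 ∧ ∀ i a, p i a ≤ 1 - d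
  t1 : 1 ≤ t
  slo0 : 0 < slo
  slohi : slo < shi
  shi1 : shi < 1
  llo0 : 0 < llo
  lhi0 : 0 < lhi
  lo : ∃ h : ℕ → ℝ, Sup N (wq p t slo) h llo
  hi : ∃ h : ℕ → ℝ, Sup N (wq p t shi) h lhi
  llo1 : llo < 3 ^ (-(1 - slo))
  lhi1 : lhi < 3 ^ (-(1 - shi))
  init : (64 / 3 : ℝ) ^ (1 + (t : ℝ) * slo) < 2 ^ (t + 1)

/-- The certificate for the lengths of the words. -/
structure CertL (N : ℕ) (shi th lth : ℝ) (K0 : ℕ) (p : ℕ → ℕ → ℝ) : Prop where
  th0 : 0 < th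
  lth0 : 0 < lth
  K00 : 0 < K0
  sup : ∃ h : ℕ → ℝ, Sup N (fun i a => p i a * gro i a ^ (-th)) h lth
  lt : lth * 3 ^ (th / K0) < 3 ^ (-(1 - shi))

/-- The set of starting nodes: `2 ^ s` nodes of depth `s` below `5`. -/
structure Base (S : Finset ℕ) (s : ℕ) : Prop where
  card : S.card = 2 ^ s
  pos : ∀ a ∈ S, 1 ≤ a
  le : ∀ a ∈ S, (a : ℝ) ≤ 5 * (64 / 3) ^ s
  mod : ∀ a ∈ S, a % 3 = 2
  inj : ∀ a ∈ S, ∀ a' ∈ S, ∀ v v', Vd a v → Vd a' v' → nd a v = nd a' v' → a = a' ∧ v = v'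
  circ : ∀ a ∈ S, ∀ v, Vd a v →
    ∃ c : ℕ, Pool.Agent.helper41.Coll.HasC (nd a v) c ∧ c ≤ s + v.length + 1
  steps : ∃ T0 : ℕ, ∀ a ∈ S, ∀ v, Vd a v →
    Pool.Agent.helper41.Coll.f^[st a v + T0] (nd a v) = 1

/-- The word is long compared with the logarithm of its node. -/
def Lng (D1 K0 a : ℕ) (v : List ℕ) : Prop := D1 + K0 * Nat.log 3 (nd a v) < v.length

/-- `v` is the first prefix of itself which satisfies `E`. -/
def IsEx (E : List ℕ → Prop) (v : List ℕ) : Prop := E v ∧ ∀ j < v.length, ¬ E (v.take j)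

/-- A node (with its mass `mu * pr p a v`) is bad: too small, mass too large or mass too small. -/
def Bad (p : ℕ → ℕ → ℝ) (mu : ℝ) (y : ℕ) (E : ℕ → ℝ) (a : ℕ) (v : List ℕ) : Prop :=
  nd a v < y ∨
  (3 : ℝ) ^ (-(E (Nat.log 3 (nd a v)) * (Nat.log 3 (nd a v) : ℝ))) < mu * pr p a v ∨
  mu * pr p a v < 1 / (nd a v : ℝ) ^ 2

/-- A node is an exit: bad or with the property `Q`. -/
def Ext (p : ℕ → ℕ → ℝ) (mu : ℝ) (y : ℕ) (E : ℕ → ℝ) (Q : ℕ → List ℕ → Prop) (a : ℕ)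
    (v : List ℕ) : Prop :=
  Bad p mu y E a v ∨ Q a v

open Classical in
/-- The first exits, from the starting nodes `S`, by allowed words of length at most `D`. -/
noncomputable def exs (p : ℕ → ℕ → ℝ) (mu : ℝ) (y : ℕ) (E : ℕ → ℝ) (Q : ℕ → List ℕ → Prop)
    (S : Finset ℕ) (D : ℕ) : Finset (ℕ × List ℕ) :=
  (S ×ˢ wds D).filter (fun x => Vd x.1 x.2 ∧ IsEx (Ext p mu y E Q x.1) x.2)

/-- The slack of the certificate. -/
noncomputable def slack (slo shi llo lhi : ℝ) : ℝ :=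
  min (-(1 - slo) - Real.logb 3 llo) (-(1 - shi) - Real.logb 3 lhi)

/-- The threshold exponents. -/
structure Thr (slo shi eta : ℝ) (C L0 : ℕ) (E : ℕ → ℝ) : Prop where
  mono : Monotone E
  lo : ∀ i, slo ≤ E i
  hi : ∀ i, E i ≤ shi
  step : ∀ i j, j ≤ C * i → E j ≤ E i + eta
  low : ∀ j, j ≤ C * L0 → E j ≤ slo + eta
  top : ∃ i1, ∀ i, i1 ≤ i → E i = shi

end Pool.Agent.helper82.K3X
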