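import Pool.Agent.helper82.K3X.Defs

/-!
# K3X-Ar: arithmetic of one step
-/

namespace Pool.Agent.helper82.K3X

open Finset

theorem Ar_mod3 (i a : ℕ) : 4 ^ i * a % 3 = a % 3 := by
  have h : 4 ^ i % 3 = 1 := by
    rw [Nat.pow_mod]
    norm_num
  rw [Nat.mul_mod, h, one_mul, Nat.mod_mod]

theorem nxt_mod {i a : ℕ} (ha : a % 3 = 2) (h : 4 ^ i * a % 9 ≠ 5) : nxt i a % 3 = 2 := by
  have h3 := Ar_mod3 i a
  unfold nxt
  generalize 4 ^ i * a = b at *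
  split_ifs with h2 <;> omega

theorem nxt_pos {i a : ℕ} (ha : a % 3 = 2) (h : 4 ^ i * a % 9 ≠ 5) : 1 ≤ nxt i a := by
  have := nxt_mod ha h
  omega

theorem nxt_le (i a : ℕ) : (nxt i a : ℝ) ≤ gro i a * a := by
  unfold nxt gro
  split_ifs with h2
  · calc (((4 * (4 ^ i * a) - 2) / 3 : ℕ) : ℝ) ≤ ((4 * (4 ^ i * a) - 2 : ℕ) : ℝ) / ((3 : ℕ) : ℝ) :=
          Nat.cast_div_le
      _ ≤ ((4 * (4 ^ i * a) : ℕ) : ℝ) / ((3 : ℕ) : ℝ) := by
          gcongr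
          exact Nat.sub_le _ _
      _ = 4 ^ i * (4 / 3) * a := by
          push_cast
          ring
  · calc (((2 * (4 ^ i * a) - 1) / 3 : ℕ) : ℝ) ≤ ((2 * (4 ^ i * a) - 1 : ℕ) : ℝ) / ((3 : ℕ) : ℝ) :=
          Nat.cast_div_le
      _ ≤ ((2 * (4 ^ i * a) : ℕ) : ℝ) / ((3 : ℕ) : ℝ) := by
          gcongr
          exact Nat.sub_le _ _
      _ = 4 ^ i * (2 / 3) * a := by
          push_cast
          ring

theorem nxt_four {i a : ℕ} (ha : a % 3 = 2) (h : 4 ^ i * a % 9 ≠ 5) : ¬ 4 ∣ nxt i a := by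
  have h3 := Ar_mod3 i a
  unfold nxt
  generalize 4 ^ i * a = b at *
  split_ifs with h2 <;> omega

theorem Ar_pow_inj {i j a a' : ℕ} (hij : i ≤ j) (h4 : ¬ 4 ∣ a) (e : 4 ^ i * a = 4 ^ j * a') :
    i = j ∧ a = a' := by
  obtain ⟨r, rfl⟩ := Nat.exists_eq_add_of_le hij
  have h1 : a = 4 ^ r * a' := by
    rw [pow_add, mul_assoc] at e
    exact Nat.eq_of_mul_eq_mul_left (by positivity) e
  rcases Nat.eq_zero_or_pos r with hr | hr
  · subst hr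
    simpa using h1
  · exfalso
    apply h4
    rw [h1]
    exact (dvd_pow_self 4 hr.ne').mul_right a'

theorem nxt_inj {i j a a' : ℕ} (ha : a % 3 = 2) (ha' : a' % 3 = 2) (h : 4 ^ i * a % 9 ≠ 5)
    (h' : 4 ^ j * a' % 9 ≠ 5) (h4 : ¬ 4 ∣ a) (h4' : ¬ 4 ∣ a') (e : nxt i a = nxt j a') :
    i = j ∧ a = a' := by
  have hb : 4 ^ i * a = 4 ^ j * a' := by
    have h3 := Ar_mod3 i a
    have h3' := Ar_mod3 j a'
    unfold nxt at e
    generalize 4 ^ i * a = b at *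
    generalize 4 ^ j * a' = b' at *
    split_ifs at e with h2 h2' h2' <;> omega
  rcases le_total i j with hij | hij
  · exact Ar_pow_inj hij h4 hb
  · obtain ⟨e1, e2⟩ := Ar_pow_inj hij h4' hb.symm
    exact ⟨e1.symm, e2.symm⟩

theorem gro_pos (i a : ℕ) : 0 < gro i a := by
  unfold gro
  split_ifs <;> positivity

theorem gro_le {i : ℕ} (hi : i < 7) (a : ℕ) : gro i a ≤ 6561 := by
  have h : (4 : ℝ) ^ i ≤ 4096 := by
    calc (4 : ℝ) ^ i ≤ 4 ^ 6 := pow_le_pow_right₀ (by norm_num) (by omega)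
      _ = 4096 := by norm_num
  unfold gro
  split_ifs <;> linarith

theorem Ar_mod9 {N : ℕ} (hN : 1 ≤ N) (i a z : ℕ) :
    4 ^ i * (a + 3 ^ (N + 1) * z) % 9 = 4 ^ i * a % 9 := by
  obtain ⟨r, rfl⟩ := Nat.exists_eq_add_of_le hN
  have h : 4 ^ i * (a + 3 ^ (1 + r + 1) * z) = 4 ^ i * a + 9 * (4 ^ i * (3 ^ r * z)) := by
    ring
  rw [h, Nat.add_mul_mod_self_left]

theorem gro_per {N : ℕ} (hN : 1 ≤ N) (i a : ℕ) : gro i (a + 3 ^ (N + 1)) = gro i a := by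
  have h := Ar_mod9 hN i a 1
  rw [mul_one] at h
  unfold gro
  rw [h]

/-- One step modulo powers of `3`. -/
theorem nxt_per {N : ℕ} (hN : 1 ≤ N) {i a : ℕ} (ha : a % 3 = 2) (h : 4 ^ i * a % 9 ≠ 5) (z : ℕ) :
    nxt i (a + 3 ^ (N + 1) * z) =
      nxt i a + 3 ^ N * ((if 4 ^ i * a % 9 = 2 then 4 * 4 ^ i else 2 * 4 ^ i) * z) := by
  have h3 := Ar_mod3 i a
  unfold nxt
  rw [Ar_mod9 hN i a z]
  have hb : 4 ^ i * (a + 3 ^ (N + 1) * z) = 4 ^ i * a + 3 * (3 ^ N * (4 ^ i * z)) := by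
    ring
  rw [hb]
  split_ifs with h2
  · have e : 3 ^ N * (4 * 4 ^ i * z) = 4 * (3 ^ N * (4 ^ i * z)) := by ring
    rw [e]
    generalize 3 ^ N * (4 ^ i * z) = P
    generalize 4 ^ i * a = b at *
    omega
  · have e : 3 ^ N * (2 * 4 ^ i * z) = 2 * (3 ^ N * (4 ^ i * z)) := by ring
    rw [e]
    generalize 3 ^ N * (4 ^ i * z) = P
    generalize 4 ^ i * a = b at *
    omega

theorem nxt_log {i a : ℕ} (hi : i < 7) (ha : 1 ≤ a) : Nat.log 3 (nxt i a) ≤ Nat.log 3 a + 8 := by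
  have h1 : nxt i a ≤ 6561 * a := by
    have h : (nxt i a : ℝ) ≤ 6561 * a :=
      (nxt_le i a).trans (mul_le_mul_of_nonneg_right (gro_le hi a) (Nat.cast_nonneg a))
    exact_mod_cast h
  have h2 : a < 3 ^ (Nat.log 3 a + 1) := Nat.lt_pow_succ_log_self (by norm_num) a
  rcases Nat.eq_zero_or_pos (nxt i a) with h0 | h0
  · rw [h0, Nat.log_zero_right]
    exact Nat.zero_le _
  · have h3 : nxt i a < 3 ^ (Nat.log 3 a + 8 + 1) := by
      calc nxt i a ≤ 6561 * a := h1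
        _ < 6561 * 3 ^ (Nat.log 3 a + 1) := by omega
        _ = 3 ^ (Nat.log 3 a + 8 + 1) := by
            rw [pow_add, pow_add, pow_add]
            ring
    have h4 := Nat.log_lt_of_lt_pow h0.ne' h3
    omega

end Pool.Agent.helper82.K3X
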