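import Pool.Agent.helper82.K3X.Wd
import Pool.Agent.helper41.Coll.Exist
import Pool.Agent.helper41.Coll.Back

/-!
# K3X-BsC: circuits of the nodes above `5`
-/

namespace Pool.Agent.helper82.K3X

open Pool.Agent.helper41.Coll

theorem BsC_one : HasC 1 0 :=
  ⟨0, fun i hi => absurd hi (Nat.not_lt_zero i), odd_one, Circuits.one⟩

theorem BsC_even {n c : ℕ} (hn : Even n) (h : HasC (f n) c) : HasC n c := by
  obtain ⟨j, h1, h2, h3⟩ := h
  refine ⟨j + 1, fun i hi => ?_, ?_, ?_⟩
  · cases i with
    | zero => exact hn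
    | succ i =>
      rw [Function.iterate_succ_apply]
      exact h1 i (by omega)
  · rw [Function.iterate_succ_apply]
    exact h2
  · rw [Function.iterate_succ_apply]
    exact h3

theorem BsC_odd {n c : ℕ} (hn : Odd n) (hn1 : n ≠ 1) (h : HasC (f n) c) :
    ∃ c', HasC n c' ∧ c' ≤ c + 1 := by
  obtain ⟨j, h1, h2, h3⟩ := h
  rcases Nat.eq_zero_or_pos j with hj | hj
  · subst hj
    rw [Function.iterate_zero_apply] at h2 h3
    obtain ⟨x, hx⟩ : ∃ x, f n = x := ⟨_, rfl⟩
    rw [hx] at h2 h3
    cases h3 with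
    | one =>
      exfalso
      have h4 := f_eq_one hx hn1
      exact (Nat.not_even_iff_odd.2 hn) h4
    | step h5 h6 h7 =>
      rename_i m' c
      obtain ⟨k, l, hk, hl, a1, a2, a3, a4⟩ := h6
      refine ⟨c + 1, ⟨0, fun i hi => absurd hi (Nat.not_lt_zero i), hn,
        Circuits.step hn1 ⟨k + 1, l, by omega, hl, ?_, ?_, a3, ?_⟩ h7⟩, by omega⟩
      · intro i hi
        cases i with
        | zero => exact hn
        | succ i =>
          rw [Function.iterate_zero_apply, Function.iterate_succ_apply, hx]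
          exact a1 i (by omega)
      · intro i hi1 hi2
        cases i with
        | zero => omega
        | succ i =>
          rw [Function.iterate_zero_apply, Function.iterate_succ_apply, hx]
          exact a2 i (by omega) (by omega)
      · rw [Function.iterate_zero_apply, show k + 1 + l = (k + l) + 1 by omega,
          Function.iterate_succ_apply, hx]
        exact a4
  · refine ⟨c + 1, ⟨0, fun i hi => absurd hi (Nat.not_lt_zero i), hn,
      Circuits.step hn1 ⟨1, j, le_rfl, hj, ?_, ?_, h2, ?_⟩ h3⟩, le_rfl⟩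
    · intro i hi
      have h0 : i = 0 := by omega
      subst h0
      exact hn
    · intro i hi1 hi2
      cases i with
      | zero => omega
      | succ i =>
        rw [Function.iterate_zero_apply, Function.iterate_succ_apply]
        exact h1 i (by omega)
    · rw [Function.iterate_zero_apply, show 1 + j = j + 1 by omega, Function.iterate_succ_apply]

/-- If `n` reaches `1` in `T` steps with at most `c` odd terms (before the first `1`), then the number of
circuits is at most `c`. -/
theorem hasC_of_odd (T : ℕ) (n : ℕ) (h : f^[T] n = 1) (hn : 1 ≤ n) :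
    ∃ c : ℕ, HasC n c ∧ c ≤ ((Finset.range T).filter (fun i => Odd (f^[i] n) ∧ f^[i] n ≠ 1)).card := by
  classical
  induction T generalizing n with
  | zero =>
    rw [Function.iterate_zero_apply] at h
    subst h
    exact ⟨0, BsC_one, Nat.zero_le _⟩
  | succ T ih =>
    by_cases hn1 : n = 1
    · subst hn1
      exact ⟨0, BsC_one, Nat.zero_le _⟩
    have hf : 1 ≤ f n := by
      unfold f
      rw [if_neg hn1]
      split_ifs <;> omega
    have hT : f^[T] (f n) = 1 := by
      rw [← Function.iterate_succ_apply]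
      exact h
    obtain ⟨c, hc, hle⟩ := ih (f n) hT hf
    -- shift the index set
    have hshift : ((Finset.range T).filter
        (fun i => Odd (f^[i] (f n)) ∧ f^[i] (f n) ≠ 1)).map ⟨Nat.succ, Nat.succ_injective⟩ ⊆
        ((Finset.range (T + 1)).filter (fun i => Odd (f^[i] n) ∧ f^[i] n ≠ 1)).erase 0 := by
      intro x hx
      rw [Finset.mem_map] at hx
      obtain ⟨i, hi, rfl⟩ := hx
      rw [Finset.mem_filter, Finset.mem_range] at hi
      rw [Finset.mem_erase, Finset.mem_filter, Finset.mem_range]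
      refine ⟨Nat.succ_ne_zero i, Nat.succ_lt_succ hi.1, ?_⟩
      exact hi.2
    have hcard := Finset.card_le_card hshift
    rw [Finset.card_map] at hcard
    by_cases hodd : Odd n
    · obtain ⟨c', hc', hle'⟩ := BsC_odd hodd hn1 hc
      refine ⟨c', hc', ?_⟩
      have h0 : 0 ∈ (Finset.range (T + 1)).filter (fun i => Odd (f^[i] n) ∧ f^[i] n ≠ 1) := by
        rw [Finset.mem_filter, Finset.mem_range]
        exact ⟨Nat.succ_pos T, hodd, hn1⟩
      have := Finset.card_erase_add_one h0
      omega
    · refine ⟨c, BsC_even (Nat.not_odd_iff_even.1 hodd) hc, ?_⟩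
      have := Finset.card_erase_le (s := (Finset.range (T + 1)).filter
        (fun i => Odd (f^[i] n) ∧ f^[i] n ≠ 1)) (a := 0)
      omega

theorem BsC_double {a c : ℕ} (h : HasC a c) : HasC (2 * a) c := by
  refine BsC_even (even_two_mul a) ?_
  rw [f_even]
  exact h

theorem BsC_four {a c : ℕ} (h : HasC a c) (i : ℕ) : HasC (4 ^ i * a) c := by
  induction i with
  | zero => simpa using h
  | succ i ih =>
    have e : 4 ^ (i + 1) * a = 2 * (2 * (4 ^ i * a)) := by ring
    rw [e]
    exact BsC_double (BsC_double ih)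

theorem BsC_step {a c i : ℕ} (ha : a % 3 = 2) (h5 : 4 ^ i * a % 9 ≠ 5) (h : HasC a c) :
    ∃ c', HasC (nxt i a) c' ∧ c' ≤ c + 1 := by
  have hb := BsC_four h i
  have h4 : 4 ^ i % 3 = 1 := by
    rw [Nat.pow_mod]
    norm_num
  have hb3 : 4 ^ i * a % 3 = 2 := by
    rw [Nat.mul_mod, h4, ha]
  unfold nxt
  generalize 4 ^ i * a = b at *
  by_cases h2 : b % 9 = 2
  · rw [if_pos h2]
    obtain ⟨d, rfl⟩ : ∃ d, b = 9 * d + 2 := ⟨b / 9, by omega⟩
    have e1 : (4 * (9 * d + 2) - 2) / 3 = 2 * (6 * d + 1) := by omega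
    rw [e1]
    rcases Nat.eq_zero_or_pos d with hd | hd
    · subst hd
      exact ⟨0, BsC_double BsC_one, Nat.zero_le _⟩
    · have hf : f (6 * d + 1) = 9 * d + 2 := by
        unfold f
        rw [if_neg (by omega), if_pos (by omega)]
        omega
      obtain ⟨c', hc', hle⟩ := BsC_odd (n := 6 * d + 1) (c := c) ⟨3 * d, by ring⟩ (by omega)
        (by rw [hf]; exact hb)
      exact ⟨c', BsC_double hc', hle⟩
  · rw [if_neg h2]
    obtain ⟨d, rfl⟩ : ∃ d, b = 9 * d + 8 := ⟨b / 9, by omega⟩
    have e1 : (2 * (9 * d + 8) - 1) / 3 = 6 * d + 5 := by omega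
    rw [e1]
    have hf : f (6 * d + 5) = 9 * d + 8 := by
      unfold f
      rw [if_neg (by omega), if_pos (by omega)]
      omega
    exact BsC_odd (n := 6 * d + 5) (c := c) ⟨3 * d + 2, by ring⟩ (by omega)
      (by rw [hf]; exact hb)

theorem circ5 {v : List ℕ} (h : Vd 5 v) : ∃ c : ℕ, HasC (nd 5 v) c ∧ c ≤ v.length + 1 := by
  induction v using List.reverseRecOn with
  | nil =>
    have h8 : HasC 8 0 := BsC_double (BsC_double (BsC_double BsC_one))
    have hf : f 5 = 8 := by
      unfold f
      norm_num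
    obtain ⟨c', hc', hle⟩ := BsC_odd (n := 5) (c := 0) ⟨2, by norm_num⟩ (by norm_num)
      (by rw [hf]; exact h8)
    exact ⟨c', hc', hle⟩
  | append_singleton v i ih =>
    rw [Vd_append] at h
    obtain ⟨h1, ⟨h2, h3⟩, h4⟩ := h
    obtain ⟨c, hc, hle⟩ := ih h1
    obtain ⟨c', hc', hle'⟩ := BsC_step (i := i) (nd_mod (by norm_num) h1) h3 hc
    refine ⟨c', ?_, ?_⟩
    · rw [nd_append]
      exact hc'
    · rw [List.length_append, List.length_singleton]
      omega

end Pool.Agent.helper82.K3X
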