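import Pool.Agent.helper82.K3X.BsI
import Pool.Agent.helper82.K3X.BsC

/-!
# K3X-St: the number of steps
-/

namespace Pool.Agent.helper82.K3X

open Pool.Agent.helper41.Coll

theorem St_f_double (a : ℕ) : f (2 * a) = a := by
  unfold f
  rw [if_neg (by omega), if_neg (by omega)]
  omega

theorem St_iter_four (i a : ℕ) : f^[2 * i] (4 ^ i * a) = a := by
  induction i with
  | zero => simp
  | succ i ih =>
    have e : 4 ^ (i + 1) * a = 2 * (2 * (4 ^ i * a)) := by ring
    rw [e, show 2 * (i + 1) = (2 * i + 1) + 1 by ring, Function.iterate_succ_apply, St_f_double,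
      Function.iterate_succ_apply, St_f_double, ih]

theorem St_step {i a : ℕ} (ha : a % 3 = 2) (h5 : 4 ^ i * a % 9 ≠ 5) (h2 : nxt i a ≠ 2) :
    f^[if 4 ^ i * a % 9 = 2 then 2 * i + 2 else 2 * i + 1] (nxt i a) = a := by
  have hit := St_iter_four i a
  have hb3 : 4 ^ i * a % 3 = 2 := BsI_pow_mod ha
  unfold nxt at *
  generalize 4 ^ i * a = b at *
  by_cases hb : b % 9 = 2
  · rw [if_pos hb] at h2 ⊢
    rw [if_pos hb]
    obtain ⟨d, rfl⟩ : ∃ d, b = 9 * d + 2 := ⟨b / 9, by omega⟩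
    have e1 : (4 * (9 * d + 2) - 2) / 3 = 2 * (6 * d + 1) := by omega
    rw [e1] at h2 ⊢
    have hf : f (6 * d + 1) = 9 * d + 2 := by
      unfold f
      rw [if_neg (by omega), if_pos (by omega)]
      omega
    rw [show 2 * i + 2 = (2 * i + 1) + 1 by ring, Function.iterate_succ_apply, St_f_double,
      Function.iterate_succ_apply, hf, hit]
  · rw [if_neg hb] at h2 ⊢
    rw [if_neg hb]
    obtain ⟨d, rfl⟩ : ∃ d, b = 9 * d + 8 := ⟨b / 9, by omega⟩
    have e1 : (2 * (9 * d + 8) - 1) / 3 = 6 * d + 5 := by omega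
    rw [e1]
    have hf : f (6 * d + 5) = 9 * d + 8 := by
      unfold f
      rw [if_neg (by omega), if_pos (by omega)]
      omega
    rw [Function.iterate_succ_apply, hf, hit]

theorem St_gro_pow (i a : ℕ) :
    (2 : ℝ) ^ (if 4 ^ i * a % 9 = 2 then 2 * i + 2 else 2 * i + 1) = 3 * gro i a := by
  unfold gro
  have h4 : (2 : ℝ) ^ (2 * i) = 4 ^ i := by
    rw [pow_mul]
    norm_num
  by_cases hb : 4 ^ i * a % 9 = 2
  · rw [if_pos hb, if_pos hb, pow_add, h4]
    ring
  · rw [if_neg hb, if_neg hb, pow_add, h4]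
    ring

theorem st_append (a : ℕ) (u v : List ℕ) : st a (u ++ v) = st a u + st (nd a u) v := by
  induction u generalizing a with
  | nil => simp [st, nd]
  | cons i u ih =>
    rw [List.cons_append]
    show (if 4 ^ i * a % 9 = 2 then 2 * i + 2 else 2 * i + 1) + st (nxt i a) (u ++ v) =
      (if 4 ^ i * a % 9 = 2 then 2 * i + 2 else 2 * i + 1) + st (nxt i a) u + st (nd (nxt i a) u) v
    rw [ih, Nat.add_assoc]

theorem two_pow_st (a : ℕ) (v : List ℕ) : (2 : ℝ) ^ st a v = 3 ^ v.length * pr gro a v := by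
  induction v generalizing a with
  | nil => simp [st, pr]
  | cons i v ih =>
    show (2 : ℝ) ^ ((if 4 ^ i * a % 9 = 2 then 2 * i + 2 else 2 * i + 1) + st (nxt i a) v) =
      3 ^ (v.length + 1) * (gro i a * pr gro (nxt i a) v)
    rw [pow_add, ih, St_gro_pow, pow_succ]
    ring

theorem iter_st {u v : List ℕ} (h : Vd 5 (u ++ v)) :
    f^[st (nd 5 u) v] (nd 5 (u ++ v)) = nd 5 u := by
  induction v generalizing u with
  | nil => simp [st]
  | cons i v ih =>
    have e : u ++ i :: v = (u ++ [i]) ++ v := by simp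
    rw [e] at h ⊢
    have h1 : Vd 5 (u ++ [i]) := ((Vd_append _ _ _).1 h).1
    have h2 : nd 5 (u ++ [i]) ≠ 2 := nd5_ne_two h1
    obtain ⟨h3, _, h5⟩ := BsI_Vd_snoc h1
    have h6 := ih h
    have h7 : st (nd 5 u) (i :: v) =
        (if 4 ^ i * nd 5 u % 9 = 2 then 2 * i + 2 else 2 * i + 1) + st (nd 5 (u ++ [i])) v := by
      rw [BsI_nd_snoc]
      rfl
    rw [h7, Function.iterate_add_apply, h6]
    rw [BsI_nd_snoc] at h2 ⊢
    exact St_step (BsI_mod h3) h5 h2

theorem iter5 {v : List ℕ} (h : Vd 5 v) : f^[st 5 v + 4] (nd 5 v) = 1 := by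
  have h1 := iter_st (u := []) (v := v) (by simpa using h)
  have h2 : f^[st 5 v] (nd 5 v) = 5 := h1
  rw [Nat.add_comm, Function.iterate_add_apply, h2]
  show f (f (f (f 5))) = 1
  have h5 : f 5 = 8 := by
    unfold f
    norm_num
  have h8 : f 8 = 4 := St_f_double 4
  have h4 : f 4 = 2 := St_f_double 2
  have h22 : f 2 = 1 := St_f_double 1
  rw [h5, h8, h4, h22]

end Pool.Agent.helper82.K3X
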