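import Pool.Agent.helper82.K3X.BsI
import Pool.Agent.helper82.K3X.BsC
import Pool.Agent.helper82.K3X.St

/-!
# K3X-Bs: the starting nodes
-/

namespace Pool.Agent.helper82.K3X

open Finset

/-- the two letters used at the node `a` -/
def Bs_let (a : ℕ) : Finset ℕ :=
  if a % 9 = 2 then {0, 1} else if a % 9 = 5 then {1, 2} else {0, 2}

/-- the words of length `s` from `a` with these letters -/
def Bs_w : ℕ → ℕ → Finset (List ℕ)
  | 0, _ => {[]}
  | s + 1, a => (Bs_let a).biUnion fun i => (Bs_w s (nxt i a)).image (fun v => i :: v)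

theorem Bs_let_card (a : ℕ) : (Bs_let a).card = 2 := by
  unfold Bs_let
  split_ifs <;> rfl

theorem Bs_w_card (s : ℕ) : ∀ a, (Bs_w s a).card = 2 ^ s := by
  induction s with
  | zero => intro a; simp [Bs_w]
  | succ s ih =>
    intro a
    rw [Bs_w, card_biUnion]
    · have h1 : ∀ i ∈ Bs_let a, ((Bs_w s (nxt i a)).image (fun v => i :: v)).card = 2 ^ s := by
        intro i _
        rw [card_image_of_injective _ (fun v w h => (List.cons.inj h).2), ih]
      rw [sum_congr rfl h1, sum_const, Bs_let_card, smul_eq_mul, pow_succ, mul_comm]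
    · intro i _ j _ hij
      refine disjoint_left.2 ?_
      intro v hv hv'
      obtain ⟨w, _, rfl⟩ := mem_image.1 hv
      obtain ⟨w', _, h⟩ := mem_image.1 hv'
      exact hij (List.cons.inj h).1.symm

theorem Bs_let_ok {a i : ℕ} (ha : a % 3 = 2) (hi : i ∈ Bs_let a) :
    i < 7 ∧ 4 ^ i * a % 9 ≠ 5 ∧ gro i a ≤ 64 / 3 := by
  have h9 : a % 9 = 2 ∨ a % 9 = 5 ∨ a % 9 = 8 := by omega
  unfold Bs_let at hi
  rcases h9 with h | h | h
  · rw [if_pos h, mem_insert, mem_singleton] at hi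
    rcases hi with rfl | rfl
    · have h1 : 4 ^ 0 * a % 9 = 2 := by omega
      refine ⟨by norm_num, by omega, ?_⟩
      rw [gro, if_pos h1]; norm_num
    · have h1 : 4 ^ 1 * a % 9 = 8 := by omega
      refine ⟨by norm_num, by omega, ?_⟩
      rw [gro, if_neg (by omega)]; norm_num
  · rw [if_neg (by omega), if_pos h, mem_insert, mem_singleton] at hi
    rcases hi with rfl | rfl
    · have h1 : 4 ^ 1 * a % 9 = 2 := by omega
      refine ⟨by norm_num, by omega, ?_⟩
      rw [gro, if_pos h1]; norm_num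
    · have h1 : 4 ^ 2 * a % 9 = 8 := by omega
      refine ⟨by norm_num, by omega, ?_⟩
      rw [gro, if_neg (by omega)]; norm_num
  · rw [if_neg (by omega), if_neg (by omega), mem_insert, mem_singleton] at hi
    rcases hi with rfl | rfl
    · have h1 : 4 ^ 0 * a % 9 = 8 := by omega
      refine ⟨by norm_num, by omega, ?_⟩
      rw [gro, if_neg (by omega)]; norm_num
    · have h1 : 4 ^ 2 * a % 9 = 2 := by omega
      refine ⟨by norm_num, by omega, ?_⟩
      rw [gro, if_pos h1]; norm_num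

theorem Bs_w_ok (s : ℕ) : ∀ a, a % 3 = 2 → ∀ v ∈ Bs_w s a,
    Vd a v ∧ v.length = s ∧ (nd a v : ℝ) ≤ (64 / 3) ^ s * a := by
  induction s with
  | zero =>
    intro a _ v hv
    rw [Bs_w, mem_singleton] at hv
    subst hv
    simp [Vd, nd]
  | succ s ih =>
    intro a ha v hv
    rw [Bs_w, mem_biUnion] at hv
    obtain ⟨i, hi, hv⟩ := hv
    obtain ⟨w, hw, rfl⟩ := mem_image.1 hv
    obtain ⟨h7, h5, hg⟩ := Bs_let_ok ha hi
    obtain ⟨h1, h2, h3⟩ := ih (nxt i a) (nxt_mod ha h5) w hw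
    refine ⟨⟨⟨h7, h5⟩, h1⟩, by rw [List.length_cons, h2], ?_⟩
    have h4 : (nxt i a : ℝ) ≤ 64 / 3 * a :=
      (nxt_le i a).trans (mul_le_mul_of_nonneg_right hg (Nat.cast_nonneg a))
    calc (nd a (i :: w) : ℝ) = nd (nxt i a) w := rfl
      _ ≤ (64 / 3) ^ s * (nxt i a : ℝ) := h3
      _ ≤ (64 / 3) ^ s * (64 / 3 * a) := mul_le_mul_of_nonneg_left h4 (by positivity)
      _ = (64 / 3) ^ (s + 1) * a := by ring

theorem exists_base (s : ℕ) : ∃ S : Finset ℕ, Base S s := by
  have h5 : (5 : ℕ) % 3 = 2 := rfl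
  have hok := Bs_w_ok s 5 h5
  refine ⟨(Bs_w s 5).image (nd 5), ?_, ?_, ?_, ?_, ?_, ?_, ?_⟩
  · rw [card_image_of_injOn, Bs_w_card]
    intro u hu u' hu' h
    exact inj5 (hok u hu).1 (hok u' hu').1 h
  · intro a ha
    obtain ⟨u, hu, rfl⟩ := mem_image.1 ha
    exact nd_pos h5 (hok u hu).1
  · intro a ha
    obtain ⟨u, hu, rfl⟩ := mem_image.1 ha
    have := (hok u hu).2.2
    push_cast at this
    linarith
  · intro a ha
    obtain ⟨u, hu, rfl⟩ := mem_image.1 ha
    exact nd_mod h5 (hok u hu).1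
  · intro a ha a' ha' v v' hv hv' h
    obtain ⟨u, hu, rfl⟩ := mem_image.1 ha
    obtain ⟨u', hu', rfl⟩ := mem_image.1 ha'
    rw [← nd_append, ← nd_append] at h
    have h1 : Vd 5 (u ++ v) := (Vd_append 5 u v).2 ⟨(hok u hu).1, hv⟩
    have h2 : Vd 5 (u' ++ v') := (Vd_append 5 u' v').2 ⟨(hok u' hu').1, hv'⟩
    have h3 := inj5 h1 h2 h
    have h4 : u.length = u'.length := by rw [(hok u hu).2.1, (hok u' hu').2.1]
    obtain ⟨h5, h6⟩ := List.append_inj h3 h4
    subst h5
    exact ⟨rfl, h6⟩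
  · intro a ha v hv
    obtain ⟨u, hu, rfl⟩ := mem_image.1 ha
    have h1 : Vd 5 (u ++ v) := (Vd_append 5 u v).2 ⟨(hok u hu).1, hv⟩
    obtain ⟨c, hc, hcl⟩ := circ5 h1
    rw [nd_append] at hc
    refine ⟨c, hc, hcl.trans ?_⟩
    rw [List.length_append, (hok u hu).2.1]
  · refine ⟨(Bs_w s 5).sup (fun u => st 5 u) + 4, fun a ha v hv => ?_⟩
    obtain ⟨u, hu, rfl⟩ := mem_image.1 ha
    have h1 : Vd 5 (u ++ v) := (Vd_append 5 u v).2 ⟨(hok u hu).1, hv⟩
    have h2 := iter5 h1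
    rw [st_append, nd_append] at h2
    have h3 : st 5 u ≤ (Bs_w s 5).sup (fun u => st 5 u) := Finset.le_sup (f := fun u => st 5 u) hu
    have h4 : st (nd 5 u) v + ((Bs_w s 5).sup (fun u => st 5 u) + 4) =
        ((Bs_w s 5).sup (fun u => st 5 u) - st 5 u) + (st 5 u + st (nd 5 u) v + 4) := by omega
    rw [h4, Function.iterate_add_apply, h2]
    exact Function.iterate_fixed (by decide) _

end Pool.Agent.helper82.K3X
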