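import Pool.Agent.helper82.K3X.Defs

/-!
# K3X-Eh: the threshold exponents
-/

namespace Pool.Agent.helper82.K3X

theorem exists_thr {slo shi eta : ℝ} (h : slo < shi) (he : 0 < eta) (C : ℕ) (hC : 2 ≤ C) (L0 : ℕ)
    (hL : 1 ≤ L0) : ∃ E : ℕ → ℝ, Thr slo shi eta C L0 E := by
  have hC' : (2 : ℝ) ≤ C := by exact_mod_cast hC
  have hlC : 0 < Real.log C := Real.log_pos (by linarith)
  have hL' : (1 : ℝ) ≤ L0 := by exact_mod_cast hL
  have hL0 : (0 : ℝ) < L0 := by linarith
  set k : ℝ := eta / Real.log C with hk
  have hk0 : 0 < k := div_pos he hlC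
  have hkC : k * Real.log C = eta := by rw [hk]; field_simp
  set g : ℕ → ℝ := fun i => max 0 (Real.log ((i : ℝ) / L0)) with hg
  have hg0 : ∀ i, 0 ≤ g i := fun i => le_max_left _ _
  have hgm : Monotone g := by
    intro i j hij
    simp only [hg]
    rcases Nat.eq_zero_or_pos i with h0 | h0
    · subst h0
      simp
    · refine max_le_max le_rfl (Real.log_le_log (by positivity) ?_)
      gcongr
  have hgs : ∀ i j, j ≤ C * i → g j ≤ g i + Real.log C := by
    intro i j hij
    simp only [hg]
    rcases Nat.eq_zero_or_pos j with h0 | h0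
    · subst h0
      simp
      positivity
    · have hi : 0 < i := by
        rcases Nat.eq_zero_or_pos i with h1 | h1
        · subst h1; omega
        · exact h1
      have hi' : (0 : ℝ) < i := by exact_mod_cast hi
      have hj' : (0 : ℝ) < j := by exact_mod_cast h0
      refine max_le (by positivity) ?_
      have h1 : Real.log ((j : ℝ) / L0) ≤ Real.log ((C : ℝ) * ((i : ℝ) / L0)) := by
        refine Real.log_le_log (by positivity) ?_
        rw [← mul_div_assoc]
        gcongr
        exact_mod_cast hij
      rw [Real.log_mul (by positivity) (by positivity)] at h1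
      have h2 := le_max_right (0 : ℝ) (Real.log ((i : ℝ) / L0))
      linarith
  refine ⟨fun i => min shi (slo + k * g i), ?_, ?_, ?_, ?_, ?_, ?_⟩
  · intro i j hij
    exact min_le_min le_rfl (by have := hgm hij; nlinarith)
  · intro i
    exact le_min h.le (by have := mul_nonneg hk0.le (hg0 i); linarith)
  · intro i
    exact min_le_left _ _
  · intro i j hij
    have h1 := hgs i j hij
    have h2 : k * g j ≤ k * g i + eta := by
      rw [← hkC, ← mul_add]
      exact mul_le_mul_of_nonneg_left h1 hk0.le
    refine le_trans (min_le_min le_rfl (add_le_add le_rfl h2)) ?_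
    rcases le_total shi (slo + k * g i) with h3 | h3
    · rw [min_eq_left h3]
      exact le_trans (min_le_left _ _) (by linarith)
    · rw [min_eq_right h3]
      exact le_trans (min_le_right _ _) (by linarith)
  · intro j hj
    have h1 := hgs L0 j hj
    have h2 : g L0 = 0 := by
      simp only [hg]
      rw [div_self hL0.ne', Real.log_one, max_self]
    rw [h2, zero_add] at h1
    refine le_trans (min_le_right _ _) ?_
    have h3 : k * g j ≤ eta := by
      rw [← hkC]
      exact mul_le_mul_of_nonneg_left h1 hk0.le
    linarith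
  · obtain ⟨n, hn⟩ := exists_nat_gt ((L0 : ℝ) * Real.exp ((shi - slo) / k))
    refine ⟨n, fun i hi => min_eq_left ?_⟩
    have hi' : (L0 : ℝ) * Real.exp ((shi - slo) / k) ≤ i :=
      le_trans hn.le (by exact_mod_cast hi)
    have h1 : (shi - slo) / k ≤ Real.log ((i : ℝ) / L0) := by
      rw [Real.le_log_iff_exp_le (by
        have : 0 < (L0 : ℝ) * Real.exp ((shi - slo) / k) := by positivity
        have : (0 : ℝ) < i := by linarith
        positivity), le_div_iff₀ hL0]
      linarith
    have h2 : (shi - slo) / k ≤ g i := le_trans h1 (le_max_right _ _)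
    have h3 : shi - slo ≤ k * g i := by
      rw [div_le_iff₀ hk0] at h2
      linarith
    linarith

end Pool.Agent.helper82.K3X
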