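import Pool.Agent.helper82.K3X.K1Defs

/-!
# K3X-K1b: the nodes with too large mass and with a balanced ancestor
-/

namespace Pool.Agent.helper82.K3X

open Finset

variable {N t : ℕ} {slo shi llo lhi : ℝ} {p : ℕ → ℕ → ℝ}

/-- The nearest balanced ancestor. -/
theorem K1b_split {mu : ℝ} {y : ℕ} (hy : 3 ≤ y) {E : ℕ → ℝ} {Q : ℕ → List ℕ → Prop} {a : ℕ} {v : List ℕ}
    (hm : a % 3 = 2) (hv : Vd a v)
    (hex : ∀ j < v.length, ¬ Ext p mu y E Q a (v.take j)) (hyn : y ≤ nd a v)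
    (hbal : Bal a v) :
    ∃ u w, v = u ++ w ∧ y ≤ nd a u ∧
      mu * pr p a u ≤ (3 : ℝ) ^ (-(E (Nat.log 3 (nd a u)) * (Nat.log 3 (nd a u) : ℝ))) ∧
      Nat.log 3 (nd a u) ≤ w.length ∧ w.length ≤ Nat.log 3 (nd a u) + 8 := by
  classical
  have hP : ∃ j, j ≤ v.length ∧ Nat.log 3 (nd a (v.take (v.length - j))) ≤ j := hbal
  obtain ⟨j, hj1, hj2, hmin⟩ : ∃ j, j ≤ v.length ∧
      Nat.log 3 (nd a (v.take (v.length - j))) ≤ j ∧
      ∀ m < j, ¬ (m ≤ v.length ∧ Nat.log 3 (nd a (v.take (v.length - m))) ≤ m) :=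
    ⟨Nat.find hP, (Nat.find_spec hP).1, (Nat.find_spec hP).2, fun m hm => Nat.find_min hP hm⟩
  have hj0 : 1 ≤ j := by
    rcases Nat.eq_zero_or_pos j with h0 | h0
    · subst h0
      rw [Nat.sub_zero, List.take_length] at hj2
      have h3 : 3 ≤ nd a v := le_trans hy hyn
      have : 0 < Nat.log 3 (nd a v) := Nat.log_pos (by norm_num) h3
      omega
    · exact h0
  have hk : v.length - j < v.length := by omega
  have hne := hex _ hk
  unfold Ext Bad at hne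
  push Not at hne
  obtain ⟨⟨hyb, hmass, -⟩, -⟩ := hne
  refine ⟨v.take (v.length - j), v.drop (v.length - j), (List.take_append_drop _ _).symm, hyb,
    hmass, ?_, ?_⟩
  · rw [List.length_drop]
    omega
  · rw [List.length_drop]
    have h1 := hmin (j - 1) (by omega)
    have h2 : ¬ Nat.log 3 (nd a (v.take (v.length - (j - 1)))) ≤ j - 1 := fun h =>
      h1 ⟨by omega, h⟩
    have h3 : v.length - (j - 1) = (v.length - j) + 1 := by omega
    have h4 : v.take (v.length - j + 1) = v.take (v.length - j) ++ [v[v.length - j]] :=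
      (List.take_append_getElem hk).symm
    rw [h3, h4, nd_append] at h2
    have h5 : nd (nd a (v.take (v.length - j))) [v[v.length - j]] =
        nxt (v[v.length - j]) (nd a (v.take (v.length - j))) := rfl
    rw [h5] at h2
    have h6 : Nat.log 3 (nxt (v[v.length - j]) (nd a (v.take (v.length - j)))) ≤
        Nat.log 3 (nd a (v.take (v.length - j))) + 8 :=
      nxt_log (Vd_lt hv _ (List.getElem_mem hk)) (nd_pos hm (Vd_take hv _))
    omega

/-- The mass of a node with too large mass against the term of the block of its balanced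
ancestor. -/
theorem K1b_term (hc : Cert N t slo shi llo lhi p) {mu : ℝ} {y : ℕ} (hy : 3 ≤ y)
    {eta : ℝ} {E : ℕ → ℝ} {L0 : ℕ} (hE : Thr slo shi eta 73 L0 E) {a : ℕ}
    (hm : a % 3 = 2) {u w : List ℕ} (hv : Vd a (u ++ w))
    (hbig : (3 : ℝ) ^ (-(E (Nat.log 3 (nd a (u ++ w))) * (Nat.log 3 (nd a (u ++ w)) : ℝ))) <
      mu * pr p a (u ++ w))
    (hyb : y ≤ nd a u)
    (h1 : mu * pr p a u ≤ (3 : ℝ) ^ (-(E (Nat.log 3 (nd a u)) * (Nat.log 3 (nd a u) : ℝ))))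
    (h3 : w.length ≤ Nat.log 3 (nd a u) + 8) :
    mu * pr p a (u ++ w) ≤
      ((3 : ℝ) ^ (-(E (Nat.log 3 (nd a u)) * (Nat.log 3 (nd a u) : ℝ))) *
        pr p (nd a u) w) ^ (t + 1) *
      (pr gro (nd a u) w * 3 ^ (Nat.log 3 (nd a u) + 1)) ^
        ((t : ℝ) * min shi (E (Nat.log 3 (nd a u)) + eta)) := by
  set b := nd a u with hb
  set i := Nat.log 3 b with hi
  have hvu : Vd a u ∧ Vd b w := (Vd_append a u w).1 hv
  have hbm : b % 3 = 2 := nd_mod hm hvu.1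
  have hnd : nd a (u ++ w) = nd b w := nd_append a u w
  rw [hnd] at hbig
  set n := nd b w with hn
  set l := Nat.log 3 n with hl
  have hi1 : 1 ≤ i := by
    have : 0 < Nat.log 3 b := Nat.log_pos (by norm_num) (le_trans hy hyb)
    omega
  have hli : l ≤ 73 * i := by
    have h4 : l ≤ i + 8 * w.length := nd_log hbm hvu.2
    omega
  have hn1 : 1 ≤ n := nd_pos hbm hvu.2
  have hEl : E l ≤ min shi (E i + eta) := le_min (hE.hi l) (hE.step i l hli)
  have hEl0 : 0 < E l := lt_of_lt_of_le hc.slo0 (hE.lo l)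
  set s := min shi (E i + eta) with hs
  have hs0 : 0 ≤ s := le_trans hEl0.le hEl
  set m := mu * pr p a (u ++ w) with hm'
  have hpnn : ∀ i a, 0 ≤ p i a := hc.wt.nn
  have hm0 : 0 < m := lt_trans (Real.rpow_pos_of_pos (by norm_num) _) hbig
  -- the mass of the ancestor
  have hmle : m ≤ (3 : ℝ) ^ (-(E i * (i : ℝ))) * pr p b w := by
    have h4 : m = mu * pr p a u * pr p b w := by
      rw [hm', pr_append, mul_assoc]
    rw [h4]
    exact mul_le_mul_of_nonneg_right h1 (pr_nn hpnn _ _)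
  -- `1 < m 3^(E l l)`
  have h5 : 1 ≤ m * (3 : ℝ) ^ (E l * (l : ℝ)) := by
    have h6 : (3 : ℝ) ^ (-(E l * (l : ℝ))) * (3 : ℝ) ^ (E l * (l : ℝ)) = 1 := by
      rw [← Real.rpow_add (by norm_num)]
      simp
    calc (1 : ℝ) = (3 : ℝ) ^ (-(E l * (l : ℝ))) * (3 : ℝ) ^ (E l * (l : ℝ)) := h6.symm
      _ ≤ m * (3 : ℝ) ^ (E l * (l : ℝ)) :=
        mul_le_mul_of_nonneg_right hbig.le (Real.rpow_nonneg (by norm_num) _)
  have h7 : m ≤ m ^ (t + 1) * ((3 : ℝ) ^ (E l * (l : ℝ))) ^ t := by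
    have h8 : 1 ≤ (m * (3 : ℝ) ^ (E l * (l : ℝ))) ^ t := one_le_pow₀ h5
    calc m = m * 1 := (mul_one m).symm
      _ ≤ m * (m * (3 : ℝ) ^ (E l * (l : ℝ))) ^ t := mul_le_mul_of_nonneg_left h8 hm0.le
      _ = m ^ (t + 1) * ((3 : ℝ) ^ (E l * (l : ℝ))) ^ t := by
        rw [mul_pow]
        ring
  have hlog : (3 : ℝ) ^ (l : ℝ) ≤ n := by
    have h9 : 3 ^ l ≤ n := Nat.pow_log_le_self 3 (by omega)
    rw [Real.rpow_natCast]
    exact_mod_cast h9
  have hble : (b : ℝ) ≤ 3 ^ (i + 1) := by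
    have h9 : b < 3 ^ (i + 1) := Nat.lt_pow_succ_log_self (by norm_num) b
    exact_mod_cast h9.le
  have hnle : (n : ℝ) ≤ pr gro b w * 3 ^ (i + 1) :=
    le_trans (nd_le b w) (mul_le_mul_of_nonneg_left hble (pr_gro_pos b w).le)
  have hn1' : (1 : ℝ) ≤ n := by exact_mod_cast hn1
  have h10 : ((3 : ℝ) ^ (E l * (l : ℝ))) ^ t ≤ (pr gro b w * 3 ^ (i + 1)) ^ ((t : ℝ) * s) := by
    calc ((3 : ℝ) ^ (E l * (l : ℝ))) ^ t = ((3 : ℝ) ^ (l : ℝ)) ^ ((t : ℝ) * E l) := by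
          rw [← Real.rpow_natCast, ← Real.rpow_mul (by norm_num), ← Real.rpow_mul (by norm_num)]
          congr 1
          ring
      _ ≤ (n : ℝ) ^ ((t : ℝ) * E l) :=
          Real.rpow_le_rpow (Real.rpow_nonneg (by norm_num) _) hlog (by positivity)
      _ ≤ (n : ℝ) ^ ((t : ℝ) * s) :=
          Real.rpow_le_rpow_of_exponent_le hn1' (mul_le_mul_of_nonneg_left hEl (by positivity))
      _ ≤ (pr gro b w * 3 ^ (i + 1)) ^ ((t : ℝ) * s) :=
          Real.rpow_le_rpow (by positivity) hnle (by positivity)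
  calc m ≤ m ^ (t + 1) * ((3 : ℝ) ^ (E l * (l : ℝ))) ^ t := h7
    _ ≤ ((3 : ℝ) ^ (-(E i * (i : ℝ))) * pr p b w) ^ (t + 1) *
        (pr gro b w * 3 ^ (i + 1)) ^ ((t : ℝ) * s) := by
      apply mul_le_mul (pow_le_pow_left₀ hm0.le hmle _) h10 (by positivity)
      exact pow_nonneg (le_trans hm0.le hmle) _

open Classical in
theorem k1b (hc : Cert N t slo shi llo lhi p) {S : Finset ℕ} {s : ℕ} (hb : Base S s) {mu : ℝ}
    (hmu : 0 < mu) {y : ℕ} (hy : 3 ≤ y) {eta : ℝ} (heta : 0 < eta) {E : ℕ → ℝ} {L0 : ℕ}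
    (hE : Thr slo shi eta 73 L0 E) (Q : ℕ → List ℕ → Prop) (D : ℕ) :
    ∃ n : ℕ, ∑ x ∈ (exs p mu y E Q S D).filter
      (fun x => Big p mu y E x.1 x.2 ∧ Bal x.1 x.2), mu * pr p x.1 x.2 ≤
      ∑ i ∈ Ico (Nat.log 3 y) n, KB p t (E i) (min shi (E i + eta)) i := by
  set F := (exs p mu y E Q S D).filter (fun x => Big p mu y E x.1 x.2 ∧ Bal x.1 x.2) with hF
  have hsp : ∀ x : ℕ × List ℕ, ∃ u w : List ℕ, x ∈ F → (x.2 = u ++ w ∧ y ≤ nd x.1 u ∧
      mu * pr p x.1 u ≤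
        (3 : ℝ) ^ (-(E (Nat.log 3 (nd x.1 u)) * (Nat.log 3 (nd x.1 u) : ℝ))) ∧
      Nat.log 3 (nd x.1 u) ≤ w.length ∧ w.length ≤ Nat.log 3 (nd x.1 u) + 8) := by
    intro x
    by_cases hx : x ∈ F
    · have hx' := hx
      rw [hF, mem_filter] at hx
      obtain ⟨hx1, hx2, hx3⟩ := hx
      unfold exs at hx1
      rw [mem_filter, mem_product] at hx1
      obtain ⟨⟨hS, -⟩, hV, hI⟩ := hx1
      obtain ⟨u, w, h⟩ := K1b_split (p := p) (mu := mu) (E := E) (Q := Q) hy (hb.mod _ hS) hV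
        hI.2 hx2.1 hx3
      exact ⟨u, w, fun _ => h⟩
    · exact ⟨[], [], fun h => absurd h hx⟩
  choose u w huw using hsp
  set n := F.sup (fun x => Nat.log 3 (nd x.1 (u x))) + 1 with hn
  refine ⟨n, ?_⟩
  -- the sum of the blocks as one sum
  set T : Finset (Σ _ : ℕ, Σ _ : ℕ, Σ _ : ℕ, List ℕ) := (Ico (Nat.log 3 y) n).sigma
    (fun i => ((range (3 ^ (i + 1))).filter (fun b => b % 3 = 2)).sigma
      (fun _ => (Icc i (i + 8)).sigma (fun j => wd j))) with hT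
  set f : (Σ _ : ℕ, Σ _ : ℕ, Σ _ : ℕ, List ℕ) → ℝ := fun z =>
    ((3 : ℝ) ^ (-(E z.1 * (z.1 : ℝ))) * pr p z.2.1 z.2.2.2) ^ (t + 1) *
      (pr gro z.2.1 z.2.2.2 * 3 ^ (z.1 + 1)) ^ ((t : ℝ) * min shi (E z.1 + eta)) with hf
  have hsum : ∑ i ∈ Ico (Nat.log 3 y) n, KB p t (E i) (min shi (E i + eta)) i =
      ∑ z ∈ T, f z := by
    rw [hT, sum_sigma]
    refine sum_congr rfl fun i _ => ?_
    rw [sum_sigma]
    unfold KB
    refine sum_congr rfl fun b _ => ?_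
    rw [sum_sigma]
  rw [hsum]
  set Ψ : ℕ × List ℕ → (Σ _ : ℕ, Σ _ : ℕ, Σ _ : ℕ, List ℕ) := fun x =>
    ⟨Nat.log 3 (nd x.1 (u x)), nd x.1 (u x), (w x).length, w x⟩ with hΨ
  have hpnn : ∀ i a, 0 ≤ p i a := hc.wt.nn
  have hfnn : ∀ z, 0 ≤ f z := by
    intro z
    rw [hf]
    have h1 := pr_nn hpnn z.2.1 z.2.2.2
    have h2 := (pr_gro_pos z.2.1 z.2.2.2).le
    positivity
  have hmemF : ∀ x ∈ F, x.1 ∈ S ∧ Vd x.1 x.2 ∧ Big p mu y E x.1 x.2 := by
    intro x hx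
    rw [hF, mem_filter] at hx
    obtain ⟨hx1, hx2, hx3⟩ := hx
    unfold exs at hx1
    rw [mem_filter, mem_product] at hx1
    exact ⟨hx1.1.1, hx1.2.1, hx2⟩
  have hinj : ∀ x ∈ F, ∀ x' ∈ F, Ψ x = Ψ x' → x = x' := by
    intro x hx x' hx' h
    rw [hΨ] at h
    simp only [Sigma.mk.injEq, heq_eq_eq] at h
    obtain ⟨-, h2, -, h4⟩ := h
    obtain ⟨hS, hV, -⟩ := hmemF x hx
    obtain ⟨hS', hV', -⟩ := hmemF x' hx'
    obtain ⟨e, -⟩ := huw x hx
    obtain ⟨e', -⟩ := huw x' hx'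
    rw [e] at hV
    rw [e'] at hV'
    obtain ⟨e1, e2⟩ := hb.inj _ hS _ hS' _ _ ((Vd_append _ _ _).1 hV).1
      ((Vd_append _ _ _).1 hV').1 h2
    refine Prod.ext e1 ?_
    rw [e, e', e2, h4]
  calc ∑ x ∈ F, mu * pr p x.1 x.2 ≤ ∑ x ∈ F, f (Ψ x) := by
        refine sum_le_sum fun x hx => ?_
        obtain ⟨hS, hV, hB⟩ := hmemF x hx
        obtain ⟨e, h1, h2, h3, h4⟩ := huw x hx
        have hB2 := hB.2
        rw [e] at hV hB2
        have := K1b_term hc hy hE (hb.mod _ hS) hV hB2 h1 h2 h4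
        rw [← e] at this
        exact this
    _ = ∑ z ∈ F.image Ψ, f z := (sum_image (fun x hx x' hx' h => hinj x hx x' hx' h)).symm
    _ ≤ ∑ z ∈ T, f z := by
        refine sum_le_sum_of_subset_of_nonneg ?_ (fun z _ _ => hfnn z)
        intro z hz
        rw [mem_image] at hz
        obtain ⟨x, hx, rfl⟩ := hz
        obtain ⟨hS, hV, hB⟩ := hmemF x hx
        obtain ⟨e, h1, h2, h3, h4⟩ := huw x hx
        rw [e] at hV
        have hV1 := (Vd_append _ _ _).1 hV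
        rw [hT, hΨ]
        simp only [mem_sigma, mem_Ico, mem_filter, mem_range, mem_Icc]
        refine ⟨⟨Nat.log_mono_right h1, ?_⟩, ⟨Nat.lt_pow_succ_log_self (by norm_num) _,
          nd_mod (hb.mod _ hS) hV1.1⟩, ⟨h3, h4⟩, mem_wd.2 ⟨rfl, fun i hi => ?_⟩⟩
        · rw [hn]
          exact Nat.lt_succ_of_le (le_sup (f := fun x => Nat.log 3 (nd x.1 (u x))) hx)
        · exact Vd_lt hV1.2 i hi

end Pool.Agent.helper82.K3X
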