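import Pool.Agent.helper82.K3X.K1Defs

/-!
# K3X-K1i: the nodes with too large mass and without a balanced ancestor
-/

namespace Pool.Agent.helper82.K3X

open Finset

variable {N t : ℕ} {slo shi llo lhi : ℝ} {p : ℕ → ℕ → ℝ}

/-- the bound of one term -/
theorem K1i_term {slo eta : ℝ} (hslo : 0 < slo) (heta : 0 < eta) (t : ℕ) {m e g : ℝ} {n l L0 a : ℕ}
    (hm : 0 ≤ m) (hl : 3 ^ l ≤ n) (hle : (3 : ℝ) ^ (-(e * (l : ℝ))) < m) (he : e ≤ slo + eta)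
    (hl9 : l ≤ 9 * L0) (hn : (n : ℝ) ≤ g * a) (hg : 0 < g) (ha : a < 3 ^ (L0 + 1)) :
    m ≤ m ^ (t + 1) * (g * 3 ^ (L0 + 1)) ^ ((t : ℝ) * slo) *
      (3 : ℝ) ^ (9 * (t : ℝ) * eta * L0) := by
  have h3 : (0 : ℝ) < 3 := by norm_num
  have hl0 : (0 : ℝ) ≤ (l : ℝ) := Nat.cast_nonneg l
  have ht0 : (0 : ℝ) ≤ (t : ℝ) := Nat.cast_nonneg t
  -- 1 ≤ m * 3 ^ (e l)
  have h1 : 1 ≤ m * (3 : ℝ) ^ (e * (l : ℝ)) := by
    have h2 : (0 : ℝ) < (3 : ℝ) ^ (e * (l : ℝ)) := Real.rpow_pos_of_pos h3 _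
    rw [Real.rpow_neg h3.le, inv_lt_iff_one_lt_mul₀ h2] at hle
    exact hle.le
  have h4 : m ≤ m * (m * (3 : ℝ) ^ (e * (l : ℝ))) ^ t := by
    have h5 : (1 : ℝ) ≤ (m * (3 : ℝ) ^ (e * (l : ℝ))) ^ t := one_le_pow₀ h1
    nlinarith
  have h6 : ((3 : ℝ) ^ (e * (l : ℝ))) ^ t ≤
      (g * 3 ^ (L0 + 1)) ^ ((t : ℝ) * slo) * (3 : ℝ) ^ (9 * (t : ℝ) * eta * L0) := by
    have h7 : ((3 : ℝ) ^ (e * (l : ℝ))) ^ t = (3 : ℝ) ^ (e * (l : ℝ) * t) := by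
      rw [Real.rpow_mul h3.le (e * (l : ℝ)) (t : ℝ), Real.rpow_natCast]
    rw [h7]
    have h8 : e * (l : ℝ) * t ≤ (l : ℝ) * ((t : ℝ) * slo) + 9 * (t : ℝ) * eta * L0 := by
      have h9 : e * ((l : ℝ) * t) ≤ (slo + eta) * ((l : ℝ) * t) :=
        mul_le_mul_of_nonneg_right he (mul_nonneg hl0 ht0)
      have h10 : (l : ℝ) ≤ 9 * (L0 : ℝ) := by exact_mod_cast hl9
      have h11 : (l : ℝ) * ((t : ℝ) * eta) ≤ 9 * (L0 : ℝ) * ((t : ℝ) * eta) :=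
        mul_le_mul_of_nonneg_right h10 (mul_nonneg ht0 heta.le)
      nlinarith
    have h12 : (3 : ℝ) ^ ((l : ℝ) * ((t : ℝ) * slo)) ≤ (g * 3 ^ (L0 + 1)) ^ ((t : ℝ) * slo) := by
      rw [Real.rpow_mul h3.le, Real.rpow_natCast]
      refine Real.rpow_le_rpow (by positivity) ?_ (mul_nonneg ht0 hslo.le)
      have h13 : ((3 : ℝ) ^ l) ≤ (n : ℝ) := by exact_mod_cast hl
      have h14 : (a : ℝ) ≤ 3 ^ (L0 + 1) := by exact_mod_cast ha.le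
      calc (3 : ℝ) ^ l ≤ n := h13
        _ ≤ g * a := hn
        _ ≤ g * 3 ^ (L0 + 1) := mul_le_mul_of_nonneg_left h14 hg.le
    calc (3 : ℝ) ^ (e * (l : ℝ) * t) ≤
        (3 : ℝ) ^ ((l : ℝ) * ((t : ℝ) * slo) + 9 * (t : ℝ) * eta * L0) :=
          Real.rpow_le_rpow_of_exponent_le (by norm_num) h8
      _ = (3 : ℝ) ^ ((l : ℝ) * ((t : ℝ) * slo)) * (3 : ℝ) ^ (9 * (t : ℝ) * eta * L0) :=
          Real.rpow_add h3 _ _
      _ ≤ _ := mul_le_mul_of_nonneg_right h12 (Real.rpow_nonneg h3.le _)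
  calc m ≤ m * (m * (3 : ℝ) ^ (e * (l : ℝ))) ^ t := h4
    _ = m ^ (t + 1) * ((3 : ℝ) ^ (e * (l : ℝ))) ^ t := by
        rw [mul_pow, pow_succ]
        ring
    _ ≤ m ^ (t + 1) * ((g * 3 ^ (L0 + 1)) ^ ((t : ℝ) * slo) *
        (3 : ℝ) ^ (9 * (t : ℝ) * eta * L0)) :=
        mul_le_mul_of_nonneg_left h6 (pow_nonneg hm _)
    _ = _ := (mul_assoc _ _ _).symm

open Classical in
theorem k1i (hc : Cert N t slo shi llo lhi p) {S : Finset ℕ} {s : ℕ} (hb : Base S s) {mu : ℝ}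
    (hmu : 0 < mu) {y : ℕ} (hy : 3 ≤ y) {eta : ℝ} (heta : 0 < eta) {E : ℕ → ℝ} {L0 : ℕ}
    (hE : Thr slo shi eta 73 L0 E) (hL : ∀ a ∈ S, Nat.log 3 a ≤ L0) (Q : ℕ → List ℕ → Prop) (D : ℕ) :
    ∑ x ∈ (exs p mu y E Q S D).filter
      (fun x => Big p mu y E x.1 x.2 ∧ ¬ Bal x.1 x.2), mu * pr p x.1 x.2 ≤
      KI p t slo eta mu L0 := by
  set F := (exs p mu y E Q S D).filter (fun x => Big p mu y E x.1 x.2 ∧ ¬ Bal x.1 x.2) with hF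
  set G : ℕ × List ℕ → ℝ := fun x => (mu * pr p x.1 x.2) ^ (t + 1) *
    (pr gro x.1 x.2 * 3 ^ (L0 + 1)) ^ ((t : ℝ) * slo) * (3 : ℝ) ^ (9 * (t : ℝ) * eta * L0) with hG
  have hmem : ∀ x ∈ F, (x.1 ∈ S ∧ Vd x.1 x.2) ∧ Big p mu y E x.1 x.2 ∧
      x.2.length < Nat.log 3 x.1 := by
    intro x hx
    rw [hF, mem_filter, exs, mem_filter, mem_product] at hx
    refine ⟨⟨hx.1.1.1, hx.1.2.1⟩, hx.2.1, ?_⟩
    by_contra h
    refine hx.2.2 ⟨x.2.length, le_rfl, ?_⟩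
    rw [Nat.sub_self, List.take_zero]
    exact not_lt.1 h
  have hG0 : ∀ x, 0 ≤ G x := by
    intro x
    rw [hG]
    have h1 := pr_nn hc.wt.nn x.1 x.2
    have h2 := pr_gro_pos x.1 x.2
    positivity
  have h1 : ∑ x ∈ F, mu * pr p x.1 x.2 ≤ ∑ x ∈ F, G x := by
    refine sum_le_sum fun x hx => ?_
    obtain ⟨⟨hS, hV⟩, hB, hlen⟩ := hmem x hx
    have hLa := hL _ hS
    have hmod := hb.mod _ hS
    have hlog := nd_log hmod hV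
    have hn0 : nd x.1 x.2 ≠ 0 := by
      have := nd_pos hmod hV
      omega
    exact K1i_term hc.slo0 heta t (mul_nonneg hmu.le (pr_nn hc.wt.nn _ _))
      (Nat.pow_log_le_self 3 hn0) hB.2 (hE.low _ (by omega)) (by omega) (nd_le _ _)
      (pr_gro_pos _ _)
      (lt_of_lt_of_le (Nat.lt_pow_succ_log_self (by norm_num) _)
        (Nat.pow_le_pow_right (by norm_num) (by omega)))
  have h2 : F ⊆ ((range (3 ^ (L0 + 1))).filter (fun a => a % 3 = 2)) ×ˢ wds L0 := by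
    intro x hx
    obtain ⟨⟨hS, hV⟩, hB, hlen⟩ := hmem x hx
    have hLa := hL _ hS
    rw [mem_product, mem_filter, mem_range, mem_wds]
    exact ⟨⟨lt_of_lt_of_le (Nat.lt_pow_succ_log_self (by norm_num) _)
      (Nat.pow_le_pow_right (by norm_num) (by omega)), hb.mod _ hS⟩, by omega, Vd_lt hV⟩
  have h3 : KI p t slo eta mu L0 =
      ∑ x ∈ ((range (3 ^ (L0 + 1))).filter (fun a => a % 3 = 2)) ×ˢ wds L0, G x := by
    rw [KI, sum_product]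
    refine sum_congr rfl fun a _ => ?_
    rw [sum_wds]
  rw [h3]
  exact h1.trans (sum_le_sum_of_subset_of_nonneg h2 fun x _ _ => hG0 x)

end Pool.Agent.helper82.K3X
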