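import Pool.Agent.helper82.K3X.Wd

/-!
# K3X-K23: small nodes and nodes with very small mass
-/

namespace Pool.Agent.helper82.K3X

open Finset

variable {N t : ℕ} {slo shi llo lhi : ℝ} {p : ℕ → ℕ → ℝ}

theorem K23_le_one (hc : Cert N t slo shi llo lhi p) (a : ℕ) (v : List ℕ) : pr p a v ≤ 1 := by
  obtain ⟨d, hd0, _, hd⟩ := hc.le
  induction v generalizing a with
  | nil => exact le_refl _
  | cons i v ih =>
    change p i a * pr p (nxt i a) v ≤ 1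
    exact mul_le_one₀ ((hd i a).trans (by linarith)) (pr_nn hc.wt.nn _ _) (ih _)

open Classical in
theorem K23_inj {S : Finset ℕ} {s : ℕ} (hb : Base S s) {mu : ℝ} {y : ℕ} {E : ℕ → ℝ} {Q : ℕ → List ℕ → Prop} {D : ℕ}
    {x x' : ℕ × List ℕ} (hx : x ∈ exs p mu y E Q S D) (hx' : x' ∈ exs p mu y E Q S D)
    (h : nd x.1 x.2 = nd x'.1 x'.2) : x = x' := by
  rw [exs, mem_filter, mem_product] at hx hx'
  obtain ⟨h1, h2⟩ := hb.inj x.1 hx.1.1 x'.1 hx'.1.1 x.2 x'.2 hx.2.1 hx'.2.1 h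
  exact Prod.ext h1 h2

open Classical in
theorem k2 (hc : Cert N t slo shi llo lhi p) {S : Finset ℕ} {s : ℕ} (hb : Base S s) {mu : ℝ}
    (hmu : 0 < mu) (y : ℕ) (E : ℕ → ℝ) (Q : ℕ → List ℕ → Prop) (D : ℕ) :
    ∑ x ∈ (exs p mu y E Q S D).filter (fun x => nd x.1 x.2 < y), mu * pr p x.1 x.2 ≤ mu * y := by
  set F := (exs p mu y E Q S D).filter (fun x => nd x.1 x.2 < y) with hF
  have h1 : ∑ x ∈ F, mu * pr p x.1 x.2 ≤ ∑ x ∈ F, mu := by
    refine sum_le_sum fun x _ => ?_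
    have := K23_le_one hc x.1 x.2
    nlinarith
  have h2 : F.card ≤ y := by
    rw [← card_range y]
    refine card_le_card_of_injOn (fun x => nd x.1 x.2) (fun x hx => ?_) fun x hx x' hx' h => ?_
    · exact mem_coe.2 (mem_range.2 (mem_filter.1 (mem_coe.1 hx)).2)
    · exact K23_inj hb (mem_filter.1 (mem_coe.1 hx)).1 (mem_filter.1 (mem_coe.1 hx')).1 h
  rw [sum_const, nsmul_eq_mul] at h1
  have h3 : (F.card : ℝ) ≤ y := by exact_mod_cast h2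
  nlinarith

open Classical in
theorem k3 (hc : Cert N t slo shi llo lhi p) {S : Finset ℕ} {s : ℕ} (hb : Base S s) {mu : ℝ}
    (hmu : 0 < mu) {y : ℕ} (hy : 1 ≤ y) (E : ℕ → ℝ) (Q : ℕ → List ℕ → Prop) (D : ℕ) :
    ∑ x ∈ (exs p mu y E Q S D).filter
      (fun x => y ≤ nd x.1 x.2 ∧ mu * pr p x.1 x.2 < 1 / (nd x.1 x.2 : ℝ) ^ 2),
      mu * pr p x.1 x.2 ≤ 2 / y := by
  set F := (exs p mu y E Q S D).filter
      (fun x => y ≤ nd x.1 x.2 ∧ mu * pr p x.1 x.2 < 1 / (nd x.1 x.2 : ℝ) ^ 2) with hF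
  have h1 : ∑ x ∈ F, mu * pr p x.1 x.2 ≤ ∑ x ∈ F, ((nd x.1 x.2 : ℝ) ^ 2)⁻¹ := by
    refine sum_le_sum fun x hx => ?_
    have := (mem_filter.1 hx).2.2.le
    rwa [one_div] at this
  have h2 : ∑ x ∈ F, ((nd x.1 x.2 : ℝ) ^ 2)⁻¹
      = ∑ n ∈ F.image (fun x => nd x.1 x.2), ((n : ℝ) ^ 2)⁻¹ := by
    rw [sum_image]
    intro x hx x' hx' h
    exact K23_inj hb (mem_filter.1 (mem_coe.1 hx)).1 (mem_filter.1 (mem_coe.1 hx')).1 h
  set M := (F.image (fun x => nd x.1 x.2)).sup id + 1 with hM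
  have h3 : F.image (fun x => nd x.1 x.2) ⊆ Ioo (y - 1) M := by
    intro n hn
    rw [mem_Ioo]
    have h4 : n ≤ (F.image (fun x => nd x.1 x.2)).sup id := le_sup (f := id) hn
    obtain ⟨x, hx, rfl⟩ := mem_image.1 hn
    have h5 := (mem_filter.1 hx).2.1
    omega
  have h4 : ∑ n ∈ F.image (fun x => nd x.1 x.2), ((n : ℝ) ^ 2)⁻¹ ≤
      ∑ n ∈ Ioo (y - 1) M, ((n : ℝ) ^ 2)⁻¹ :=
    sum_le_sum_of_subset_of_nonneg h3 fun n _ _ => by positivity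
  have h5 := sum_Ioo_inv_sq_le (α := ℝ) (y - 1) M
  have h6 : ((y - 1 : ℕ) : ℝ) + 1 = y := by
    have : ((y - 1 + 1 : ℕ) : ℝ) = y := by rw [Nat.sub_add_cancel hy]
    exact_mod_cast this
  rw [h6] at h5
  rw [← h2] at h4
  exact h1.trans (h4.trans h5)

end Pool.Agent.helper82.K3X
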