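import Pool.Agent.helper82.K3X.KIl
import Pool.Agent.helper82.K3X.K1b
import Pool.Agent.helper82.K3X.K1i
import Pool.Agent.helper82.K3X.K23
import Pool.Agent.helper82.K3X.Eh
import Pool.Agent.helper82.K3X.Bs

/-!
# K3X-AsA: the total mass of the bad exits is at most one half
-/

namespace Pool.Agent.helper82.K3X

open Finset

variable {N t : ℕ} {slo shi llo lhi : ℝ} {p : ℕ → ℕ → ℝ}

open Filter in
theorem AsA_div_tendsto : Tendsto (fun s : ℕ => s / 2) atTop atTop := by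
  refine tendsto_atTop.2 fun b => ?_
  filter_upwards [eventually_ge_atTop (2 * b)] with s hs
  omega

theorem AsA_log (m : ℕ) : m / 2 ≤ Nat.log 3 (2 ^ m) := by
  refine Nat.le_log_of_pow_le (by norm_num) ?_
  calc 3 ^ (m / 2) ≤ 4 ^ (m / 2) := Nat.pow_le_pow_left (by norm_num) _
    _ = 2 ^ (2 * (m / 2)) := by rw [pow_mul]; norm_num
    _ ≤ 2 ^ m := Nat.pow_le_pow_right (by norm_num) (by omega)

theorem AsA_ite {P Q R S T : Prop} [Decidable P] [Decidable Q] [Decidable R] [Decidable S]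
    [Decidable T] (h : P → Q ∨ R ∨ S ∨ T) {m : ℝ} (hm : 0 ≤ m) :
    (if P then m else 0) ≤ (if Q then m else 0) + (if R then m else 0) + (if S then m else 0) +
      (if T then m else 0) := by
  by_cases hP : P
  · have h' := h hP
    split_ifs <;> first | linarith | (exfalso; tauto)
  · rw [if_neg hP]
    split_ifs <;> linarith

open Classical in
theorem AsA_split (hp : ∀ i a, 0 ≤ p i a) {mu : ℝ} (hmu : 0 < mu) (y : ℕ) (E : ℕ → ℝ)
    (T : Finset (ℕ × List ℕ)) :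
    ∑ x ∈ T.filter (fun x => Bad p mu y E x.1 x.2), mu * pr p x.1 x.2 ≤
      ∑ x ∈ T.filter (fun x => nd x.1 x.2 < y), mu * pr p x.1 x.2 +
      ∑ x ∈ T.filter (fun x => y ≤ nd x.1 x.2 ∧ mu * pr p x.1 x.2 < 1 / (nd x.1 x.2 : ℝ) ^ 2),
        mu * pr p x.1 x.2 +
      ∑ x ∈ T.filter (fun x => Big p mu y E x.1 x.2 ∧ Bal x.1 x.2), mu * pr p x.1 x.2 +
      ∑ x ∈ T.filter (fun x => Big p mu y E x.1 x.2 ∧ ¬ Bal x.1 x.2), mu * pr p x.1 x.2 := by
  simp only [Finset.sum_filter]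
  rw [← Finset.sum_add_distrib, ← Finset.sum_add_distrib, ← Finset.sum_add_distrib]
  refine Finset.sum_le_sum fun x _ => ?_
  refine AsA_ite ?_ (mul_nonneg hmu.le (pr_nn hp _ _))
  intro hB
  by_cases hy : nd x.1 x.2 < y
  · exact Or.inl hy
  · have hy' : y ≤ nd x.1 x.2 := not_lt.1 hy
    rcases hB with h | h | h
    · exact absurd h hy
    · by_cases hb : Bal x.1 x.2
      · exact Or.inr (Or.inr (Or.inl ⟨⟨hy', h⟩, hb⟩))
      · exact Or.inr (Or.inr (Or.inr ⟨⟨hy', h⟩, hb⟩))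
    · exact Or.inr (Or.inl ⟨hy', h⟩)

open Classical in
theorem bad_half (hc : Cert N t slo shi llo lhi p) (Y0 : ℕ) :
    ∃ (s : ℕ) (S : Finset ℕ) (y : ℕ) (E : ℕ → ℝ), Base S s ∧ 3 ≤ y ∧ Y0 ≤ y ∧
      (∃ i1, ∀ i, i1 ≤ i → E i = shi) ∧ ∀ (Q : ℕ → List ℕ → Prop) (D : ℕ),
        ∑ x ∈ (exs p ((1 / 2) ^ s) y E Q S D).filter (fun x => Bad p ((1 / 2) ^ s) y E x.1 x.2),
          (1 / 2) ^ s * pr p x.1 x.2 ≤ 1 / 2 := by
  have hsl := slack_pos hc
  set sl := slack slo shi llo lhi with hsldef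
  obtain ⟨K, hK, hKB⟩ := KB_bound hc
  obtain ⟨eta0, heta0, hKI⟩ := KI_lim hc
  have ht1 : (0 : ℝ) < (t : ℝ) + 1 := by positivity
  set eta : ℝ := min eta0 (sl / (2 * ((t : ℝ) + 1))) with hetadef
  have heta : 0 < eta := lt_min heta0 (by positivity)
  have heta1 : ((t : ℝ) + 1) * eta ≤ sl / 2 := by
    have h1 : eta ≤ sl / (2 * ((t : ℝ) + 1)) := min_le_right _ _
    calc ((t : ℝ) + 1) * eta ≤ ((t : ℝ) + 1) * (sl / (2 * ((t : ℝ) + 1))) :=
          mul_le_mul_of_nonneg_left h1 ht1.le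
      _ = sl / 2 := by field_simp
  set rho : ℝ := (3 : ℝ) ^ (-(sl / 2)) with hrho
  have hrho0 : 0 < rho := Real.rpow_pos_of_pos (by norm_num) _
  have hrho1 : rho < 1 := by
    rw [hrho]
    exact Real.rpow_lt_one_of_one_lt_of_neg (by norm_num) (by linarith)
  have hblock : ∀ (L0 : ℕ) (E : ℕ → ℝ), Thr slo shi eta 73 L0 E → ∀ i : ℕ,
      KB p t (E i) (min shi (E i + eta)) i ≤ K * rho ^ i := by
    intro L0 E hE i
    refine (hKB eta (E i) (min shi (E i + eta)) i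
      (le_min hc.slohi.le (by linarith [hE.lo i])) (min_le_left _ _) (min_le_right _ _)).trans ?_
    refine mul_le_mul_of_nonneg_left ?_ hK.le
    rw [hrho, ← Real.rpow_natCast, ← Real.rpow_mul (by norm_num)]
    refine Real.rpow_le_rpow_of_exponent_le (by norm_num) ?_
    have hi : (0 : ℝ) ≤ (i : ℝ) := Nat.cast_nonneg i
    nlinarith [mul_le_mul_of_nonneg_right heta1 hi]
  -- the choice of s
  have hl1 : Filter.Tendsto (fun s : ℕ => (1 / 2 : ℝ) ^ (s / 2)) Filter.atTop (nhds 0) :=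
    (tendsto_pow_atTop_nhds_zero_of_lt_one (by norm_num) (by norm_num)).comp AsA_div_tendsto
  have hl2 : Filter.Tendsto (fun s : ℕ => K * (rho ^ (s / 2 / 2) / (1 - rho)))
      Filter.atTop (nhds 0) := by
    have h1 : Filter.Tendsto (fun s : ℕ => rho ^ (s / 2 / 2)) Filter.atTop (nhds 0) :=
      (tendsto_pow_atTop_nhds_zero_of_lt_one hrho0.le hrho1).comp
        (AsA_div_tendsto.comp AsA_div_tendsto)
    have h2 := (h1.div_const (1 - rho)).const_mul K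
    simpa using h2
  have hl3 := hKI eta heta (min_le_left _ _)
  have e1 := hl1.eventually (gt_mem_nhds (show (0 : ℝ) < 1 / 16 by norm_num))
  have e2 := hl2.eventually (gt_mem_nhds (show (0 : ℝ) < 1 / 8 by norm_num))
  have e3 := hl3.eventually (gt_mem_nhds (show (0 : ℝ) < 1 / 8 by norm_num))
  obtain ⟨s, ⟨⟨hs1, hs2⟩, hs3⟩, hs4⟩ :=
    (((e1.and e2).and e3).and (Filter.eventually_ge_atTop (4 + 2 * Y0))).exists
  obtain ⟨S, hS⟩ := exists_base s
  obtain ⟨E, hE⟩ := exists_thr hc.slohi heta 73 (by norm_num) (LL s) (LL_pos s)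
  have hy3 : 3 ≤ 2 ^ (s / 2) := by
    calc 3 ≤ 2 ^ 2 := by norm_num
      _ ≤ 2 ^ (s / 2) := Nat.pow_le_pow_right (by norm_num) (by omega)
  have hmu : (0 : ℝ) < (1 / 2) ^ s := by positivity
  have hyY : Y0 ≤ 2 ^ (s / 2) :=
    (Nat.lt_two_pow_self).le.trans (Nat.pow_le_pow_right (by norm_num) (by omega))
  refine ⟨s, S, 2 ^ (s / 2), E, hS, hy3, hyY, hE.top, fun Q D => ?_⟩
  refine (AsA_split hc.wt.nn hmu (2 ^ (s / 2)) E _).trans ?_
  have b1 := k2 hc hS hmu (2 ^ (s / 2)) E Q D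
  have b2 := k3 hc hS hmu (le_trans (by norm_num) hy3) E Q D
  obtain ⟨n, b3⟩ := k1b hc hS hmu hy3 heta hE Q D
  have b4 := k1i hc hS hmu hy3 heta hE (LL_ge hS) Q D
  have c1 : (1 / 2 : ℝ) ^ s * ((2 ^ (s / 2) : ℕ) : ℝ) ≤ (1 / 2) ^ (s / 2) := by
    have h1 : (1 / 2 : ℝ) ^ s ≤ (1 / 2) ^ (s / 2 + s / 2) :=
      pow_le_pow_of_le_one (by norm_num) (by norm_num) (by omega)
    have h2 : (1 / 2 : ℝ) ^ (s / 2) * ((2 ^ (s / 2) : ℕ) : ℝ) = 1 := by
      push_cast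
      rw [← mul_pow]
      norm_num
    calc (1 / 2 : ℝ) ^ s * ((2 ^ (s / 2) : ℕ) : ℝ)
        ≤ (1 / 2) ^ (s / 2 + s / 2) * ((2 ^ (s / 2) : ℕ) : ℝ) :=
          mul_le_mul_of_nonneg_right h1 (Nat.cast_nonneg _)
      _ = (1 / 2) ^ (s / 2) := by rw [pow_add, mul_assoc, h2, mul_one]
  have c2 : (2 : ℝ) / ((2 ^ (s / 2) : ℕ) : ℝ) = 2 * (1 / 2) ^ (s / 2) := by
    push_cast
    rw [one_div, inv_pow]
    rfl
  have c3 : ∑ i ∈ Ico (Nat.log 3 (2 ^ (s / 2))) n, KB p t (E i) (min shi (E i + eta)) i ≤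
      K * (rho ^ (s / 2 / 2) / (1 - rho)) := by
    calc ∑ i ∈ Ico (Nat.log 3 (2 ^ (s / 2))) n, KB p t (E i) (min shi (E i + eta)) i
        ≤ ∑ i ∈ Ico (Nat.log 3 (2 ^ (s / 2))) n, K * rho ^ i :=
          Finset.sum_le_sum fun i _ => hblock (LL s) E hE i
      _ = K * ∑ i ∈ Ico (Nat.log 3 (2 ^ (s / 2))) n, rho ^ i := by rw [Finset.mul_sum]
      _ ≤ K * (rho ^ (Nat.log 3 (2 ^ (s / 2))) / (1 - rho)) :=
          mul_le_mul_of_nonneg_left (geom_sum_Ico_le_of_lt_one hrho0.le hrho1) hK.le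
      _ ≤ K * (rho ^ (s / 2 / 2) / (1 - rho)) := by
          refine mul_le_mul_of_nonneg_left ?_ hK.le
          refine div_le_div_of_nonneg_right ?_ (by linarith)
          exact pow_le_pow_of_le_one hrho0.le hrho1.le (AsA_log _)
  rw [c2] at b2
  linarith

end Pool.Agent.helper82.K3X
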