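import Pool.Agent.helper82.K3X.Wd

/-!
# K3X-Flow: conservation of mass
-/

namespace Pool.Agent.helper82.K3X

open Finset

/-- No prefix of length at most `k` satisfies `E`. -/
def Flow_Al (E : List ℕ → Prop) (k : ℕ) (v : List ℕ) : Prop := ∀ j ≤ k, ¬ E (v.take j)

theorem Flow_snoc {E : List ℕ → Prop} {k : ℕ} {v : List ℕ} (hv : v.length = k) (i : ℕ) :
    Flow_Al E k v ↔ (Flow_Al E (k + 1) (v ++ [i]) ∨ IsEx E (v ++ [i])) := by
  have ht : ∀ j ≤ k, (v ++ [i]).take j = v.take j := by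
    intro j hj
    exact List.take_append_of_le_length (by omega)
  have hl : (v ++ [i]).length = k + 1 := by simp [hv]
  have hw : (v ++ [i]).take (k + 1) = v ++ [i] := by
    rw [← hl]; exact List.take_length
  constructor
  · intro h
    by_cases hE : E (v ++ [i])
    · right
      refine ⟨hE, ?_⟩
      intro j hj
      rw [hl] at hj
      rw [ht j (by omega)]
      exact h j (by omega)
    · left
      intro j hj
      rcases Nat.lt_or_ge j (k + 1) with h1 | h1
      · rw [ht j (by omega)]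
        exact h j (by omega)
      · have : j = k + 1 := by omega
        rw [this, hw]
        exact hE
  · intro h j hj
    rw [← ht j hj]
    rcases h with h | h
    · exact h j (by omega)
    · exact h.2 j (by rw [hl]; omega)

theorem Flow_disj {E : List ℕ → Prop} {k : ℕ} {v : List ℕ} (hv : v.length = k)
    (h : Flow_Al E k v) : ¬ IsEx E v := by
  intro h2
  have := h k (le_refl k)
  rw [← hv, List.take_length] at this
  exact this h2.1

open Classical in
theorem Flow_step {N : ℕ} {p : ℕ → ℕ → ℝ} (hw : Wt N p)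
    (hs : ∀ a, a % 3 = 2 → ∑ i ∈ range 7, p i a = 1) (E : List ℕ → Prop) (a : ℕ) (ha : a % 3 = 2)
    (k : ℕ) :
    (∑ v ∈ wd k, if Flow_Al E k v then pr p a v else 0) =
      (∑ v ∈ wd (k + 1), if Flow_Al E (k + 1) v then pr p a v else 0) +
        ∑ v ∈ wd (k + 1), if IsEx E v then pr p a v else 0 := by
  rw [sum_wd_snoc, sum_wd_snoc, ← sum_add_distrib]
  refine sum_congr rfl (fun v hv => ?_)
  rw [← sum_add_distrib]
  obtain ⟨hl, hlt⟩ := mem_wd.1 hv
  have h1 : ∀ i ∈ range 7, ((if Flow_Al E (k + 1) (v ++ [i]) then pr p a (v ++ [i]) else 0) +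
      if IsEx E (v ++ [i]) then pr p a (v ++ [i]) else 0) =
      (if Flow_Al E k v then pr p a v else 0) * p i (nd a v) := by
    intro i _
    have hpr : pr p a (v ++ [i]) = pr p a v * p i (nd a v) := by
      rw [pr_append]; simp [pr]
    have hiff := Flow_snoc (E := E) hl i
    by_cases hA : Flow_Al E k v
    · rw [if_pos hA]
      rcases hiff.1 hA with h2 | h2
      · have h3 : ¬ IsEx E (v ++ [i]) := Flow_disj (by simp [hl]) h2
        rw [if_pos h2, if_neg h3, hpr, add_zero]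
      · have h3 : ¬ Flow_Al E (k + 1) (v ++ [i]) := fun h4 =>
          Flow_disj (by simp [hl]) h4 h2
        rw [if_neg h3, if_pos h2, hpr, zero_add]
    · rw [if_neg hA]
      have h2 : ¬ Flow_Al E (k + 1) (v ++ [i]) := fun h => hA (hiff.2 (Or.inl h))
      have h3 : ¬ IsEx E (v ++ [i]) := fun h => hA (hiff.2 (Or.inr h))
      rw [if_neg h2, if_neg h3]; ring
  rw [sum_congr rfl h1, ← mul_sum]
  by_cases hV : Vd a v
  · rw [hs _ (nd_mod ha hV), mul_one]
  · have h0 : pr p a v = 0 := pr_inv hw.inv hlt hV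
    rw [h0]; simp

open Classical in
theorem Flow_sum {N : ℕ} {p : ℕ → ℕ → ℝ} (hw : Wt N p)
    (hs : ∀ a, a % 3 = 2 → ∑ i ∈ range 7, p i a = 1) (E : List ℕ → Prop) (a : ℕ) (ha : a % 3 = 2)
    (k : ℕ) :
    (∑ v ∈ wd k, if Flow_Al E k v then pr p a v else 0) +
      ∑ j ∈ range (k + 1), ∑ v ∈ wd j, (if IsEx E v then pr p a v else 0) = 1 := by
  induction k with
  | zero =>
    rw [sum_range_one]
    have h0 : wd 0 = {[]} := rfl
    rw [h0, sum_singleton, sum_singleton]
    by_cases hE : E []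
    · have h1 : ¬ Flow_Al E 0 [] := fun h => h 0 (le_refl 0) (by simpa using hE)
      have h2 : IsEx E [] := ⟨hE, by intro j hj; simp at hj⟩
      rw [if_neg h1, if_pos h2]
      simp [pr]
    · have h1 : Flow_Al E 0 [] := by
        intro j _
        simpa using hE
      have h2 : ¬ IsEx E [] := fun h => hE h.1
      rw [if_pos h1, if_neg h2]
      simp [pr]
  | succ k ih =>
    rw [sum_range_succ, ← ih, Flow_step hw hs E a ha k]
    ring

open Classical in
theorem flow {N : ℕ} {p : ℕ → ℕ → ℝ} (hw : Wt N p)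
    (hs : ∀ a, a % 3 = 2 → ∑ i ∈ range 7, p i a = 1) (E : List ℕ → Prop) (a : ℕ) (ha : a % 3 = 2)
    (D : ℕ) (hD : ∀ v ∈ wd D, pr p a v ≠ 0 → ∃ j ≤ D, E (v.take j)) :
    ∑ v ∈ (wds D).filter (fun v => Vd a v ∧ IsEx E v), pr p a v = 1 := by
  have h1 : ∑ v ∈ (wds D).filter (fun v => Vd a v ∧ IsEx E v), pr p a v =
      ∑ v ∈ wds D, (if IsEx E v then pr p a v else 0) := by
    rw [sum_filter]
    refine sum_congr rfl (fun v hv => ?_)
    by_cases hV : Vd a v
    · by_cases hE : IsEx E v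
      · rw [if_pos ⟨hV, hE⟩, if_pos hE]
      · rw [if_neg (fun h => hE h.2), if_neg hE]
    · have h0 : pr p a v = 0 := pr_inv hw.inv (mem_wds.1 hv).2 hV
      rw [h0]; simp
  have h2 : (∑ v ∈ wd D, if Flow_Al E D v then pr p a v else 0) = 0 := by
    refine sum_eq_zero (fun v hv => ?_)
    by_cases h0 : pr p a v = 0
    · rw [h0]; simp
    · obtain ⟨j, hj, hE⟩ := hD v hv h0
      exact if_neg (fun h => h j hj hE)
  rw [h1, sum_wds]
  have h3 := Flow_sum hw hs E a ha D
  rw [h2, zero_add] at h3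
  exact h3

theorem exs_sum {N t : ℕ} {slo shi llo lhi : ℝ} {p : ℕ → ℕ → ℝ} (hc : Cert N t slo shi llo lhi p)
    {S : Finset ℕ} {s : ℕ} (hb : Base S s) (y : ℕ) (E : ℕ → ℝ) (Q : ℕ → List ℕ → Prop) (D : ℕ)
    (hD : ∀ a ∈ S, ∀ v ∈ wd D, pr p a v ≠ 0 →
      ∃ j ≤ D, Ext p ((1 / 2) ^ s) y E Q a (v.take j)) :
    ∑ x ∈ exs p ((1 / 2) ^ s) y E Q S D, (1 / 2) ^ s * pr p x.1 x.2 = 1 := by
  classical
  rw [exs, sum_filter, sum_product]
  have h1 : ∀ a ∈ S, (∑ v ∈ wds D, if Vd a v ∧ IsEx (Ext p ((1 / 2) ^ s) y E Q a) v then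
      ((1 : ℝ) / 2) ^ s * pr p a v else 0) = (1 / 2) ^ s := by
    intro a ha
    have h2 := flow hc.wt hc.sum (Ext p ((1 / 2) ^ s) y E Q a) a (hb.mod a ha) D (hD a ha)
    rw [sum_filter] at h2
    calc (∑ v ∈ wds D, if Vd a v ∧ IsEx (Ext p ((1 / 2) ^ s) y E Q a) v then
          ((1 : ℝ) / 2) ^ s * pr p a v else 0)
        = ∑ v ∈ wds D, ((1 : ℝ) / 2) ^ s * (if Vd a v ∧ IsEx (Ext p ((1 / 2) ^ s) y E Q a) v then
          pr p a v else 0) := by
            refine sum_congr rfl (fun v _ => ?_)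
            split_ifs <;> simp
      _ = (1 / 2) ^ s := by rw [← mul_sum, h2, mul_one]
  rw [sum_congr rfl h1, sum_const, hb.card, nsmul_eq_mul]
  push_cast
  rw [← mul_pow]
  norm_num

end Pool.Agent.helper82.K3X
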