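import Pool.Agent.helper82.K3X.AsA
import Pool.Agent.helper82.K3X.Flow

/-!
# K3X-AsB: the count
-/

namespace Pool.Agent.helper82.K3X

open Finset Filter Pool.Agent.helper41.Coll

variable {N t : ℕ} {slo shi llo lhi : ℝ} {p : ℕ → ℕ → ℝ}

/-- At depth `D` every word of positive mass has an exit. -/
theorem AsB_depth (hc : Cert N t slo shi llo lhi p) {S : Finset ℕ} {s : ℕ} (hb : Base S s) (y : ℕ)
    (E : ℕ → ℝ) (X : ℕ) {d : ℝ} (hd : ∀ i a, p i a ≤ 1 - d) (D : ℕ)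
    (hD : (1 - d) ^ D < 1 / (X : ℝ) ^ 2) :
    ∀ a ∈ S, ∀ v ∈ wd D, pr p a v ≠ 0 →
      ∃ j ≤ D, Ext p ((1 / 2) ^ s) y E (fun a v => X ≤ nd a v) a (v.take j) := by
  intro a ha v hv hpr
  obtain ⟨hlen, hlt⟩ := mem_wd.1 hv
  have hVd : Vd a v := by
    by_contra h
    exact hpr (pr_inv hc.wt.inv hlt h)
  have hn : 1 ≤ nd a v := nd_pos (hb.mod a ha) hVd
  refine ⟨D, le_rfl, ?_⟩
  rw [List.take_of_length_le (by omega)]
  by_cases hXn : X ≤ nd a v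
  · exact Or.inr hXn
  · refine Or.inl (Or.inr (Or.inr ?_))
    have h1 : pr p a v ≤ (1 - d) ^ v.length := pr_le_pow hc.wt.nn hd a v
    rw [hlen] at h1
    have h2 : (0 : ℝ) ≤ pr p a v := pr_nn hc.wt.nn a v
    have h3 : ((1 / 2 : ℝ)) ^ s ≤ 1 := pow_le_one₀ (by norm_num) (by norm_num)
    have h4 : (1 / 2 : ℝ) ^ s * pr p a v ≤ pr p a v := by
      calc (1 / 2 : ℝ) ^ s * pr p a v ≤ 1 * pr p a v := mul_le_mul_of_nonneg_right h3 h2
        _ = pr p a v := one_mul _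
    have hn' : (0 : ℝ) < (nd a v : ℝ) := by exact_mod_cast hn
    have hnX : (nd a v : ℝ) ≤ (X : ℝ) := by
      have : nd a v ≤ X := by omega
      exact_mod_cast this
    have h5 : (1 : ℝ) / (X : ℝ) ^ 2 ≤ 1 / (nd a v : ℝ) ^ 2 := by
      apply one_div_le_one_div_of_le
      · positivity
      · exact pow_le_pow_left₀ hn'.le hnX 2
    linarith

/-- The facts on a good exit. -/
theorem AsB_good (hc : Cert N t slo shi llo lhi p) {S : Finset ℕ} {s : ℕ} (hb : Base S s) {y : ℕ}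
    {E : ℕ → ℝ} {i1 : ℕ} (hE : ∀ i, i1 ≤ i → E i = shi) {X : ℕ} (hX3 : 3 ≤ X) (hXi : 3 ^ i1 ≤ X)
    (hXs : 5 * (64 / 3 : ℝ) ^ s < X) {D a : ℕ} {v : List ℕ}
    (hx : (a, v) ∈ exs p ((1 / 2) ^ s) y E (fun a v => X ≤ nd a v) S D) (hbd : ¬ Bad p ((1 / 2) ^ s) y E a v) :
    a ∈ S ∧ Vd a v ∧ X ≤ nd a v ∧ nd a v < 6561 * X ∧
      (1 / 2 : ℝ) ^ s * pr p a v ≤ ((X : ℝ) / 3) ^ (-shi) ∧
      1 / (nd a v : ℝ) ^ 2 ≤ (1 / 2 : ℝ) ^ s * pr p a v := by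
  classical
  rw [exs, mem_filter, mem_product] at hx
  obtain ⟨⟨ha, hv⟩, hVd, hE1, hE2⟩ := hx
  have ha' : a ∈ S := ha
  have hVd' : Vd a v := hVd
  have hXn : X ≤ nd a v := by
    rcases hE1 with h | h
    · exact absurd h hbd
    · exact h
  have hlt : ∀ i ∈ v, i < 7 := Vd_lt hVd'
  have hup : nd a v < 6561 * X := by
    rcases List.eq_nil_or_concat v with h | ⟨u, i, h⟩
    · exfalso
      subst h
      have h1 : (a : ℝ) ≤ 5 * (64 / 3) ^ s := hb.le a ha'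
      have h2 : X ≤ a := hXn
      have h3 : (X : ℝ) ≤ (a : ℝ) := by exact_mod_cast h2
      linarith
    · rw [List.concat_eq_append] at h
      subst h
      have h1 : ¬ Ext p ((1 / 2) ^ s) y E (fun a v => X ≤ nd a v) a ((u ++ [i]).take u.length) :=
        hE2 u.length (by simp)
      rw [List.take_left] at h1
      have h2 : nd a u < X := by
        by_contra hcon
        exact h1 (Or.inr (not_lt.1 hcon))
      have h3 : nd a (u ++ [i]) = nxt i (nd a u) := by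
        rw [nd_append]
        rfl
      have hi : i < 7 := hlt i (by simp)
      have h4 : (nxt i (nd a u) : ℝ) ≤ gro i (nd a u) * (nd a u : ℝ) := nxt_le i (nd a u)
      have h5 : gro i (nd a u) ≤ 6561 := gro_le hi (nd a u)
      have h6 : (nd a u : ℝ) < (X : ℝ) := by exact_mod_cast h2
      have h7 : (0 : ℝ) ≤ (nd a u : ℝ) := Nat.cast_nonneg _
      have h8 : (nxt i (nd a u) : ℝ) < 6561 * (X : ℝ) := by
        calc (nxt i (nd a u) : ℝ) ≤ gro i (nd a u) * (nd a u : ℝ) := h4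
          _ ≤ 6561 * (nd a u : ℝ) := mul_le_mul_of_nonneg_right h5 h7
          _ < 6561 * (X : ℝ) := by linarith
      rw [h3]
      exact_mod_cast h8
  have hB2 : ¬ ((3 : ℝ) ^ (-(E (Nat.log 3 (nd a v)) * (Nat.log 3 (nd a v) : ℝ))) <
      (1 / 2) ^ s * pr p a v) := fun h => hbd (Or.inr (Or.inl h))
  have hB3 : ¬ ((1 / 2) ^ s * pr p a v < 1 / (nd a v : ℝ) ^ 2) :=
    fun h => hbd (Or.inr (Or.inr h))
  refine ⟨ha', hVd', hXn, hup, ?_, not_lt.1 hB3⟩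
  have hn0 : nd a v ≠ 0 := by omega
  have hl : i1 ≤ Nat.log 3 (nd a v) := by
    apply Nat.le_log_of_pow_le (by norm_num)
    exact le_trans hXi hXn
  rw [hE _ hl] at hB2
  have hB2' := not_lt.1 hB2
  refine le_trans hB2' ?_
  have hlog : nd a v < 3 ^ (Nat.log 3 (nd a v) + 1) := Nat.lt_pow_succ_log_self (by norm_num) _
  have h1 : (X : ℝ) / 3 ≤ (3 : ℝ) ^ (Nat.log 3 (nd a v)) := by
    have h2 : (X : ℝ) < (3 : ℝ) ^ (Nat.log 3 (nd a v) + 1) := by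
      have : X < 3 ^ (Nat.log 3 (nd a v) + 1) := lt_of_le_of_lt hXn hlog
      exact_mod_cast this
    rw [pow_succ] at h2
    linarith
  have hXpos : (0 : ℝ) < (X : ℝ) / 3 := by
    have : (3 : ℝ) ≤ (X : ℝ) := by exact_mod_cast hX3
    linarith
  have hshi : 0 ≤ shi := le_trans hc.slo0.le hc.slohi.le
  have h3 : (3 : ℝ) ^ (-(shi * (Nat.log 3 (nd a v) : ℝ))) =
      ((3 : ℝ) ^ (Nat.log 3 (nd a v))) ^ (-shi) := by
    rw [← Real.rpow_natCast, ← Real.rpow_mul (by norm_num)]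
    congr 1
    ring
  rw [h3]
  exact Real.rpow_le_rpow_of_nonpos hXpos h1 (by linarith)

open Classical in
/-- The number of good exits. -/
theorem AsB_card (hc : Cert N t slo shi llo lhi p) {S : Finset ℕ} {s : ℕ} (hb : Base S s) {y : ℕ}
    {E : ℕ → ℝ} {i1 : ℕ} (hE : ∀ i, i1 ≤ i → E i = shi) {X : ℕ} (hX3 : 3 ≤ X) (hXi : 3 ^ i1 ≤ X)
    (hXs : 5 * (64 / 3 : ℝ) ^ s < X) {D : ℕ}
    (hD : ∀ a ∈ S, ∀ v ∈ wd D, pr p a v ≠ 0 →
      ∃ j ≤ D, Ext p ((1 / 2) ^ s) y E (fun a v => X ≤ nd a v) a (v.take j))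
    (hbad : ∑ x ∈ (exs p ((1 / 2) ^ s) y E (fun a v => X ≤ nd a v) S D).filter
      (fun x => Bad p ((1 / 2) ^ s) y E x.1 x.2), (1 / 2) ^ s * pr p x.1 x.2 ≤ 1 / 2) :
    1 / 2 * ((X : ℝ) / 3) ^ shi ≤ (((exs p ((1 / 2) ^ s) y E (fun a v => X ≤ nd a v) S D).filter
      (fun x => ¬ Bad p ((1 / 2) ^ s) y E x.1 x.2)).card : ℝ) := by
  have h1 := exs_sum hc hb y E (fun a v => X ≤ nd a v) D hD
  rw [← sum_filter_add_sum_filter_not (exs p ((1 / 2) ^ s) y E (fun a v => X ≤ nd a v) S D)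
    (fun x => Bad p ((1 / 2) ^ s) y E x.1 x.2)] at h1
  have h2 : ∑ x ∈ (exs p ((1 / 2) ^ s) y E (fun a v => X ≤ nd a v) S D).filter
      (fun x => ¬ Bad p ((1 / 2) ^ s) y E x.1 x.2), (1 / 2) ^ s * pr p x.1 x.2 ≤
      ∑ x ∈ (exs p ((1 / 2) ^ s) y E (fun a v => X ≤ nd a v) S D).filter
      (fun x => ¬ Bad p ((1 / 2) ^ s) y E x.1 x.2), ((X : ℝ) / 3) ^ (-shi) := by
    apply sum_le_sum
    rintro ⟨a, v⟩ hx
    rw [mem_filter] at hx
    exact (AsB_good hc hb hE hX3 hXi hXs hx.1 hx.2).2.2.2.2.1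
  rw [sum_const, nsmul_eq_mul] at h2
  have hXpos : (0 : ℝ) < (X : ℝ) / 3 := by
    have : (3 : ℝ) ≤ (X : ℝ) := by exact_mod_cast hX3
    linarith
  have hP : (0 : ℝ) < ((X : ℝ) / 3) ^ shi := Real.rpow_pos_of_pos hXpos _
  rw [Real.rpow_neg hXpos.le] at h2
  have h3 : (1 : ℝ) / 2 ≤ (((exs p ((1 / 2) ^ s) y E (fun a v => X ≤ nd a v) S D).filter
      (fun x => ¬ Bad p ((1 / 2) ^ s) y E x.1 x.2)).card : ℝ) * (((X : ℝ) / 3) ^ shi)⁻¹ := by
    linarith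
  calc 1 / 2 * ((X : ℝ) / 3) ^ shi ≤ ((((exs p ((1 / 2) ^ s) y E (fun a v => X ≤ nd a v) S D).filter
      (fun x => ¬ Bad p ((1 / 2) ^ s) y E x.1 x.2)).card : ℝ) * (((X : ℝ) / 3) ^ shi)⁻¹) *
        ((X : ℝ) / 3) ^ shi := mul_le_mul_of_nonneg_right h3 hP.le
    _ = _ := by
      rw [mul_assoc, inv_mul_cancel₀ hP.ne', mul_one]

/-- The length of a word whose mass is at least `1 / n ^ 2`. -/
theorem AsB_length (hc : Cert N t slo shi llo lhi p) {d : ℝ} (hd0 : 0 < d) (hd1 : d < 1)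
    (hd : ∀ i a, p i a ≤ 1 - d) (s : ℕ) {n a : ℕ} {v : List ℕ} (hn : 1 ≤ n)
    (h : 1 / (n : ℝ) ^ 2 ≤ (1 / 2 : ℝ) ^ s * pr p a v) :
    (v.length : ℝ) ≤ 2 / (-Real.log (1 - d)) * Real.log n := by
  have h1 : pr p a v ≤ (1 - d) ^ v.length := pr_le_pow hc.wt.nn hd a v
  have h2 : (0 : ℝ) ≤ pr p a v := pr_nn hc.wt.nn a v
  have h3 : ((1 / 2 : ℝ)) ^ s ≤ 1 := pow_le_one₀ (by norm_num) (by norm_num)
  have h4 : (1 / 2 : ℝ) ^ s * pr p a v ≤ pr p a v := by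
    calc (1 / 2 : ℝ) ^ s * pr p a v ≤ 1 * pr p a v := mul_le_mul_of_nonneg_right h3 h2
      _ = pr p a v := one_mul _
  have h5 : 1 / (n : ℝ) ^ 2 ≤ (1 - d) ^ v.length := le_trans h (le_trans h4 h1)
  have hn' : (0 : ℝ) < (n : ℝ) := by exact_mod_cast hn
  have h6 : Real.log (1 / (n : ℝ) ^ 2) ≤ Real.log ((1 - d) ^ v.length) :=
    Real.log_le_log (by positivity) h5
  rw [one_div, Real.log_inv, Real.log_pow, Real.log_pow] at h6
  have h7 : 0 < -Real.log (1 - d) := by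
    have := Real.log_neg (by linarith : (0 : ℝ) < 1 - d) (by linarith)
    linarith
  rw [div_mul_eq_mul_div, le_div_iff₀ h7]
  push_cast at h6
  nlinarith

open Classical in
theorem count (hc : Cert N t slo shi llo lhi p) :
    ∃ (K c : ℝ) (X0 : ℕ), 0 < K ∧ 0 < c ∧ ∀ X : ℕ, X0 ≤ X →
      c * (X : ℝ) ^ shi ≤ (((range (6561 * X)).filter
        (fun n => X ≤ n ∧ ∃ m : ℕ, HasC n m ∧ (m : ℝ) ≤ K * Real.log n)).card : ℝ) := by
  obtain ⟨s, S, y, E, hb, hy, -, ⟨i1, hE⟩, hbad⟩ := bad_half hc 0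
  obtain ⟨d, hd0, hd1, hd⟩ := hc.le
  have hL : 0 < -Real.log (1 - d) := by
    have := Real.log_neg (by linarith : (0 : ℝ) < 1 - d) (by linarith)
    linarith
  have hLn : 0 < 2 / (-Real.log (1 - d)) := div_pos (by norm_num) hL
  refine ⟨2 / (-Real.log (1 - d)) + (s + 1), 1 / 2 * (1 / 3 : ℝ) ^ shi,
    3 + 3 ^ i1 + (⌊5 * (64 / 3 : ℝ) ^ s⌋₊ + 1), by positivity, by positivity, ?_⟩
  intro X hX
  have hp3 : 0 < 3 ^ i1 := pow_pos (by norm_num) i1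
  generalize hfl : ⌊5 * (64 / 3 : ℝ) ^ s⌋₊ = fl at hX
  have hX3 : 3 ≤ X := by omega
  have hXi : 3 ^ i1 ≤ X := by omega
  have hXs : 5 * (64 / 3 : ℝ) ^ s < X := by
    have h1 : 5 * (64 / 3 : ℝ) ^ s < (⌊5 * (64 / 3 : ℝ) ^ s⌋₊ : ℝ) + 1 := Nat.lt_floor_add_one _
    have h2 : ((⌊5 * (64 / 3 : ℝ) ^ s⌋₊ + 1 : ℕ) : ℝ) ≤ (X : ℝ) := by
      have : ⌊5 * (64 / 3 : ℝ) ^ s⌋₊ + 1 ≤ X := by
        rw [hfl]
        omega
      exact_mod_cast this
    push_cast at h2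
    linarith
  have hX0 : (0 : ℝ) < (X : ℝ) := by
    have : 0 < X := by omega
    exact_mod_cast this
  obtain ⟨D, hD⟩ := exists_pow_lt_of_lt_one (show (0 : ℝ) < 1 / (X : ℝ) ^ 2 by positivity)
    (show 1 - d < 1 by linarith)
  have hdep := AsB_depth hc hb y E X hd D hD
  have hcard := AsB_card hc hb hE hX3 hXi hXs hdep (hbad (fun a v => X ≤ nd a v) D)
  have e1 : 1 / 2 * (1 / 3 : ℝ) ^ shi * (X : ℝ) ^ shi = 1 / 2 * ((X : ℝ) / 3) ^ shi := by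
    rw [mul_assoc, ← Real.mul_rpow (by norm_num) hX0.le]
    congr 2
    ring
  rw [e1]
  refine le_trans hcard ?_
  rw [Nat.cast_le]
  apply card_le_card_of_injOn (fun x => nd x.1 x.2)
  · rintro ⟨a, v⟩ hx
    rw [mem_coe, mem_filter] at hx
    obtain ⟨ha, hVd, h1, h2, h3, h4⟩ := AsB_good hc hb hE hX3 hXi hXs hx.1 hx.2
    rw [mem_coe, mem_filter, mem_range]
    refine ⟨h2, h1, ?_⟩
    obtain ⟨c, hc1, hc2⟩ := hb.circ a ha v hVd
    refine ⟨c, hc1, ?_⟩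
    have hn1 : 1 ≤ nd a v := by omega
    have hlen := AsB_length hc hd0 hd1 hd s hn1 h4
    have hlog : 1 ≤ Real.log (nd a v) := by
      have h5 : (3 : ℝ) ≤ (nd a v : ℝ) := by
        have : 3 ≤ nd a v := by omega
        exact_mod_cast this
      have h6 : Real.exp 1 ≤ (nd a v : ℝ) := by
        have := Real.exp_one_lt_d9
        linarith
      calc (1 : ℝ) = Real.log (Real.exp 1) := (Real.log_exp 1).symm
        _ ≤ Real.log (nd a v) := Real.log_le_log (Real.exp_pos 1) h6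
    have hc3 : (c : ℝ) ≤ (s : ℝ) + (v.length : ℝ) + 1 := by exact_mod_cast hc2
    have hs0 : (0 : ℝ) ≤ (s : ℝ) + 1 := by positivity
    have h7 : (s : ℝ) + 1 ≤ ((s : ℝ) + 1) * Real.log (nd a v) := by
      calc (s : ℝ) + 1 = ((s : ℝ) + 1) * 1 := (mul_one _).symm
        _ ≤ _ := mul_le_mul_of_nonneg_left hlog hs0
    show (c : ℝ) ≤ (2 / (-Real.log (1 - d)) + ((s : ℝ) + 1)) * Real.log (nd a v)
    rw [add_mul]
    linarith
  · rintro ⟨a, v⟩ hx ⟨a', v'⟩ hx' hnd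
    rw [mem_coe, mem_filter] at hx hx'
    obtain ⟨ha, hVd, -⟩ := AsB_good hc hb hE hX3 hXi hXs hx.1 hx.2
    obtain ⟨ha', hVd', -⟩ := AsB_good hc hb hE hX3 hXi hXs hx'.1 hx'.2
    obtain ⟨h1, h2⟩ := hb.inj a ha a' ha' v v' hVd hVd' hnd
    rw [h1, h2]

open Classical in
theorem final (hc : Cert N t slo shi llo lhi p) {sg : ℝ} (hsg : 0 < sg) (h : sg < shi) :
    ∃ K : ℝ, 0 < K ∧ ∀ᶠ x : ℕ in atTop, (x : ℝ) ^ sg ≤ (((Icc 1 x).filter
        (fun n => ∃ m : ℕ, HasC n m ∧ (m : ℝ) ≤ K * Real.log n)).card : ℝ) := by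
  obtain ⟨K, c, X0, hK, hcp, hcount⟩ := count hc
  refine ⟨K, hK, ?_⟩
  have hlim : Tendsto (fun x : ℕ => ((x : ℝ)) ^ (shi - sg)) atTop atTop :=
    (tendsto_rpow_atTop (by linarith : 0 < shi - sg)).comp tendsto_natCast_atTop_atTop
  filter_upwards [hlim.eventually_ge_atTop ((13122 : ℝ) ^ shi / c),
    eventually_ge_atTop (6561 * (X0 + 1) + 13122)] with x hx1 hx2
  have hX0 : X0 ≤ x / 6561 := by omega
  have h1 := hcount (x / 6561) hX0
  have hxpos : (0 : ℝ) < (x : ℝ) := by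
    have : 0 < x := by omega
    exact_mod_cast this
  have h2 : (x : ℝ) / 13122 ≤ ((x / 6561 : ℕ) : ℝ) := by
    have h3 : x ≤ 13122 * (x / 6561) := by omega
    have h4 : (x : ℝ) ≤ 13122 * ((x / 6561 : ℕ) : ℝ) := by exact_mod_cast h3
    linarith
  have hshi : 0 < shi := lt_trans hc.slo0 hc.slohi
  have h3 : (x : ℝ) ^ sg ≤ c * (((x / 6561 : ℕ) : ℝ)) ^ shi := by
    have h4 : ((x : ℝ) / 13122) ^ shi ≤ (((x / 6561 : ℕ) : ℝ)) ^ shi :=
      Real.rpow_le_rpow (by positivity) h2 hshi.le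
    have h5 : ((x : ℝ) / 13122) ^ shi = (x : ℝ) ^ shi / 13122 ^ shi :=
      Real.div_rpow hxpos.le (by norm_num) _
    have h6 : (x : ℝ) ^ shi = (x : ℝ) ^ (shi - sg) * (x : ℝ) ^ sg := by
      rw [← Real.rpow_add hxpos]
      congr 1
      ring
    have hP : (0 : ℝ) < (13122 : ℝ) ^ shi := by positivity
    have hQ : (0 : ℝ) < (x : ℝ) ^ sg := by positivity
    have h7 : (x : ℝ) ^ sg ≤ c * ((x : ℝ) ^ shi / 13122 ^ shi) := by
      rw [div_le_iff₀ hcp] at hx1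
      rw [h6, mul_div_assoc', le_div_iff₀ hP]
      calc (x : ℝ) ^ sg * 13122 ^ shi ≤ (x : ℝ) ^ sg * ((x : ℝ) ^ (shi - sg) * c) :=
            mul_le_mul_of_nonneg_left hx1 hQ.le
        _ = c * ((x : ℝ) ^ (shi - sg) * (x : ℝ) ^ sg) := by ring
    calc (x : ℝ) ^ sg ≤ c * ((x : ℝ) ^ shi / 13122 ^ shi) := h7
      _ = c * ((x : ℝ) / 13122) ^ shi := by rw [h5]
      _ ≤ _ := mul_le_mul_of_nonneg_left h4 hcp.le
  refine le_trans h3 (le_trans h1 ?_)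
  rw [Nat.cast_le]
  apply card_le_card
  intro n hn
  rw [mem_filter, mem_range] at hn
  obtain ⟨hn1, hn2, hn3⟩ := hn
  rw [mem_filter, mem_Icc]
  refine ⟨⟨by omega, by omega⟩, hn3⟩

end Pool.Agent.helper82.K3X
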