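import Pool.Agent.helper82.K3X.Av

/-!
# K3X-KDb: the bound for long words, one block
-/

namespace Pool.Agent.helper82.K3X

open Finset

variable {N t : ℕ} {slo shi llo lhi : ℝ} {p : ℕ → ℕ → ℝ}

/-- The bound for long words in the block `i`. -/
noncomputable def KD (p : ℕ → ℕ → ℝ) (shi th : ℝ) (K0 y i : ℕ) : ℝ :=
  ∑ b ∈ (range (3 ^ (i + 1))).filter (fun b => b % 3 = 2), ∑ j ∈ Icc i (i + 8), ∑ v ∈ wd j,
    (3 : ℝ) ^ (-(shi * i)) * pr p b v *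
      ((3 : ℝ) ^ ((i : ℝ) + 1 + (j : ℝ) / K0) /
        ((1 - 1 / (y : ℝ)) ^ j * (pr gro b v * 3 ^ i))) ^ th

theorem KDb_pr (p : ℕ → ℕ → ℝ) (th : ℝ) (a : ℕ) (v : List ℕ) :
    pr (fun i a => p i a * gro i a ^ (-th)) a v = pr p a v * pr gro a v ^ (-th) := by
  induction v generalizing a with
  | nil => simp [pr]
  | cons i v ih =>
    simp only [pr]
    rw [ih, Real.mul_rpow (gro_pos i a).le (pr_gro_pos _ _).le]
    ring

theorem KDb_wt (hN : 1 ≤ N) (hp : Wt N p) (th : ℝ) :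
    Wt N (fun i a => p i a * gro i a ^ (-th)) where
  nn := fun i a => mul_nonneg (hp.nn i a) (Real.rpow_nonneg (gro_pos i a).le _)
  inv := fun i a h => by
    show p i a * gro i a ^ (-th) = 0
    rw [hp.inv i a h, zero_mul]
  per := fun i a => by
    show p i (a + 3 ^ (N + 1)) * gro i (a + 3 ^ (N + 1)) ^ (-th) = p i a * gro i a ^ (-th)
    rw [hp.per, gro_per hN]

theorem KDb_term {z r : ℝ} (hz : 0 < z) (hr : 0 < r) (th : ℝ) (K0 i j : ℕ) :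
    ((3 : ℝ) ^ ((i : ℝ) + 1 + (j : ℝ) / K0) / (z ^ j * (r * 3 ^ i))) ^ th =
      (3 : ℝ) ^ th * ((3 : ℝ) ^ (th / K0) * z ^ (-th)) ^ j * r ^ (-th) := by
  have h3 : (0 : ℝ) < 3 := by norm_num
  have e1 : (3 : ℝ) ^ ((i : ℝ) + 1 + (j : ℝ) / K0) = 3 ^ i * (3 : ℝ) ^ (1 + (j : ℝ) / K0) := by
    rw [add_assoc, Real.rpow_add h3, Real.rpow_natCast]
  have hi : (0 : ℝ) < 3 ^ i := by positivity
  have e2 : (3 : ℝ) ^ ((i : ℝ) + 1 + (j : ℝ) / K0) / (z ^ j * (r * 3 ^ i)) =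
      (3 : ℝ) ^ (1 + (j : ℝ) / K0) * (z ^ j)⁻¹ * r⁻¹ := by
    rw [e1]
    field_simp
  have e3 : ((3 : ℝ) ^ (1 + (j : ℝ) / K0)) ^ th = (3 : ℝ) ^ th * ((3 : ℝ) ^ (th / K0)) ^ j := by
    rw [← Real.rpow_mul h3.le, ← Real.rpow_natCast ((3 : ℝ) ^ (th / K0)) j, ← Real.rpow_mul h3.le,
      ← Real.rpow_add h3]
    congr 1
    ring
  have e4 : ((z ^ j)⁻¹) ^ th = (z ^ (-th)) ^ j := by
    rw [Real.inv_rpow (pow_pos hz j).le, ← Real.rpow_neg (pow_pos hz j).le,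
      ← Real.rpow_natCast z j, ← Real.rpow_natCast (z ^ (-th)) j, ← Real.rpow_mul hz.le,
      ← Real.rpow_mul hz.le]
    congr 1
    ring
  have e5 : (r⁻¹) ^ th = r ^ (-th) := by
    rw [Real.inv_rpow hr.le, ← Real.rpow_neg hr.le]
  rw [e2, Real.mul_rpow (by positivity) (by positivity),
    Real.mul_rpow (by positivity) (by positivity), e3, e4, e5, mul_pow]
  ring

/-- One length. -/
theorem KDb_block (hp : Wt N p) {H lth shi th : ℝ}
    (hb : ∀ k m : ℕ, N + k ≤ m →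
      ∑ b ∈ (range (3 ^ m)).filter (fun b => b % 3 = 2), ∑ v ∈ wd k,
        pr p b v * pr gro b v ^ (-th) ≤ H * 3 ^ m * lth ^ k)
    {z : ℝ} (hz : 0 < z) (K0 i j : ℕ) (hij : i ≤ j) :
    ∑ b ∈ (range (3 ^ (i + 1))).filter (fun b => b % 3 = 2), ∑ v ∈ wd j,
      (3 : ℝ) ^ (-(shi * i)) * pr p b v *
        ((3 : ℝ) ^ ((i : ℝ) + 1 + (j : ℝ) / K0) / (z ^ j * (pr gro b v * 3 ^ i))) ^ th ≤
    (3 : ℝ) ^ (-(shi * i)) * (3 ^ th * H * 3 ^ (N + 1)) *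
      (3 * lth * (3 : ℝ) ^ (th / K0) * z ^ (-th)) ^ j := by
  have hm := hb j (N + j + 1) (by omega)
  set F : ℕ → ℝ := fun b => ∑ v ∈ wd j, pr p b v * pr gro b v ^ (-th) with hF
  have hFn : ∀ b, 0 ≤ F b := by
    intro b
    apply sum_nonneg
    intro v _
    exact mul_nonneg (pr_nn hp.nn b v) (Real.rpow_nonneg (pr_gro_pos b v).le _)
  have hsub : ∑ b ∈ (range (3 ^ (i + 1))).filter (fun b => b % 3 = 2), F b ≤
      ∑ b ∈ (range (3 ^ (N + j + 1))).filter (fun b => b % 3 = 2), F b := by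
    apply sum_le_sum_of_subset_of_nonneg
    · apply filter_subset_filter
      apply range_subset_range.2
      exact Nat.pow_le_pow_right (by norm_num) (by omega)
    · intro b _ _
      exact hFn b
  have h3 : ∑ b ∈ (range (3 ^ (i + 1))).filter (fun b => b % 3 = 2), ∑ v ∈ wd j,
      (3 : ℝ) ^ (-(shi * i)) * pr p b v *
        ((3 : ℝ) ^ ((i : ℝ) + 1 + (j : ℝ) / K0) / (z ^ j * (pr gro b v * 3 ^ i))) ^ th =
      ((3 : ℝ) ^ (-(shi * i)) * ((3 : ℝ) ^ th * ((3 : ℝ) ^ (th / K0) * z ^ (-th)) ^ j)) *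
        ∑ b ∈ (range (3 ^ (i + 1))).filter (fun b => b % 3 = 2), F b := by
    rw [mul_sum]
    apply sum_congr rfl
    intro b _
    rw [hF, mul_sum]
    apply sum_congr rfl
    intro v _
    rw [KDb_term hz (pr_gro_pos b v)]
    ring
  rw [h3]
  have h4 := hsub.trans hm
  refine (mul_le_mul_of_nonneg_left h4 (by positivity)).trans (le_of_eq ?_)
  rw [show N + j + 1 = (N + 1) + j by ring, pow_add (3 : ℝ) (N + 1) j, mul_pow, mul_pow, mul_pow,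
    mul_pow]
  ring

theorem KDb_lim {th g : ℝ} (hg : 0 < g) :
    ∃ y0 : ℕ, ∀ y : ℕ, y0 ≤ y → 0 < 1 - 1 / (y : ℝ) ∧
      (1 - 1 / (y : ℝ)) ^ (-th) ≤ (3 : ℝ) ^ g := by
  have h1 : Filter.Tendsto (fun y : ℕ => 1 - 1 / (y : ℝ)) Filter.atTop (nhds (1 - 0)) :=
    tendsto_const_nhds.sub tendsto_one_div_atTop_nhds_zero_nat
  rw [sub_zero] at h1
  have h2 : Filter.Tendsto (fun y : ℕ => (1 - 1 / (y : ℝ)) ^ (-th)) Filter.atTop
      (nhds ((1 : ℝ) ^ (-th))) := h1.rpow_const (Or.inl one_ne_zero)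
  rw [Real.one_rpow] at h2
  have h3 : (1 : ℝ) < (3 : ℝ) ^ g := Real.one_lt_rpow (by norm_num) hg
  have e1 := h2.eventually (ge_mem_nhds h3)
  have e2 := h1.eventually (lt_mem_nhds (show (0 : ℝ) < 1 by norm_num))
  obtain ⟨y0, hy0⟩ := Filter.eventually_atTop.1 (e2.and e1)
  exact ⟨y0, fun y hy => hy0 y hy⟩

theorem KD_bound (hc : Cert N t slo shi llo lhi p) {th lth : ℝ} {K0 : ℕ}
    (hl : CertL N shi th lth K0 p) :
    ∃ (K dl : ℝ) (y0 : ℕ), 0 < K ∧ 0 < dl ∧ ∀ y : ℕ, y0 ≤ y → ∀ i : ℕ,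
      KD p shi th K0 y i ≤ K * (3 : ℝ) ^ (-(dl * i)) := by
  have h3 : (0 : ℝ) < 3 := by norm_num
  obtain ⟨h, hh⟩ := hl.sup
  obtain ⟨H, hH, hb0⟩ := avg hc.N1 (KDb_wt hc.N1 hc.wt th) hh hl.lth0
  have hb : ∀ k m : ℕ, N + k ≤ m →
      ∑ b ∈ (range (3 ^ m)).filter (fun b => b % 3 = 2), ∑ v ∈ wd k,
        pr p b v * pr gro b v ^ (-th) ≤ H * 3 ^ m * lth ^ k := by
    intro k m hkm
    have h1 := hb0 k m hkm
    unfold Uk at h1
    simpa only [KDb_pr] using h1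
  set c0 : ℝ := 3 * lth * (3 : ℝ) ^ (th / K0) with hc0
  have hc0p : 0 < c0 := by
    have := hl.lth0
    positivity
  have hc0lt : c0 < (3 : ℝ) ^ shi := by
    have h1 := mul_lt_mul_of_pos_left hl.lt h3
    have h2 : 3 * (3 : ℝ) ^ (-(1 - shi)) = (3 : ℝ) ^ shi := by
      rw [show -(1 - shi) = shi - 1 by ring, Real.rpow_sub h3, Real.rpow_one]
      field_simp
    rw [h2] at h1
    rw [hc0]
    linarith [h1, mul_assoc 3 lth ((3 : ℝ) ^ (th / K0))]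
  have hshi0 : 0 < shi := hc.slo0.trans hc.slohi
  have hlog : Real.logb 3 c0 < shi :=
    (Real.logb_lt_iff_lt_rpow (by norm_num : (1 : ℝ) < 3) hc0p).2 hc0lt
  set g : ℝ := (shi - Real.logb 3 c0) / 2 with hg
  have hg0 : 0 < g := by
    rw [hg]
    linarith
  have hc0e : c0 = (3 : ℝ) ^ (shi - 2 * g) := by
    have h1 : shi - 2 * g = Real.logb 3 c0 := by
      rw [hg]
      ring
    rw [h1, Real.rpow_logb h3 (by norm_num) hc0p]
  set dl : ℝ := min g shi with hdl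
  have hdl0 : 0 < dl := lt_min hg0 hshi0
  have hdlg : dl ≤ g := min_le_left _ _
  have hdls : dl ≤ shi := min_le_right _ _
  obtain ⟨y0, hy0⟩ := KDb_lim (th := th) hg0
  refine ⟨9 * (3 ^ th * H * 3 ^ (N + 1) * 3 ^ (8 : ℝ)), dl, y0, by positivity, hdl0,
    fun y hy i => ?_⟩
  obtain ⟨hz, hzp⟩ := hy0 y hy
  set z : ℝ := 1 - 1 / (y : ℝ) with hzdef
  unfold KD
  have h0 : ∑ b ∈ (range (3 ^ (i + 1))).filter (fun b => b % 3 = 2), ∑ j ∈ Icc i (i + 8),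
      ∑ v ∈ wd j, (3 : ℝ) ^ (-(shi * i)) * pr p b v *
        ((3 : ℝ) ^ ((i : ℝ) + 1 + (j : ℝ) / K0) / (z ^ j * (pr gro b v * 3 ^ i))) ^ th =
      ∑ j ∈ Icc i (i + 8), ∑ b ∈ (range (3 ^ (i + 1))).filter (fun b => b % 3 = 2),
      ∑ v ∈ wd j, (3 : ℝ) ^ (-(shi * i)) * pr p b v *
        ((3 : ℝ) ^ ((i : ℝ) + 1 + (j : ℝ) / K0) / (z ^ j * (pr gro b v * 3 ^ i))) ^ th :=
    sum_comm
  rw [h0]
  have h1 : ∀ j ∈ Icc i (i + 8), ∑ b ∈ (range (3 ^ (i + 1))).filter (fun b => b % 3 = 2),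
      ∑ v ∈ wd j, (3 : ℝ) ^ (-(shi * i)) * pr p b v *
        ((3 : ℝ) ^ ((i : ℝ) + 1 + (j : ℝ) / K0) / (z ^ j * (pr gro b v * 3 ^ i))) ^ th ≤
      3 ^ th * H * 3 ^ (N + 1) * 3 ^ (8 : ℝ) * (3 : ℝ) ^ (-(dl * i)) := by
    intro j hj
    rw [mem_Icc] at hj
    refine (KDb_block hc.wt hb hz K0 i j hj.1).trans ?_
    have hc1 : c0 * z ^ (-th) ≤ (3 : ℝ) ^ (shi - dl) := by
      have h1 : c0 * z ^ (-th) ≤ (3 : ℝ) ^ (shi - 2 * g) * (3 : ℝ) ^ g := by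
        rw [← hc0e]
        exact mul_le_mul_of_nonneg_left hzp hc0p.le
      refine h1.trans ?_
      rw [← Real.rpow_add h3]
      apply Real.rpow_le_rpow_of_exponent_le (by norm_num)
      linarith
    have hc2 : (c0 * z ^ (-th)) ^ j ≤ (3 : ℝ) ^ ((shi - dl) * j) := by
      rw [Real.rpow_mul h3.le, Real.rpow_natCast]
      exact pow_le_pow_left₀ (by positivity) hc1 j
    have hc3 : (3 : ℝ) ^ ((shi - dl) * j) ≤ (3 : ℝ) ^ ((shi - dl) * i + 8) := by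
      apply Real.rpow_le_rpow_of_exponent_le (by norm_num)
      have hji : (j : ℝ) ≤ i + 8 := by exact_mod_cast hj.2
      have h1 : 0 ≤ (shi - dl) * ((i : ℝ) + 8 - j) := mul_nonneg (by linarith) (by linarith)
      have h2 := hc.shi1
      nlinarith [h1]
    have hc4 := mul_le_mul_of_nonneg_left (hc2.trans hc3)
      (show (0 : ℝ) ≤ (3 : ℝ) ^ (-(shi * i)) * (3 ^ th * H * 3 ^ (N + 1)) by positivity)
    refine hc4.trans (le_of_eq ?_)
    have e : (3 : ℝ) ^ (-(dl * i)) = (3 : ℝ) ^ (-(shi * i)) * (3 : ℝ) ^ ((shi - dl) * i) := by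
      rw [← Real.rpow_add h3]
      congr 1
      ring
    rw [e, Real.rpow_add h3 ((shi - dl) * i) 8]
    ring
  have h2 := sum_le_card_nsmul _ _ _ h1
  refine h2.trans (le_of_eq ?_)
  have h3' : (Icc i (i + 8)).card = 9 := by
    rw [Nat.card_Icc]
    omega
  rw [h3', nsmul_eq_mul]
  push_cast
  ring

end Pool.Agent.helper82.K3X
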