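import Pool.Agent.helper82.K3X.Wd

/-!
# K3X-Lo: lower bound for the nodes
-/

namespace Pool.Agent.helper82.K3X

theorem Lo_step {y : ℕ} (hy : 1 ≤ y) {i a : ℕ} (ha : a % 3 = 2) (h5 : 4 ^ i * a % 9 ≠ 5)
    (hya : y ≤ a) : (1 - 1 / (y : ℝ)) * (gro i a * a) ≤ nxt i a := by
  have h3 := Ar_mod3 i a
  have hy0 : (0 : ℝ) < y := by exact_mod_cast hy
  have hya' : (y : ℝ) ≤ a := by exact_mod_cast hya
  have hq : (1 : ℝ) ≤ a / y := by
    rw [le_div_iff₀ hy0, one_mul]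
    exact hya'
  have h4 : (1 : ℝ) ≤ 4 ^ i := one_le_pow₀ (by norm_num)
  have h4q : (1 : ℝ) ≤ 4 ^ i * (a / y) := one_le_mul_of_one_le_of_one_le h4 hq
  unfold nxt gro
  split_ifs with h2
  · obtain ⟨c, hc⟩ : ∃ c, 4 ^ i * a = 9 * c + 2 := ⟨4 ^ i * a / 9, by omega⟩
    have hcr : (4 : ℝ) ^ i * a = 9 * c + 2 := by exact_mod_cast hc
    have e : (4 * (4 ^ i * a) - 2) / 3 = 12 * c + 2 := by
      rw [hc]
      omega
    rw [e]
    push_cast
    have e2 : (1 - 1 / (y : ℝ)) * (4 ^ i * (4 / 3) * a)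
        = (4 / 3) * (4 ^ i * a) - (4 / 3) * (4 ^ i * (a / y)) := by
      field_simp
    rw [e2, hcr]
    linarith
  · obtain ⟨c, hc⟩ : ∃ c, 4 ^ i * a = 9 * c + 8 := ⟨4 ^ i * a / 9, by omega⟩
    have hcr : (4 : ℝ) ^ i * a = 9 * c + 8 := by exact_mod_cast hc
    have e : (2 * (4 ^ i * a) - 1) / 3 = 6 * c + 5 := by
      rw [hc]
      omega
    rw [e]
    push_cast
    have e2 : (1 - 1 / (y : ℝ)) * (4 ^ i * (2 / 3) * a)
        = (2 / 3) * (4 ^ i * a) - (2 / 3) * (4 ^ i * (a / y)) := by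
      field_simp
    rw [e2, hcr]
    linarith

theorem nd_ge {y : ℕ} (hy : 1 ≤ y) {a : ℕ} (ha : a % 3 = 2) {v : List ℕ} (hv : Vd a v)
    (hn : ∀ j < v.length, y ≤ nd a (v.take j)) :
    (1 - 1 / (y : ℝ)) ^ v.length * (pr gro a v * a) ≤ nd a v := by
  have hy0 : (0 : ℝ) < y := by exact_mod_cast hy
  have h0 : (0 : ℝ) ≤ 1 - 1 / (y : ℝ) := by
    rw [sub_nonneg, div_le_one hy0]
    exact_mod_cast hy
  induction v generalizing a with
  | nil => simp [pr, nd]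
  | cons i v ih =>
    have hya : y ≤ a := by
      have := hn 0 (by simp)
      simpa [nd] using this
    have h1 := Lo_step hy ha hv.1.2 hya
    have h2 : (1 - 1 / (y : ℝ)) ^ v.length * (pr gro (nxt i a) v * (nxt i a : ℕ))
        ≤ nd (nxt i a) v := by
      refine ih (nxt_mod ha hv.1.2) hv.2 (fun j hj => ?_)
      have := hn (j + 1) (by simpa using hj)
      simpa [nd, List.take_succ_cons] using this
    have h3 : 0 ≤ (1 - 1 / (y : ℝ)) ^ v.length * pr gro (nxt i a) v :=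
      mul_nonneg (pow_nonneg h0 _) (Wd_pr_gro_pos _ _).le
    calc (1 - 1 / (y : ℝ)) ^ (i :: v).length * (pr gro a (i :: v) * a)
        = (1 - 1 / (y : ℝ)) ^ v.length * pr gro (nxt i a) v
            * ((1 - 1 / (y : ℝ)) * (gro i a * a)) := by
          simp only [List.length_cons, pr, pow_succ]
          ring
      _ ≤ (1 - 1 / (y : ℝ)) ^ v.length * pr gro (nxt i a) v * (nxt i a : ℕ) :=
          mul_le_mul_of_nonneg_left h1 h3
      _ = (1 - 1 / (y : ℝ)) ^ v.length * (pr gro (nxt i a) v * (nxt i a : ℕ)) := by ring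
      _ ≤ nd (nxt i a) v := h2
      _ = nd a (i :: v) := rfl

end Pool.Agent.helper82.K3X
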