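import Pool.Agent.helper82.K3X.K1b
import Pool.Agent.helper82.K3X.Lo
import Pool.Agent.helper82.K3X.KDb

/-!
# K3X-K4: the exits with long words
-/

namespace Pool.Agent.helper82.K3X

open Finset

variable {N t : ℕ} {slo shi llo lhi : ℝ} {p : ℕ → ℕ → ℝ}

/-- The nearest balanced ancestor of a long exit. -/
theorem K4_split {mu : ℝ} {y : ℕ} (hy : 3 ≤ y) {E : ℕ → ℝ} {Q : ℕ → List ℕ → Prop} {K0 D1 : ℕ}
    (hQ : ∀ a v, Lng D1 K0 a v → Q a v) {a : ℕ} {v : List ℕ} (hm : a % 3 = 2) (hv : Vd a v)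
    (hex : ∀ j < v.length, ¬ Ext p mu y E Q a (v.take j)) (hyn : y ≤ nd a v)
    (hbal : Bal a v) :
    ∃ u w, v = u ++ w ∧ (∀ j < w.length, y ≤ nd (nd a u) (w.take j)) ∧ 0 < w.length ∧
      mu * pr p a u ≤ (3 : ℝ) ^ (-(E (Nat.log 3 (nd a u)) * (Nat.log 3 (nd a u) : ℝ))) ∧
      1 / (nd a u : ℝ) ^ 2 ≤ mu * pr p a u ∧ u.length ≤ D1 + K0 * Nat.log 3 (nd a u) ∧
      Nat.log 3 (nd a u) ≤ w.length ∧ w.length ≤ Nat.log 3 (nd a u) + 8 := by
  classical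
  have hP : ∃ j, j ≤ v.length ∧ Nat.log 3 (nd a (v.take (v.length - j))) ≤ j := hbal
  obtain ⟨j, hj1, hj2, hmin⟩ : ∃ j, j ≤ v.length ∧
      Nat.log 3 (nd a (v.take (v.length - j))) ≤ j ∧
      ∀ m < j, ¬ (m ≤ v.length ∧ Nat.log 3 (nd a (v.take (v.length - m))) ≤ m) :=
    ⟨Nat.find hP, (Nat.find_spec hP).1, (Nat.find_spec hP).2, fun m hm => Nat.find_min hP hm⟩
  have hj0 : 1 ≤ j := by
    rcases Nat.eq_zero_or_pos j with h0 | h0
    · subst h0
      rw [Nat.sub_zero, List.take_length] at hj2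
      have h3 : 3 ≤ nd a v := le_trans hy hyn
      have : 0 < Nat.log 3 (nd a v) := Nat.log_pos (by norm_num) h3
      omega
    · exact h0
  have hk : v.length - j < v.length := by omega
  have hne := hex _ hk
  have hlen : (v.take (v.length - j)).length = v.length - j := by
    rw [List.length_take]
    omega
  unfold Ext Bad at hne
  push Not at hne
  obtain ⟨⟨-, hmass, hmass2⟩, hnQ⟩ := hne
  refine ⟨v.take (v.length - j), v.drop (v.length - j), (List.take_append_drop _ _).symm, ?_, ?_,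
    hmass, hmass2, ?_, ?_, ?_⟩
  · intro m hm'
    rw [List.length_drop] at hm'
    have h1 : v.length - j + m < v.length := by omega
    have h2 := hex _ h1
    unfold Ext Bad at h2
    push Not at h2
    have h3 := h2.1.1
    rwa [List.take_add, nd_append] at h3
  · rw [List.length_drop]
    omega
  · have h1 : ¬ Lng D1 K0 a (v.take (v.length - j)) := fun h => hnQ (hQ _ _ h)
    unfold Lng at h1
    omega
  · rw [List.length_drop]
    omega
  · rw [List.length_drop]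
    have h1 := hmin (j - 1) (by omega)
    have h2 : ¬ Nat.log 3 (nd a (v.take (v.length - (j - 1)))) ≤ j - 1 := fun h =>
      h1 ⟨by omega, h⟩
    have h3 : v.length - (j - 1) = (v.length - j) + 1 := by omega
    have h4 : v.take (v.length - j + 1) = v.take (v.length - j) ++ [v[v.length - j]] :=
      (List.take_append_getElem hk).symm
    rw [h3, h4, nd_append] at h2
    have h5 : nd (nd a (v.take (v.length - j))) [v[v.length - j]] =
        nxt (v[v.length - j]) (nd a (v.take (v.length - j))) := rfl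
    rw [h5] at h2
    have h6 : Nat.log 3 (nxt (v[v.length - j]) (nd a (v.take (v.length - j)))) ≤
        Nat.log 3 (nd a (v.take (v.length - j))) + 8 :=
      nxt_log (Vd_lt hv _ (List.getElem_mem hk)) (nd_pos hm (Vd_take hv _))
    omega

/-- The ancestor of a long exit is large. -/
theorem K4_large (hc : Cert N t slo shi llo lhi p) {mu : ℝ} (hmu : 0 < mu) (hmu1 : mu ≤ 1)
    {K0 D0 D1 i2 : ℕ} {d : ℝ} (hd0 : 0 < d) (hd1 : d < 1) (hd : ∀ i a, p i a ≤ 1 - d)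
    (hD0 : (1 - d) ^ D0 < 1 / 3 ^ (2 * i2)) (hD1 : D0 + i2 + 8 ≤ D1) {a : ℕ} {u w : List ℕ}
    (hm : a % 3 = 2) (hu : Vd a u) (hlong : Lng D1 K0 a (u ++ w))
    (h2 : 1 / (nd a u : ℝ) ^ 2 ≤ mu * pr p a u)
    (h4 : w.length ≤ Nat.log 3 (nd a u) + 8) : i2 ≤ Nat.log 3 (nd a u) := by
  by_contra hlt
  push Not at hlt
  set b := nd a u with hb
  have hb1 : 1 ≤ b := nd_pos hm hu
  have hb2 : b < 3 ^ i2 := Nat.lt_pow_of_log_lt (by norm_num) hlt
  have hb3 : (b : ℝ) ^ 2 ≤ 3 ^ (2 * i2) := by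
    have h5 : (b : ℝ) ≤ 3 ^ i2 := by exact_mod_cast hb2.le
    have h6 : (3 : ℝ) ^ (2 * i2) = (3 ^ i2) ^ 2 := by
      rw [← pow_mul, mul_comm]
    rw [h6]
    exact pow_le_pow_left₀ (Nat.cast_nonneg b) h5 2
  have hb0 : (0 : ℝ) < (b : ℝ) ^ 2 := by
    have : (0 : ℝ) < b := by exact_mod_cast hb1
    positivity
  have h5 : 1 / (3 : ℝ) ^ (2 * i2) ≤ 1 / (b : ℝ) ^ 2 := one_div_le_one_div_of_le hb0 hb3
  have hpnn : ∀ i a, 0 ≤ p i a := hc.wt.nn
  have h6 : mu * pr p a u ≤ (1 - d) ^ u.length := by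
    have h7 := pr_le_pow hpnn hd a u
    have h8 := pr_nn hpnn a u
    nlinarith
  have h9 : (1 - d) ^ D0 < (1 - d) ^ u.length :=
    lt_of_lt_of_le hD0 (h5.trans (h2.trans h6))
  have h10 : u.length < D0 := by
    by_contra h11
    push Not at h11
    have h12 : (1 - d) ^ u.length ≤ (1 - d) ^ D0 :=
      pow_le_pow_of_le_one (by linarith) (by linarith) h11
    linarith
  unfold Lng at hlong
  rw [List.length_append] at hlong
  have h13 : 0 ≤ K0 * Nat.log 3 (nd a (u ++ w)) := Nat.zero_le _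
  omega

/-- The mass of a long exit against the term of the block of its balanced ancestor. -/
theorem K4_term (hc : Cert N t slo shi llo lhi p) {th lth : ℝ} {K0 D1 : ℕ}
    (hl : CertL N shi th lth K0 p) {mu : ℝ} {y : ℕ} (hy : 3 ≤ y) {a : ℕ}
    (hm : a % 3 = 2) {u w : List ℕ} (hv : Vd a (u ++ w)) (hlong : Lng D1 K0 a (u ++ w))
    (hyb : ∀ j < w.length, y ≤ nd (nd a u) (w.take j))
    (h1 : mu * pr p a u ≤ (3 : ℝ) ^ (-(shi * (Nat.log 3 (nd a u) : ℝ))))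
    (h3 : u.length ≤ D1 + K0 * Nat.log 3 (nd a u)) :
    mu * pr p a (u ++ w) ≤
      (3 : ℝ) ^ (-(shi * (Nat.log 3 (nd a u) : ℝ))) * pr p (nd a u) w *
      ((3 : ℝ) ^ ((Nat.log 3 (nd a u) : ℝ) + 1 + (w.length : ℝ) / K0) /
        ((1 - 1 / (y : ℝ)) ^ w.length * (pr gro (nd a u) w * 3 ^ Nat.log 3 (nd a u)))) ^ th := by
  set b := nd a u with hb
  set i := Nat.log 3 b with hi
  set j := w.length with hj
  have hvu : Vd a u ∧ Vd b w := (Vd_append a u w).1 hv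
  have hbm : b % 3 = 2 := nd_mod hm hvu.1
  have hnd : nd a (u ++ w) = nd b w := nd_append a u w
  unfold Lng at hlong
  rw [hnd, List.length_append, ← hj] at hlong
  set n := nd b w with hn
  set l := Nat.log 3 n with hl'
  have hpnn : ∀ i a, 0 ≤ p i a := hc.wt.nn
  have hK0 : (0 : ℝ) < K0 := by exact_mod_cast hl.K00
  have hy0 : (0 : ℝ) < y := by
    have : 0 < y := by omega
    exact_mod_cast this
  have hz : (0 : ℝ) < 1 - 1 / (y : ℝ) := by
    rw [sub_pos, div_lt_one hy0]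
    have : 1 < y := by omega
    exact_mod_cast this
  -- the logarithm of the exit
  have h4 : K0 * l < K0 * i + j := by omega
  have h5 : (l : ℝ) ≤ i + (j : ℝ) / K0 := by
    have h6 : ((K0 * l : ℕ) : ℝ) ≤ ((K0 * i + j : ℕ) : ℝ) := by exact_mod_cast h4.le
    push_cast at h6
    have h7 : (K0 : ℝ) * (i + (j : ℝ) / K0) = K0 * i + j := by
      field_simp
    rw [← h7] at h6
    exact le_of_mul_le_mul_left h6 hK0
  have h8 : (n : ℝ) ≤ (3 : ℝ) ^ ((i : ℝ) + 1 + (j : ℝ) / K0) := by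
    have h9 : n < 3 ^ (l + 1) := Nat.lt_pow_succ_log_self (by norm_num) n
    have h10 : (n : ℝ) ≤ (3 : ℝ) ^ ((l + 1 : ℕ) : ℝ) := by
      rw [Real.rpow_natCast]
      exact_mod_cast h9.le
    refine h10.trans (Real.rpow_le_rpow_of_exponent_le (by norm_num) ?_)
    push_cast
    linarith
  have hb1 : 1 ≤ b := nd_pos hm hvu.1
  have h11 : (3 : ℝ) ^ i ≤ b := by
    have h12 : 3 ^ i ≤ b := Nat.pow_log_le_self 3 (by omega)
    exact_mod_cast h12
  have hg : 0 < pr gro b w := pr_gro_pos b w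
  have h13 : (1 - 1 / (y : ℝ)) ^ j * (pr gro b w * 3 ^ i) ≤ n :=
    le_trans (mul_le_mul_of_nonneg_left (mul_le_mul_of_nonneg_left h11 hg.le)
      (pow_nonneg hz.le _)) (nd_ge (by omega) hbm hvu.2 hyb)
  have h14 : 0 < (1 - 1 / (y : ℝ)) ^ j * (pr gro b w * 3 ^ i) := by positivity
  have h15 : 1 ≤ (3 : ℝ) ^ ((i : ℝ) + 1 + (j : ℝ) / K0) /
      ((1 - 1 / (y : ℝ)) ^ j * (pr gro b w * 3 ^ i)) := by
    rw [one_le_div h14]
    exact h13.trans h8
  have h16 := Real.one_le_rpow h15 hl.th0.le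
  have h17 : mu * pr p a (u ++ w) = mu * pr p a u * pr p b w := by
    rw [pr_append, mul_assoc]
  rw [h17]
  have h18 : mu * pr p a u * pr p b w ≤ (3 : ℝ) ^ (-(shi * (i : ℝ))) * pr p b w :=
    mul_le_mul_of_nonneg_right h1 (pr_nn hpnn _ _)
  refine h18.trans (le_mul_of_one_le_right ?_ h16)
  exact mul_nonneg (Real.rpow_nonneg (by norm_num) _) (pr_nn hpnn _ _)

open Classical in
theorem k4 (hc : Cert N t slo shi llo lhi p) {th lth : ℝ} {K0 : ℕ}
    (hl : CertL N shi th lth K0 p) {S : Finset ℕ} {s : ℕ} (hb : Base S s) {mu : ℝ}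
    (hmu : 0 < mu) (hmu1 : mu ≤ 1) {y : ℕ} (hy : 3 ≤ y) {E : ℕ → ℝ} {i2 L0 D0 D1 : ℕ}
    (hE : ∀ i, i2 ≤ i → E i = shi) (hL : ∀ a ∈ S, Nat.log 3 a ≤ L0)
    {d : ℝ} (hd0 : 0 < d) (hd1 : d < 1) (hd : ∀ i a, p i a ≤ 1 - d)
    (hD0 : (1 - d) ^ D0 < 1 / 3 ^ (2 * i2)) (hD1 : D0 + i2 + 8 ≤ D1) (hD2 : L0 ≤ D1)
    (Q : ℕ → List ℕ → Prop) (hQ : ∀ a v, Lng D1 K0 a v → Q a v) (D : ℕ) :
    ∃ n : ℕ, ∑ x ∈ (exs p mu y E Q S D).filter
      (fun x => ¬ Bad p mu y E x.1 x.2 ∧ Lng D1 K0 x.1 x.2), mu * pr p x.1 x.2 ≤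
      ∑ i ∈ Ico i2 n, KD p shi th K0 y i := by
  set F := (exs p mu y E Q S D).filter
    (fun x => ¬ Bad p mu y E x.1 x.2 ∧ Lng D1 K0 x.1 x.2) with hF
  have hsp : ∀ x : ℕ × List ℕ, ∃ u w : List ℕ, x ∈ F → (x.2 = u ++ w ∧
      (∀ j < w.length, y ≤ nd (nd x.1 u) (w.take j)) ∧ 0 < w.length ∧
      mu * pr p x.1 u ≤
        (3 : ℝ) ^ (-(E (Nat.log 3 (nd x.1 u)) * (Nat.log 3 (nd x.1 u) : ℝ))) ∧
      1 / (nd x.1 u : ℝ) ^ 2 ≤ mu * pr p x.1 u ∧
      u.length ≤ D1 + K0 * Nat.log 3 (nd x.1 u) ∧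
      Nat.log 3 (nd x.1 u) ≤ w.length ∧ w.length ≤ Nat.log 3 (nd x.1 u) + 8) := by
    intro x
    by_cases hx : x ∈ F
    · have hx' := hx
      rw [hF, mem_filter] at hx
      obtain ⟨hx1, hx2, hx3⟩ := hx
      unfold exs at hx1
      rw [mem_filter, mem_product] at hx1
      obtain ⟨⟨hS, -⟩, hV, hI⟩ := hx1
      have hyn : y ≤ nd x.1 x.2 := by
        unfold Bad at hx2
        push Not at hx2
        exact hx2.1
      have hbal : Bal x.1 x.2 := by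
        refine ⟨x.2.length, le_rfl, ?_⟩
        rw [Nat.sub_self, List.take_zero]
        have h1 : nd x.1 [] = x.1 := rfl
        rw [h1]
        have h2 := hL _ hS
        unfold Lng at hx3
        omega
      obtain ⟨u, w, h⟩ := K4_split (p := p) (mu := mu) (E := E) hy hQ (hb.mod _ hS) hV
        hI.2 hyn hbal
      exact ⟨u, w, fun _ => h⟩
    · exact ⟨[], [], fun h => absurd h hx⟩
  choose u w huw using hsp
  have hmemF : ∀ x ∈ F, x.1 ∈ S ∧ Vd x.1 x.2 ∧ Lng D1 K0 x.1 x.2 := by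
    intro x hx
    rw [hF, mem_filter] at hx
    obtain ⟨hx1, hx2, hx3⟩ := hx
    unfold exs at hx1
    rw [mem_filter, mem_product] at hx1
    exact ⟨hx1.1.1, hx1.2.1, hx3⟩
  have hlarge : ∀ x ∈ F, i2 ≤ Nat.log 3 (nd x.1 (u x)) := by
    intro x hx
    obtain ⟨hS, hV, hLn⟩ := hmemF x hx
    obtain ⟨e, -, -, -, h5, -, -, h8⟩ := huw x hx
    rw [e] at hV hLn
    exact K4_large hc hmu hmu1 hd0 hd1 hd hD0 hD1 (hb.mod _ hS) ((Vd_append _ _ _).1 hV).1
      hLn h5 h8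
  set n := F.sup (fun x => Nat.log 3 (nd x.1 (u x))) + 1 with hn
  refine ⟨n, ?_⟩
  -- the sum of the blocks as one sum
  set T : Finset (Σ _ : ℕ, Σ _ : ℕ, Σ _ : ℕ, List ℕ) := (Ico i2 n).sigma
    (fun i => ((range (3 ^ (i + 1))).filter (fun b => b % 3 = 2)).sigma
      (fun _ => (Icc i (i + 8)).sigma (fun j => wd j))) with hT
  set f : (Σ _ : ℕ, Σ _ : ℕ, Σ _ : ℕ, List ℕ) → ℝ := fun z =>
    (3 : ℝ) ^ (-(shi * (z.1 : ℝ))) * pr p z.2.1 z.2.2.2 *
      ((3 : ℝ) ^ ((z.1 : ℝ) + 1 + (z.2.2.1 : ℝ) / K0) /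
        ((1 - 1 / (y : ℝ)) ^ z.2.2.1 * (pr gro z.2.1 z.2.2.2 * 3 ^ z.1))) ^ th with hf
  have hsum : ∑ i ∈ Ico i2 n, KD p shi th K0 y i = ∑ z ∈ T, f z := by
    rw [hT, sum_sigma]
    refine sum_congr rfl fun i _ => ?_
    rw [sum_sigma]
    unfold KD
    refine sum_congr rfl fun b _ => ?_
    rw [sum_sigma]
  rw [hsum]
  set Ψ : ℕ × List ℕ → (Σ _ : ℕ, Σ _ : ℕ, Σ _ : ℕ, List ℕ) := fun x =>
    ⟨Nat.log 3 (nd x.1 (u x)), nd x.1 (u x), (w x).length, w x⟩ with hΨ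
  have hpnn : ∀ i a, 0 ≤ p i a := hc.wt.nn
  have hz : (0 : ℝ) ≤ 1 - 1 / (y : ℝ) := by
    have hy0 : (0 : ℝ) < y := by
      have : 0 < y := by omega
      exact_mod_cast this
    rw [sub_nonneg, div_le_one hy0]
    have : 1 ≤ y := by omega
    exact_mod_cast this
  have hfnn : ∀ z, 0 ≤ f z := by
    intro z
    rw [hf]
    have h1 := pr_nn hpnn z.2.1 z.2.2.2
    have h2 := (pr_gro_pos z.2.1 z.2.2.2).le
    have h3 : (0 : ℝ) ≤ (1 - 1 / (y : ℝ)) ^ z.2.2.1 := pow_nonneg hz _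
    have h4 : (0 : ℝ) ≤ (3 : ℝ) ^ ((z.1 : ℝ) + 1 + (z.2.2.1 : ℝ) / K0) /
        ((1 - 1 / (y : ℝ)) ^ z.2.2.1 * (pr gro z.2.1 z.2.2.2 * 3 ^ z.1)) :=
      div_nonneg (Real.rpow_nonneg (by norm_num) _)
        (mul_nonneg h3 (mul_nonneg h2 (by positivity)))
    exact mul_nonneg (mul_nonneg (Real.rpow_nonneg (by norm_num) _) h1) (Real.rpow_nonneg h4 _)
  have hinj : ∀ x ∈ F, ∀ x' ∈ F, Ψ x = Ψ x' → x = x' := by
    intro x hx x' hx' h
    rw [hΨ] at h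
    simp only [Sigma.mk.injEq, heq_eq_eq] at h
    obtain ⟨-, h2, -, h4⟩ := h
    obtain ⟨hS, hV, -⟩ := hmemF x hx
    obtain ⟨hS', hV', -⟩ := hmemF x' hx'
    obtain ⟨e, -⟩ := huw x hx
    obtain ⟨e', -⟩ := huw x' hx'
    rw [e] at hV
    rw [e'] at hV'
    obtain ⟨e1, e2⟩ := hb.inj _ hS _ hS' _ _ ((Vd_append _ _ _).1 hV).1
      ((Vd_append _ _ _).1 hV').1 h2
    refine Prod.ext e1 ?_
    rw [e, e', e2, h4]
  calc ∑ x ∈ F, mu * pr p x.1 x.2 ≤ ∑ x ∈ F, f (Ψ x) := by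
        refine sum_le_sum fun x hx => ?_
        obtain ⟨hS, hV, hB⟩ := hmemF x hx
        obtain ⟨e, h1, -, h3, -, h5, -, -⟩ := huw x hx
        have hi := hlarge x hx
        rw [hE _ hi] at h3
        rw [e] at hV hB
        have := K4_term hc hl hy (hb.mod _ hS) hV hB h1 h3 h5
        rw [← e] at this
        exact this
    _ = ∑ z ∈ F.image Ψ, f z := (sum_image (fun x hx x' hx' h => hinj x hx x' hx' h)).symm
    _ ≤ ∑ z ∈ T, f z := by
        refine sum_le_sum_of_subset_of_nonneg ?_ (fun z _ _ => hfnn z)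
        intro z hz
        rw [mem_image] at hz
        obtain ⟨x, hx, rfl⟩ := hz
        obtain ⟨hS, hV, hB⟩ := hmemF x hx
        obtain ⟨e, -, -, -, -, -, h7, h8⟩ := huw x hx
        rw [e] at hV
        have hV1 := (Vd_append _ _ _).1 hV
        rw [hT, hΨ]
        simp only [mem_sigma, mem_Ico, mem_filter, mem_range, mem_Icc]
        refine ⟨⟨hlarge x hx, ?_⟩, ⟨Nat.lt_pow_succ_log_self (by norm_num) _,
          nd_mod (hb.mod _ hS) hV1.1⟩, ⟨h7, h8⟩, mem_wd.2 ⟨rfl, fun i hi => ?_⟩⟩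
        · rw [hn]
          exact Nat.lt_succ_of_le (le_sup (f := fun x => Nat.log 3 (nd x.1 (u x))) hx)
        · exact Vd_lt hV1.2 i hi

end Pool.Agent.helper82.K3X
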