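import Pool.Agent.helper82.K3X.AsA
import Pool.Agent.helper82.K3X.K4

/-!
# K3X-AsC: the total mass of the bad or long exits is at most three quarters
-/

namespace Pool.Agent.helper82.K3X

open Finset

variable {N t : ℕ} {slo shi llo lhi : ℝ} {p : ℕ → ℕ → ℝ}

open Classical in
theorem AsC_split (mu : ℝ) (f : ℕ × List ℕ → ℝ) (T : Finset (ℕ × List ℕ))
    (A B : ℕ × List ℕ → Prop) :
    ∑ x ∈ T.filter (fun x => A x ∨ B x), mu * f x =
      ∑ x ∈ T.filter (fun x => A x), mu * f x + ∑ x ∈ T.filter (fun x => ¬ A x ∧ B x), mu * f x := by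
  simp only [Finset.sum_filter]
  rw [← Finset.sum_add_distrib]
  refine Finset.sum_congr rfl fun x _ => ?_
  by_cases hA : A x
  · simp [hA]
  · by_cases hB : B x <;> simp [hA, hB]

open Classical in
theorem bad_long (hc : Cert N t slo shi llo lhi p) {th lth : ℝ} {K0 : ℕ}
    (hl : CertL N shi th lth K0 p) (Y0 : ℕ) :
    ∃ (s : ℕ) (S : Finset ℕ) (y : ℕ) (E : ℕ → ℝ) (D1 : ℕ), Base S s ∧ 3 ≤ y ∧ Y0 ≤ y ∧
      (∃ i1, ∀ i, i1 ≤ i → E i = shi) ∧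
      ∀ Q : ℕ → List ℕ → Prop, (∀ a v, Lng D1 K0 a v → Q a v) → ∀ D : ℕ,
        ∑ x ∈ (exs p ((1 / 2) ^ s) y E Q S D).filter
          (fun x => Bad p ((1 / 2) ^ s) y E x.1 x.2 ∨ Lng D1 K0 x.1 x.2),
          (1 / 2) ^ s * pr p x.1 x.2 ≤ 3 / 4 := by
  obtain ⟨d, hd0, hd1, hd⟩ := hc.le
  obtain ⟨K, dl, y0, hK, hdl, hKD⟩ := KD_bound hc hl
  obtain ⟨s, S, y, E, hS, hy3, hyY, ⟨i1, hi1⟩, hhalf⟩ := bad_half hc (max Y0 y0)
  have hyY0 : Y0 ≤ y := (le_max_left _ _).trans hyY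
  have hyy0 : y0 ≤ y := (le_max_right _ _).trans hyY
  set r : ℝ := (3 : ℝ) ^ (-dl) with hr
  have hr0 : 0 < r := Real.rpow_pos_of_pos (by norm_num) _
  have hr1 : r < 1 := Real.rpow_lt_one_of_one_lt_of_neg (by norm_num) (by linarith)
  have hpow : ∀ i : ℕ, (3 : ℝ) ^ (-(dl * (i : ℝ))) = r ^ i := by
    intro i
    rw [hr, ← Real.rpow_natCast, ← Real.rpow_mul (by norm_num)]
    congr 1
    ring
  have hl2 : Filter.Tendsto (fun i : ℕ => K * (r ^ i / (1 - r))) Filter.atTop (nhds 0) := by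
    have h1 := tendsto_pow_atTop_nhds_zero_of_lt_one hr0.le hr1
    have h2 := (h1.div_const (1 - r)).const_mul K
    simpa using h2
  obtain ⟨i2, hi2a, hi2b⟩ :=
    ((hl2.eventually (gt_mem_nhds (show (0 : ℝ) < 1 / 4 by norm_num))).and
      (Filter.eventually_ge_atTop i1)).exists
  obtain ⟨D0, hD0⟩ := exists_pow_lt_of_lt_one
    (show (0 : ℝ) < 1 / 3 ^ (2 * i2) by positivity) (show 1 - d < 1 by linarith)
  refine ⟨s, S, y, E, D0 + i2 + 8 + LL s, hS, hy3, hyY0, ⟨i1, hi1⟩, fun Q hQ D => ?_⟩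
  have hmu : (0 : ℝ) < (1 / 2) ^ s := by positivity
  have hmu1 : (1 / 2 : ℝ) ^ s ≤ 1 := pow_le_one₀ (by norm_num) (by norm_num)
  obtain ⟨n, hn⟩ := k4 hc hl hS hmu hmu1 hy3 (i2 := i2) (L0 := LL s) (D0 := D0)
    (D1 := D0 + i2 + 8 + LL s) (fun i hi => hi1 i (hi2b.trans hi)) (LL_ge hS) hd0 hd1 hd hD0
    (by omega) (by omega) Q hQ D
  have h1 := hhalf Q D
  have h2 : ∑ i ∈ Ico i2 n, KD p shi th K0 y i ≤ 1 / 4 := by
    calc ∑ i ∈ Ico i2 n, KD p shi th K0 y i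
        ≤ ∑ i ∈ Ico i2 n, K * r ^ i :=
          Finset.sum_le_sum fun i _ => (hKD y hyy0 i).trans (by rw [hpow])
      _ = K * ∑ i ∈ Ico i2 n, r ^ i := by rw [Finset.mul_sum]
      _ ≤ K * (r ^ i2 / (1 - r)) :=
          mul_le_mul_of_nonneg_left (geom_sum_Ico_le_of_lt_one hr0.le hr1) hK.le
      _ ≤ 1 / 4 := hi2a.le
  have h3 := AsC_split ((1 / 2 : ℝ) ^ s) (fun x : ℕ × List ℕ => pr p x.1 x.2)
    (exs p ((1 / 2) ^ s) y E Q S D) (fun x => Bad p ((1 / 2) ^ s) y E x.1 x.2)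
    (fun x => Lng (D0 + i2 + 8 + LL s) K0 x.1 x.2)
  rw [h3]
  linarith

end Pool.Agent.helper82.K3X
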