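import Pool.Agent.helper82.K3X.AsC
import Pool.Agent.helper82.K3X.AsB

/-!
# K3X-AsD: the count, with explicit constants
-/

namespace Pool.Agent.helper82.K3X

open Finset Filter Pool.Agent.helper41.Coll

variable {N t : ℕ} {slo shi llo lhi : ℝ} {p : ℕ → ℕ → ℝ}

/-- The stopping predicate. -/
def AsD_Q (D1 K0 X : ℕ) (a : ℕ) (v : List ℕ) : Prop := X ≤ nd a v ∨ Lng D1 K0 a v

/-- At depth `D` every word of positive mass has an exit. -/
theorem AsD_depth (hc : Cert N t slo shi llo lhi p) {S : Finset ℕ} {s : ℕ} (hb : Base S s) (y : ℕ)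
    (E : ℕ → ℝ) (D1 K0 X : ℕ) {d : ℝ} (hd : ∀ i a, p i a ≤ 1 - d) (D : ℕ)
    (hD : (1 - d) ^ D < 1 / (X : ℝ) ^ 2) :
    ∀ a ∈ S, ∀ v ∈ wd D, pr p a v ≠ 0 →
      ∃ j ≤ D, Ext p ((1 / 2) ^ s) y E (AsD_Q D1 K0 X) a (v.take j) := by
  intro a ha v hv hpr
  obtain ⟨j, hj, h⟩ := AsB_depth hc hb y E X hd D hD a ha v hv hpr
  refine ⟨j, hj, ?_⟩
  rcases h with h | h
  · exact Or.inl h
  · exact Or.inr (Or.inl h)

/-- The facts on a good exit. -/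
theorem AsD_good (hc : Cert N t slo shi llo lhi p) {S : Finset ℕ} {s : ℕ} (hb : Base S s) {y : ℕ}
    (hy : 1 ≤ y) {E : ℕ → ℝ} {i1 : ℕ} (hE : ∀ i, i1 ≤ i → E i = shi) {D1 K0 X : ℕ} (hX3 : 3 ≤ X)
    (hXi : 3 ^ i1 ≤ X) (hXs : 5 * (64 / 3 : ℝ) ^ s < X) {D a : ℕ} {v : List ℕ}
    (hx : (a, v) ∈ exs p ((1 / 2) ^ s) y E (AsD_Q D1 K0 X) S D)
    (hbd : ¬ (Bad p ((1 / 2) ^ s) y E a v ∨ Lng D1 K0 a v)) :
    a ∈ S ∧ Vd a v ∧ X ≤ nd a v ∧ nd a v < 6561 * X ∧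
      (1 / 2 : ℝ) ^ s * pr p a v ≤ ((X : ℝ) / 3) ^ (-shi) ∧
      v.length ≤ D1 + K0 * Nat.log 3 (nd a v) ∧
      (1 - 1 / (y : ℝ)) ^ v.length * pr gro a v ≤ nd a v := by
  classical
  rw [exs, mem_filter, mem_product] at hx
  obtain ⟨⟨ha, hv⟩, hVd, hE1, hE2⟩ := hx
  have ha' : a ∈ S := ha
  have hVd' : Vd a v := hVd
  have hbd1 : ¬ Bad p ((1 / 2) ^ s) y E a v := fun h => hbd (Or.inl h)
  have hbd2 : ¬ Lng D1 K0 a v := fun h => hbd (Or.inr h)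
  have hXn : X ≤ nd a v := by
    rcases hE1 with h | h | h
    · exact absurd h hbd1
    · exact h
    · exact absurd h hbd2
  have hlt : ∀ i ∈ v, i < 7 := Vd_lt hVd'
  have hup : nd a v < 6561 * X := by
    rcases List.eq_nil_or_concat v with h | ⟨u, i, h⟩
    · exfalso
      subst h
      have h1 : (a : ℝ) ≤ 5 * (64 / 3) ^ s := hb.le a ha'
      have h2 : X ≤ a := hXn
      have h3 : (X : ℝ) ≤ (a : ℝ) := by exact_mod_cast h2
      linarith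
    · rw [List.concat_eq_append] at h
      subst h
      have h1 : ¬ Ext p ((1 / 2) ^ s) y E (AsD_Q D1 K0 X) a ((u ++ [i]).take u.length) :=
        hE2 u.length (by simp)
      rw [List.take_left] at h1
      have h2 : nd a u < X := by
        by_contra hcon
        exact h1 (Or.inr (Or.inl (not_lt.1 hcon)))
      have h3 : nd a (u ++ [i]) = nxt i (nd a u) := by
        rw [nd_append]
        rfl
      have hi : i < 7 := hlt i (by simp)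
      have h4 : (nxt i (nd a u) : ℝ) ≤ gro i (nd a u) * (nd a u : ℝ) := nxt_le i (nd a u)
      have h5 : gro i (nd a u) ≤ 6561 := gro_le hi (nd a u)
      have h6 : (nd a u : ℝ) < (X : ℝ) := by exact_mod_cast h2
      have h7 : (0 : ℝ) ≤ (nd a u : ℝ) := Nat.cast_nonneg _
      have h8 : (nxt i (nd a u) : ℝ) < 6561 * (X : ℝ) := by
        calc (nxt i (nd a u) : ℝ) ≤ gro i (nd a u) * (nd a u : ℝ) := h4
          _ ≤ 6561 * (nd a u : ℝ) := mul_le_mul_of_nonneg_right h5 h7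
          _ < 6561 * (X : ℝ) := by linarith
      rw [h3]
      exact_mod_cast h8
  have hB2 : ¬ ((3 : ℝ) ^ (-(E (Nat.log 3 (nd a v)) * (Nat.log 3 (nd a v) : ℝ))) <
      (1 / 2) ^ s * pr p a v) := fun h => hbd1 (Or.inr (Or.inl h))
  refine ⟨ha', hVd', hXn, hup, ?_, not_lt.1 hbd2, ?_⟩
  · have hl : i1 ≤ Nat.log 3 (nd a v) := by
      apply Nat.le_log_of_pow_le (by norm_num)
      exact le_trans hXi hXn
    rw [hE _ hl] at hB2
    have hB2' := not_lt.1 hB2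
    refine le_trans hB2' ?_
    have hlog : nd a v < 3 ^ (Nat.log 3 (nd a v) + 1) := Nat.lt_pow_succ_log_self (by norm_num) _
    have h1 : (X : ℝ) / 3 ≤ (3 : ℝ) ^ (Nat.log 3 (nd a v)) := by
      have h2 : (X : ℝ) < (3 : ℝ) ^ (Nat.log 3 (nd a v) + 1) := by
        have : X < 3 ^ (Nat.log 3 (nd a v) + 1) := lt_of_le_of_lt hXn hlog
        exact_mod_cast this
      rw [pow_succ] at h2
      linarith
    have hXpos : (0 : ℝ) < (X : ℝ) / 3 := by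
      have : (3 : ℝ) ≤ (X : ℝ) := by exact_mod_cast hX3
      linarith
    have hshi : 0 ≤ shi := le_trans hc.slo0.le hc.slohi.le
    have h3 : (3 : ℝ) ^ (-(shi * (Nat.log 3 (nd a v) : ℝ))) =
        ((3 : ℝ) ^ (Nat.log 3 (nd a v))) ^ (-shi) := by
      rw [← Real.rpow_natCast, ← Real.rpow_mul (by norm_num)]
      congr 1
      ring
    rw [h3]
    exact Real.rpow_le_rpow_of_nonpos hXpos h1 (by linarith)
  · have h1 := nd_ge hy (hb.mod a ha') hVd' (fun j hj => by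
      by_contra hcon
      exact hE2 j hj (Or.inl (Or.inl (not_le.1 hcon))))
    refine le_trans ?_ h1
    have h2 : (1 : ℝ) ≤ (a : ℝ) := by exact_mod_cast hb.pos a ha'
    have h3 : (0 : ℝ) < pr gro a v := pr_gro_pos a v
    have h4 : (1 : ℝ) / (y : ℝ) ≤ 1 := by
      rw [div_le_one (by exact_mod_cast hy)]
      exact_mod_cast hy
    have h5 : (0 : ℝ) ≤ (1 - 1 / (y : ℝ)) ^ v.length := pow_nonneg (by linarith) _
    refine mul_le_mul_of_nonneg_left ?_ h5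
    nlinarith

open Classical in
/-- The number of good exits. -/
theorem AsD_card (hc : Cert N t slo shi llo lhi p) {S : Finset ℕ} {s : ℕ} (hb : Base S s) {y : ℕ}
    (hy : 1 ≤ y) {E : ℕ → ℝ} {i1 : ℕ} (hE : ∀ i, i1 ≤ i → E i = shi) {D1 K0 X : ℕ} (hX3 : 3 ≤ X)
    (hXi : 3 ^ i1 ≤ X) (hXs : 5 * (64 / 3 : ℝ) ^ s < X) {D : ℕ}
    (hD : ∀ a ∈ S, ∀ v ∈ wd D, pr p a v ≠ 0 →
      ∃ j ≤ D, Ext p ((1 / 2) ^ s) y E (AsD_Q D1 K0 X) a (v.take j))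
    (hbad : ∑ x ∈ (exs p ((1 / 2) ^ s) y E (AsD_Q D1 K0 X) S D).filter
      (fun x => Bad p ((1 / 2) ^ s) y E x.1 x.2 ∨ Lng D1 K0 x.1 x.2),
      (1 / 2) ^ s * pr p x.1 x.2 ≤ 3 / 4) :
    1 / 4 * ((X : ℝ) / 3) ^ shi ≤ (((exs p ((1 / 2) ^ s) y E (AsD_Q D1 K0 X) S D).filter
      (fun x => ¬ (Bad p ((1 / 2) ^ s) y E x.1 x.2 ∨ Lng D1 K0 x.1 x.2))).card : ℝ) := by
  have h1 := exs_sum hc hb y E (AsD_Q D1 K0 X) D hD
  rw [← sum_filter_add_sum_filter_not (exs p ((1 / 2) ^ s) y E (AsD_Q D1 K0 X) S D)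
    (fun x => Bad p ((1 / 2) ^ s) y E x.1 x.2 ∨ Lng D1 K0 x.1 x.2)] at h1
  have h2 : ∑ x ∈ (exs p ((1 / 2) ^ s) y E (AsD_Q D1 K0 X) S D).filter
      (fun x => ¬ (Bad p ((1 / 2) ^ s) y E x.1 x.2 ∨ Lng D1 K0 x.1 x.2)),
      (1 / 2) ^ s * pr p x.1 x.2 ≤
      ∑ x ∈ (exs p ((1 / 2) ^ s) y E (AsD_Q D1 K0 X) S D).filter
      (fun x => ¬ (Bad p ((1 / 2) ^ s) y E x.1 x.2 ∨ Lng D1 K0 x.1 x.2)),
      ((X : ℝ) / 3) ^ (-shi) := by
    apply sum_le_sum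
    rintro ⟨a, v⟩ hx
    rw [mem_filter] at hx
    exact (AsD_good hc hb hy hE hX3 hXi hXs hx.1 hx.2).2.2.2.2.1
  rw [sum_const, nsmul_eq_mul] at h2
  have hXpos : (0 : ℝ) < (X : ℝ) / 3 := by
    have : (3 : ℝ) ≤ (X : ℝ) := by exact_mod_cast hX3
    linarith
  have hP : (0 : ℝ) < ((X : ℝ) / 3) ^ shi := Real.rpow_pos_of_pos hXpos _
  rw [Real.rpow_neg hXpos.le] at h2
  have h3 : (1 : ℝ) / 4 ≤ (((exs p ((1 / 2) ^ s) y E (AsD_Q D1 K0 X) S D).filter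
      (fun x => ¬ (Bad p ((1 / 2) ^ s) y E x.1 x.2 ∨ Lng D1 K0 x.1 x.2))).card : ℝ) *
      (((X : ℝ) / 3) ^ shi)⁻¹ := by
    linarith
  calc 1 / 4 * ((X : ℝ) / 3) ^ shi ≤ ((((exs p ((1 / 2) ^ s) y E (AsD_Q D1 K0 X) S D).filter
      (fun x => ¬ (Bad p ((1 / 2) ^ s) y E x.1 x.2 ∨ Lng D1 K0 x.1 x.2))).card : ℝ) *
      (((X : ℝ) / 3) ^ shi)⁻¹) * ((X : ℝ) / 3) ^ shi := mul_le_mul_of_nonneg_right h3 hP.le
    _ = _ := by
      rw [mul_assoc, inv_mul_cancel₀ hP.ne', mul_one]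

/-- `K log_3 n + C <= k log n` for large `n` if `K / log 3 < k`. -/
theorem AsD_lin {K k C : ℝ} (hk : K / Real.log 3 < k) (hK : 0 ≤ K) :
    ∃ X0 : ℕ, ∀ n : ℕ, X0 ≤ n → C + K * (Nat.log 3 n : ℝ) ≤ k * Real.log n := by
  have hl3 : 0 < Real.log 3 := Real.log_pos (by norm_num)
  have hlim : Tendsto (fun n : ℕ => Real.log (n : ℝ)) atTop atTop :=
    Real.tendsto_log_atTop.comp tendsto_natCast_atTop_atTop
  have h1 : 0 < k - K / Real.log 3 := by linarith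
  have h2 := (hlim.eventually_ge_atTop (C / (k - K / Real.log 3))).and (eventually_ge_atTop 1)
  obtain ⟨X0, hX0⟩ := eventually_atTop.1 h2
  refine ⟨X0, fun n hn => ?_⟩
  obtain ⟨h3, h4⟩ := hX0 n hn
  rw [div_le_iff₀ h1] at h3
  have h5 : (Nat.log 3 n : ℝ) * Real.log 3 ≤ Real.log n := by
    have h6 : 3 ^ (Nat.log 3 n) ≤ n := Nat.pow_log_le_self 3 (by omega)
    have h7 : (3 : ℝ) ^ (Nat.log 3 n) ≤ (n : ℝ) := by exact_mod_cast h6
    have h8 := Real.log_le_log (by positivity) h7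
    rwa [Real.log_pow] at h8
  have h9 : K * (Nat.log 3 n : ℝ) ≤ K / Real.log 3 * Real.log n := by
    rw [div_mul_eq_mul_div, le_div_iff₀ hl3]
    nlinarith [mul_le_mul_of_nonneg_left h5 hK]
  linarith

/-- The logarithmic loss is small for large `y`. -/
theorem AsD_eps {e : ℝ} (he : 0 < e) :
    ∃ Y0 : ℕ, 2 ≤ Y0 ∧ ∀ y : ℕ, Y0 ≤ y → -Real.log (1 - 1 / (y : ℝ)) ≤ e := by
  have h1 : Tendsto (fun y : ℕ => -Real.log (1 - 1 / (y : ℝ))) atTop (nhds 0) := by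
    have h2 : Tendsto (fun y : ℕ => (1 : ℝ) - 1 / (y : ℝ)) atTop (nhds (1 - 0)) :=
      tendsto_const_nhds.sub tendsto_one_div_atTop_nhds_zero_nat
    rw [sub_zero] at h2
    have h3 := (h2.log (by norm_num)).neg
    simpa using h3
  obtain ⟨Y0, hY0⟩ := eventually_atTop.1 (h1.eventually (gt_mem_nhds he))
  exact ⟨max 2 Y0, le_max_left _ _, fun y hy => (hY0 y (le_trans (le_max_right _ _) hy)).le⟩

/-- The number of steps. -/
theorem AsD_steps {a n y : ℕ} {v : List ℕ} (hy : 2 ≤ y) (hn : 1 ≤ n) {e : ℝ}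
    (he : -Real.log (1 - 1 / (y : ℝ)) ≤ e)
    (h : (1 - 1 / (y : ℝ)) ^ v.length * pr gro a v ≤ n) :
    (st a v : ℝ) * Real.log 2 ≤ (v.length : ℝ) * (Real.log 3 + e) + Real.log n := by
  have hy' : (2 : ℝ) ≤ (y : ℝ) := by exact_mod_cast hy
  have h1 : (1 : ℝ) / (y : ℝ) ≤ 1 / 2 := one_div_le_one_div_of_le (by norm_num) hy'
  have h2 : (0 : ℝ) < 1 - 1 / (y : ℝ) := by linarith
  have h3 : (0 : ℝ) < pr gro a v := pr_gro_pos a v
  have hn' : (0 : ℝ) < (n : ℝ) := by exact_mod_cast hn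
  have h4 := Real.log_le_log (by positivity) h
  rw [Real.log_mul (by positivity) h3.ne', Real.log_pow] at h4
  have h5 := two_pow_st a v
  have h6 : Real.log ((2 : ℝ) ^ st a v) = Real.log (3 ^ v.length * pr gro a v) := by rw [h5]
  rw [Real.log_mul (by positivity) h3.ne', Real.log_pow, Real.log_pow] at h6
  have h7 : (v.length : ℝ) * (-Real.log (1 - 1 / (y : ℝ))) ≤ (v.length : ℝ) * e :=
    mul_le_mul_of_nonneg_left he (Nat.cast_nonneg _)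
  linarith

open Classical in
theorem count2 (hc : Cert N t slo shi llo lhi p) {th lth : ℝ} {K0 : ℕ}
    (hl : CertL N shi th lth K0 p) {kc ks : ℝ} (hkc : (K0 : ℝ) / Real.log 3 < kc)
    (hks : ((K0 : ℝ) + 1) / Real.log 2 < ks) :
    ∃ (c : ℝ) (X0 : ℕ), 0 < c ∧ ∀ X : ℕ, X0 ≤ X →
      c * (X : ℝ) ^ shi ≤ (((range (6561 * X)).filter
        (fun n => X ≤ n ∧ (∃ m : ℕ, HasC n m ∧ (m : ℝ) ≤ kc * Real.log n) ∧
          ∃ j : ℕ, f^[j] n = 1 ∧ (j : ℝ) ≤ ks * Real.log n)).card : ℝ) := by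
  have hl2 : 0 < Real.log 2 := Real.log_pos (by norm_num)
  have hl3 : 0 < Real.log 3 := Real.log_pos (by norm_num)
  have hK0 : (0 : ℝ) < (K0 : ℝ) := by exact_mod_cast hl.K00
  -- the loss
  set e : ℝ := (ks * Real.log 2 - (K0 + 1)) / 2 / (K0 / Real.log 3) with hedef
  have hg : 0 < ks * Real.log 2 - (K0 + 1) := by
    rw [div_lt_iff₀ hl2] at hks
    linarith
  have he : 0 < e := by positivity
  obtain ⟨Y0, hY2, hY0⟩ := AsD_eps he
  obtain ⟨s, S, y, E, D1, hb, hy3, hyY, ⟨i1, hE⟩, hbad⟩ := bad_long hc hl Y0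
  obtain ⟨T0, hT0⟩ := hb.steps
  obtain ⟨d, hd0, hd1, hd⟩ := hc.le
  have hy1 : 1 ≤ y := by omega
  have hy2 : 2 ≤ y := by omega
  have hye := hY0 y hyY
  -- the thresholds
  obtain ⟨X1, hX1⟩ := AsD_lin (K := (K0 : ℝ)) (k := kc) (C := (s : ℝ) + D1 + 1) hkc hK0.le
  have hks' : (K0 : ℝ) * (Real.log 3 + e) / Real.log 3 < ks * Real.log 2 - 1 := by
    have h1 : (K0 : ℝ) * (Real.log 3 + e) / Real.log 3 = K0 + K0 / Real.log 3 * e := by
      field_simp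
    have h2 : (K0 : ℝ) / Real.log 3 * e = (ks * Real.log 2 - (K0 + 1)) / 2 := by
      rw [hedef]
      field_simp
    rw [h1, h2]
    linarith
  obtain ⟨X2, hX2⟩ := AsD_lin (K := (K0 : ℝ) * (Real.log 3 + e)) (k := ks * Real.log 2 - 1)
    (C := (D1 : ℝ) * (Real.log 3 + e) + T0 * Real.log 2) hks' (by positivity)
  refine ⟨1 / 4 * (1 / 3 : ℝ) ^ shi,
    3 + 3 ^ i1 + (⌊5 * (64 / 3 : ℝ) ^ s⌋₊ + 1) + X1 + X2, by positivity, ?_⟩
  intro X hX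
  have hp3 : 0 < 3 ^ i1 := pow_pos (by norm_num) i1
  generalize hfl : ⌊5 * (64 / 3 : ℝ) ^ s⌋₊ = fl at hX
  have hX3 : 3 ≤ X := by omega
  have hXi : 3 ^ i1 ≤ X := by omega
  have hXX1 : X1 ≤ X := by omega
  have hXX2 : X2 ≤ X := by omega
  have hXs : 5 * (64 / 3 : ℝ) ^ s < X := by
    have h1 : 5 * (64 / 3 : ℝ) ^ s < (⌊5 * (64 / 3 : ℝ) ^ s⌋₊ : ℝ) + 1 := Nat.lt_floor_add_one _
    have h2 : ((⌊5 * (64 / 3 : ℝ) ^ s⌋₊ + 1 : ℕ) : ℝ) ≤ (X : ℝ) := by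
      have : ⌊5 * (64 / 3 : ℝ) ^ s⌋₊ + 1 ≤ X := by
        rw [hfl]
        omega
      exact_mod_cast this
    push_cast at h2
    linarith
  have hX0 : (0 : ℝ) < (X : ℝ) := by
    have : 0 < X := by omega
    exact_mod_cast this
  obtain ⟨D, hD⟩ := exists_pow_lt_of_lt_one (show (0 : ℝ) < 1 / (X : ℝ) ^ 2 by positivity)
    (show 1 - d < 1 by linarith)
  have hdep := AsD_depth hc hb y E D1 K0 X hd D hD
  have hcard := AsD_card hc hb hy1 hE hX3 hXi hXs hdep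
    (hbad (AsD_Q D1 K0 X) (fun _ _ h => Or.inr h) D)
  have e1 : 1 / 4 * (1 / 3 : ℝ) ^ shi * (X : ℝ) ^ shi = 1 / 4 * ((X : ℝ) / 3) ^ shi := by
    rw [mul_assoc, ← Real.mul_rpow (by norm_num) hX0.le]
    congr 2
    ring
  rw [e1]
  refine le_trans hcard ?_
  rw [Nat.cast_le]
  apply card_le_card_of_injOn (fun x => nd x.1 x.2)
  · rintro ⟨a, v⟩ hx
    rw [mem_coe, mem_filter] at hx
    obtain ⟨ha, hVd, h1, h2, h3, h4, h5⟩ := AsD_good hc hb hy1 hE hX3 hXi hXs hx.1 hx.2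
    rw [mem_coe, mem_filter, mem_range]
    have hlen : (v.length : ℝ) ≤ (D1 : ℝ) + K0 * (Nat.log 3 (nd a v) : ℝ) := by exact_mod_cast h4
    refine ⟨h2, h1, ?_, ?_⟩
    · obtain ⟨c, hc1, hc2⟩ := hb.circ a ha v hVd
      refine ⟨c, hc1, ?_⟩
      have h6 := hX1 (nd a v) (le_trans hXX1 h1)
      have hc3 : (c : ℝ) ≤ (s : ℝ) + (v.length : ℝ) + 1 := by exact_mod_cast hc2
      show (c : ℝ) ≤ kc * Real.log (nd a v)
      linarith
    · refine ⟨st a v + T0, hT0 a ha v hVd, ?_⟩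
      have h6 := hX2 (nd a v) (le_trans hXX2 h1)
      have h7 := AsD_steps hy2 (by omega : 1 ≤ nd a v) hye h5
      have h8 : (v.length : ℝ) * (Real.log 3 + e) ≤
          ((D1 : ℝ) + K0 * (Nat.log 3 (nd a v) : ℝ)) * (Real.log 3 + e) :=
        mul_le_mul_of_nonneg_right hlen (by positivity)
      have h9 : ((st a v + T0 : ℕ) : ℝ) * Real.log 2 ≤ ks * Real.log (nd a v) * Real.log 2 := by
        push_cast
        nlinarith
      exact le_of_mul_le_mul_right h9 hl2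
  · rintro ⟨a, v⟩ hx ⟨a', v'⟩ hx' hnd
    rw [mem_coe, mem_filter] at hx hx'
    obtain ⟨ha, hVd, -⟩ := AsD_good hc hb hy1 hE hX3 hXi hXs hx.1 hx.2
    obtain ⟨ha', hVd', -⟩ := AsD_good hc hb hy1 hE hX3 hXi hXs hx'.1 hx'.2
    obtain ⟨h1, h2⟩ := hb.inj a ha a' ha' v v' hVd hVd' hnd
    rw [h1, h2]

open Classical in
theorem final2 (hc : Cert N t slo shi llo lhi p) {th lth : ℝ} {K0 : ℕ}
    (hl : CertL N shi th lth K0 p) {kc ks : ℝ} (hkc : (K0 : ℝ) / Real.log 3 < kc)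
    (hks : ((K0 : ℝ) + 1) / Real.log 2 < ks) {sg : ℝ} (h : sg < shi) :
    ∀ᶠ x : ℕ in atTop, (x : ℝ) ^ sg ≤ (((Icc 1 x).filter
        (fun n => (∃ m : ℕ, HasC n m ∧ (m : ℝ) ≤ kc * Real.log n) ∧
          ∃ j : ℕ, f^[j] n = 1 ∧ (j : ℝ) ≤ ks * Real.log n)).card : ℝ) := by
  obtain ⟨c, X0, hcp, hcount⟩ := count2 hc hl hkc hks
  have hlim : Tendsto (fun x : ℕ => ((x : ℝ)) ^ (shi - sg)) atTop atTop :=
    (tendsto_rpow_atTop (by linarith : 0 < shi - sg)).comp tendsto_natCast_atTop_atTop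
  filter_upwards [hlim.eventually_ge_atTop ((13122 : ℝ) ^ shi / c),
    eventually_ge_atTop (6561 * (X0 + 1) + 13122)] with x hx1 hx2
  have hX0 : X0 ≤ x / 6561 := by omega
  have h1 := hcount (x / 6561) hX0
  have hxpos : (0 : ℝ) < (x : ℝ) := by
    have : 0 < x := by omega
    exact_mod_cast this
  have h2 : (x : ℝ) / 13122 ≤ ((x / 6561 : ℕ) : ℝ) := by
    have h3 : x ≤ 13122 * (x / 6561) := by omega
    have h4 : (x : ℝ) ≤ 13122 * ((x / 6561 : ℕ) : ℝ) := by exact_mod_cast h3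
    linarith
  have hshi : 0 < shi := lt_trans hc.slo0 hc.slohi
  have h3 : (x : ℝ) ^ sg ≤ c * (((x / 6561 : ℕ) : ℝ)) ^ shi := by
    have h4 : ((x : ℝ) / 13122) ^ shi ≤ (((x / 6561 : ℕ) : ℝ)) ^ shi :=
      Real.rpow_le_rpow (by positivity) h2 hshi.le
    have h5 : ((x : ℝ) / 13122) ^ shi = (x : ℝ) ^ shi / 13122 ^ shi :=
      Real.div_rpow hxpos.le (by norm_num) _
    have h6 : (x : ℝ) ^ shi = (x : ℝ) ^ (shi - sg) * (x : ℝ) ^ sg := by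
      rw [← Real.rpow_add hxpos]
      congr 1
      ring
    have hP : (0 : ℝ) < (13122 : ℝ) ^ shi := by positivity
    have hQ : (0 : ℝ) < (x : ℝ) ^ sg := by positivity
    have h7 : (x : ℝ) ^ sg ≤ c * ((x : ℝ) ^ shi / 13122 ^ shi) := by
      rw [div_le_iff₀ hcp] at hx1
      rw [h6, mul_div_assoc', le_div_iff₀ hP]
      calc (x : ℝ) ^ sg * 13122 ^ shi ≤ (x : ℝ) ^ sg * ((x : ℝ) ^ (shi - sg) * c) :=
            mul_le_mul_of_nonneg_left hx1 hQ.le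
        _ = c * ((x : ℝ) ^ (shi - sg) * (x : ℝ) ^ sg) := by ring
    calc (x : ℝ) ^ sg ≤ c * ((x : ℝ) ^ shi / 13122 ^ shi) := h7
      _ = c * ((x : ℝ) / 13122) ^ shi := by rw [h5]
      _ ≤ _ := mul_le_mul_of_nonneg_left h4 hcp.le
  refine le_trans h3 (le_trans h1 ?_)
  rw [Nat.cast_le]
  apply card_le_card
  intro n hn
  rw [mem_filter, mem_range] at hn
  obtain ⟨hn1, hn2, hn3⟩ := hn
  rw [mem_filter, mem_Icc]
  refine ⟨⟨by omega, by omega⟩, hn3⟩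

end Pool.Agent.helper82.K3X
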