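import Pool.Agent.helper82.K3X.Wd

/-!
# K3X-Av: the average of `Uk` over the residues modulo `3 ^ m`
-/

namespace Pool.Agent.helper82.K3X

open Finset

theorem Av_Uk_zero (q : ℕ → ℕ → ℝ) (a : ℕ) : Uk q 0 a = 1 := by
  simp [Uk, wd, pr]

theorem Av_Uk_succ (q : ℕ → ℕ → ℝ) (k a : ℕ) :
    Uk q (k + 1) a = ∑ i ∈ range 7, q i a * Uk q k (nxt i a) := by
  rw [Uk, sum_wd_succ]
  refine sum_congr rfl fun i _ => ?_
  rw [Uk, mul_sum]
  rfl

theorem Av_q_per {N : ℕ} {q : ℕ → ℕ → ℝ} (hq : Wt N q) (i a z : ℕ) :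
    q i (a + 3 ^ (N + 1) * z) = q i a := by
  induction z with
  | zero => rw [Nat.mul_zero, Nat.add_zero]
  | succ z ih => rw [Nat.mul_succ, ← Nat.add_assoc, hq.per, ih]

/-- `Uk q k` is periodic modulo `3 ^ (N + k)` on the states. -/
theorem Av_Uk_per {N : ℕ} (hN : 1 ≤ N) {q : ℕ → ℕ → ℝ} (hq : Wt N q) (k : ℕ) :
    ∀ b z : ℕ, b % 3 = 2 → Uk q k (b + 3 ^ (N + k) * z) = Uk q k b := by
  induction k with
  | zero =>
    intro b z _
    rw [Av_Uk_zero, Av_Uk_zero]
  | succ k ih =>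
    intro b z hb
    have e : b + 3 ^ (N + (k + 1)) * z = b + 3 ^ (N + 1) * (3 ^ k * z) := by
      rw [pow_add, pow_add, pow_add]
      ring
    rw [e, Av_Uk_succ, Av_Uk_succ]
    refine sum_congr rfl fun i _ => ?_
    rw [Av_q_per hq]
    by_cases h : 4 ^ i * b % 9 = 5
    · rw [hq.inv i b h, zero_mul, zero_mul]
    · rw [nxt_per hN hb h]
      have e2 : ∀ κ : ℕ, nxt i b + 3 ^ N * (κ * (3 ^ k * z)) =
          nxt i b + 3 ^ (N + k) * (κ * z) := by
        intro κ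
        rw [pow_add]
        ring
      rw [e2, ih _ _ (nxt_mod hb h)]

/-- Multiplication by a number prime to `3` permutes the residues modulo `3 ^ M`. -/
theorem Av_sum_mul {M κ : ℕ} (hκ : Nat.Coprime κ 3) {g : ℕ → ℝ}
    (hg : ∀ z t, g (z + 3 ^ M * t) = g z) :
    ∑ z ∈ range (3 ^ M), g (κ * z) = ∑ z ∈ range (3 ^ M), g z := by
  have hpos : 0 < 3 ^ M := by positivity
  have hg' : ∀ z, g z = g (z % 3 ^ M) := by
    intro z
    conv_lhs => rw [← Nat.mod_add_div z (3 ^ M)]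
    exact hg _ _
  have hmap : ∀ z ∈ range (3 ^ M), κ * z % 3 ^ M ∈ range (3 ^ M) := by
    intro z _
    rw [mem_range]
    exact Nat.mod_lt _ hpos
  have hinj : Set.InjOn (fun z => κ * z % 3 ^ M) (range (3 ^ M) : Set ℕ) := by
    intro z hz z' hz' h
    have hz1 : z < 3 ^ M := mem_range.1 (mem_coe.1 hz)
    have hz2 : z' < 3 ^ M := mem_range.1 (mem_coe.1 hz')
    have h1 : κ * z ≡ κ * z' [MOD 3 ^ M] := h
    have h2 : z ≡ z' [MOD 3 ^ M] :=
      Nat.ModEq.cancel_left_of_coprime (Nat.Coprime.pow_left M hκ.symm) h1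
    exact Nat.ModEq.eq_of_lt_of_lt h2 hz1 hz2
  refine sum_nbij (fun z => κ * z % 3 ^ M) hmap hinj
    (surjOn_of_injOn_of_card_le _ hmap hinj le_rfl) ?_
  intro z _
  exact hg' _

theorem Av_split (A n : ℕ) (g : ℕ → ℝ) :
    ∑ z ∈ range (A * n), g z = ∑ l ∈ range A, ∑ z ∈ range n, g (l + A * z) := by
  induction n with
  | zero => simp
  | succ n ih =>
    rw [Nat.mul_succ, sum_range_add, ih]
    simp only [sum_range_succ, sum_add_distrib]
    congr 1
    refine sum_congr rfl fun l _ => ?_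
    rw [Nat.add_comm]

theorem Av_cop (i : ℕ) (P : Prop) [Decidable P] :
    Nat.Coprime (if P then 4 * 4 ^ i else 2 * 4 ^ i) 3 := by
  have h4 : Nat.Coprime (4 ^ i) 3 := Nat.Coprime.pow_left i (by norm_num)
  split_ifs
  · exact Nat.Coprime.mul_left (by norm_num) h4
  · exact Nat.Coprime.mul_left (by norm_num) h4

/-- the claim -/
theorem Av_claim {N : ℕ} (hN : 1 ≤ N) {q : ℕ → ℕ → ℝ} {h : ℕ → ℝ} {lam : ℝ} (hq : Wt N q)
    (hh : Sup N q h lam) (hl : 0 < lam) (k : ℕ) :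
    ∀ M c : ℕ, k ≤ M → c % 3 = 2 →
      ∑ z ∈ range (3 ^ M), Uk q k (c + 3 ^ N * z) ≤ 3 ^ M * h c * lam ^ k := by
  have hmod : ∀ c l : ℕ, c % 3 = 2 → (c + 3 ^ N * l) % 3 = 2 := by
    intro c l hc
    obtain ⟨N', rfl⟩ : ∃ N', N = N' + 1 := ⟨N - 1, by omega⟩
    have : c + 3 ^ (N' + 1) * l = c + 3 * (3 ^ N' * l) := by ring
    rw [this, Nat.add_mul_mod_self_left]
    exact hc
  induction k with
  | zero =>
    intro M c _ _
    simp only [Av_Uk_zero, sum_const, card_range, nsmul_eq_mul, pow_zero, mul_one]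
    push_cast
    exact le_mul_of_one_le_right (by positivity) (hh.one c)
  | succ k ih =>
    intro M c hM hc
    obtain ⟨M, rfl⟩ : ∃ M', M = M' + 1 := ⟨M - 1, by omega⟩
    have hM' : k ≤ M := by omega
    have hsplit : ∑ z ∈ range (3 ^ (M + 1)), Uk q (k + 1) (c + 3 ^ N * z) =
        ∑ l ∈ range 3, ∑ z ∈ range (3 ^ M),
          Uk q (k + 1) (c + l * 3 ^ N + 3 ^ (N + 1) * z) := by
      have h3 : 3 ^ (M + 1) = 3 * 3 ^ M := by ring
      rw [h3, Av_split]
      refine sum_congr rfl fun l _ => sum_congr rfl fun z _ => ?_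
      congr 1
      ring
    have hstep : ∀ l ∈ range 3,
        ∑ z ∈ range (3 ^ M), Uk q (k + 1) (c + l * 3 ^ N + 3 ^ (N + 1) * z) ≤
        ∑ i ∈ range 7, q i (c + l * 3 ^ N) *
          (3 ^ M * h (nxt i (c + l * 3 ^ N)) * lam ^ k) := by
      intro l _
      have ha : (c + l * 3 ^ N) % 3 = 2 := by
        rw [Nat.mul_comm]
        exact hmod c l hc
      generalize c + l * 3 ^ N = a at ha
      have e1 : ∑ z ∈ range (3 ^ M), Uk q (k + 1) (a + 3 ^ (N + 1) * z) =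
          ∑ i ∈ range 7, q i a *
            ∑ z ∈ range (3 ^ M), Uk q k (nxt i (a + 3 ^ (N + 1) * z)) := by
        simp only [Av_Uk_succ, Av_q_per hq]
        rw [sum_comm]
        refine sum_congr rfl fun i _ => ?_
        rw [mul_sum]
      rw [e1]
      refine sum_le_sum fun i _ => ?_
      by_cases hi : 4 ^ i * a % 9 = 5
      · rw [hq.inv i a hi, zero_mul, zero_mul]
      · refine mul_le_mul_of_nonneg_left ?_ (hq.nn i a)
        have hn2 : nxt i a % 3 = 2 := nxt_mod ha hi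
        have e2 : ∑ z ∈ range (3 ^ M), Uk q k (nxt i (a + 3 ^ (N + 1) * z)) =
            ∑ z ∈ range (3 ^ M), Uk q k (nxt i a + 3 ^ N * z) := by
          rw [← Av_sum_mul (M := M) (Av_cop i (4 ^ i * a % 9 = 2))
            (g := fun z => Uk q k (nxt i a + 3 ^ N * z))]
          · refine sum_congr rfl fun z _ => ?_
            rw [nxt_per hN ha hi]
          · intro z t
            have e3 : nxt i a + 3 ^ N * (z + 3 ^ M * t) =
                (nxt i a + 3 ^ N * z) + 3 ^ (N + k) * (3 ^ (M - k) * t) := by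
              have h5 : 3 ^ M = 3 ^ k * 3 ^ (M - k) := by
                rw [← pow_add]
                congr 1
                omega
              rw [h5, pow_add]
              ring
            show Uk q k (nxt i a + 3 ^ N * (z + 3 ^ M * t)) = Uk q k (nxt i a + 3 ^ N * z)
            rw [e3, Av_Uk_per hN hq k _ _ (hmod _ _ hn2)]
        rw [e2]
        exact ih M _ hM' hn2
    rw [hsplit]
    refine (sum_le_sum hstep).trans ?_
    have e4 : ∑ l ∈ range 3, ∑ i ∈ range 7, q i (c + l * 3 ^ N) *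
          (3 ^ M * h (nxt i (c + l * 3 ^ N)) * lam ^ k) =
        (3 ^ M * lam ^ k) * ∑ l ∈ range 3, ∑ i ∈ range 7, q i (c + l * 3 ^ N) *
          h (nxt i (c + l * 3 ^ N)) := by
      rw [mul_sum]
      refine sum_congr rfl fun l _ => ?_
      rw [mul_sum]
      refine sum_congr rfl fun i _ => ?_
      ring
    rw [e4]
    refine (mul_le_mul_of_nonneg_left (hh.sub c hc) (by positivity)).trans (le_of_eq ?_)
    ring

theorem avg {N : ℕ} (hN : 1 ≤ N) {q : ℕ → ℕ → ℝ} {h : ℕ → ℝ} {lam : ℝ} (hq : Wt N q)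
    (hh : Sup N q h lam) (hl : 0 < lam) :
    ∃ H : ℝ, 0 < H ∧ ∀ k m : ℕ, N + k ≤ m →
      ∑ b ∈ (range (3 ^ m)).filter (fun b => b % 3 = 2), Uk q k b ≤ H * 3 ^ m * lam ^ k := by
  have hh0 : ∀ c, 0 < h c := fun c => lt_of_lt_of_le one_pos (hh.one c)
  refine ⟨∑ c ∈ range (3 ^ N), h c, sum_pos (fun c _ => hh0 c) ⟨0, ?_⟩, fun k m hm => ?_⟩
  · rw [mem_range]
    positivity
  have hm1 : 3 ^ m = 3 ^ N * 3 ^ (m - N) := by
    rw [← pow_add]
    congr 1
    omega
  have hm1' : (3 : ℝ) ^ m = 3 ^ N * 3 ^ (m - N) := by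
    rw [← pow_add]
    congr 1
    omega
  have hcmod : ∀ c z : ℕ, (c + 3 ^ N * z) % 3 = c % 3 := by
    intro c z
    obtain ⟨N', rfl⟩ : ∃ N', N = N' + 1 := ⟨N - 1, by omega⟩
    have : c + 3 ^ (N' + 1) * z = c + 3 * (3 ^ N' * z) := by ring
    rw [this, Nat.add_mul_mod_self_left]
  rw [sum_filter, hm1, Av_split, sum_mul, sum_mul]
  refine sum_le_sum fun c _ => ?_
  have hle : (3 : ℝ) ^ (m - N) * h c * lam ^ k ≤ h c * 3 ^ m * lam ^ k := by
    rw [hm1']
    have h1 : (1 : ℝ) ≤ 3 ^ N := one_le_pow₀ (by norm_num)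
    have h2 : 0 ≤ (3 : ℝ) ^ (m - N) * h c * lam ^ k := by
      have := (hh0 c).le
      positivity
    nlinarith [mul_le_mul_of_nonneg_right h1 h2]
  refine le_trans ?_ hle
  by_cases hc : c % 3 = 2
  · have h1 := Av_claim hN hq hh hl k (m - N) c (by omega) hc
    refine le_trans (le_of_eq (sum_congr rfl fun z _ => ?_)) h1
    rw [if_pos ((hcmod c z).trans hc)]
  · have h0 : ∑ z ∈ range (3 ^ (m - N)), (if (c + 3 ^ N * z) % 3 = 2 then
        Uk q k (c + 3 ^ N * z) else 0) = 0 := by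
      refine sum_eq_zero fun z _ => ?_
      rw [if_neg (fun hz => hc ((hcmod c z).symm.trans hz))]
    rw [h0]
    have := (hh0 c).le
    positivity

end Pool.Agent.helper82.K3X
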