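import Pool.Agent.helper82.K3X.Wd

/-!
# K3X-BsI: different words from `5` lead to different nodes
-/

namespace Pool.Agent.helper82.K3X

theorem BsI_nd_snoc (v : List ℕ) (i : ℕ) : nd 5 (v ++ [i]) = nxt i (nd 5 v) := by
  rw [nd_append]
  rfl

theorem BsI_Vd_snoc {v : List ℕ} {i : ℕ} (h : Vd 5 (v ++ [i])) :
    Vd 5 v ∧ i < 7 ∧ 4 ^ i * nd 5 v % 9 ≠ 5 := by
  rw [Vd_append] at h
  exact ⟨h.1, h.2.1.1, h.2.1.2⟩

theorem BsI_mod {v : List ℕ} (h : Vd 5 v) : nd 5 v % 3 = 2 := nd_mod (by norm_num) h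

/-- A node reached from `5` is not divisible by `4`. -/
theorem nd5_four {v : List ℕ} (h : Vd 5 v) : ¬ 4 ∣ nd 5 v := by
  induction v using List.reverseRecOn with
  | nil =>
    show ¬ 4 ∣ 5
    decide
  | append_singleton v i _ =>
    obtain ⟨h1, _, h3⟩ := BsI_Vd_snoc h
    rw [BsI_nd_snoc]
    exact nxt_four (BsI_mod h1) h3

theorem BsI_pow_mod {i a : ℕ} (ha : a % 3 = 2) : 4 ^ i * a % 3 = 2 := by
  have h : 4 ^ i % 3 = 1 := by
    rw [Nat.pow_mod]
    norm_num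
  rw [Nat.mul_mod, h, ha]

/-- A node reached from `5` is different from `2`. -/
theorem nd5_ne_two {v : List ℕ} (h : Vd 5 v) : nd 5 v ≠ 2 := by
  induction v using List.reverseRecOn with
  | nil =>
    show 5 ≠ 2
    decide
  | append_singleton v i ih =>
    obtain ⟨h1, _, h3⟩ := BsI_Vd_snoc h
    rw [BsI_nd_snoc]
    intro e
    have hm := BsI_pow_mod (i := i) (BsI_mod h1)
    have hb : 4 ^ i * nd 5 v = 2 := by
      unfold nxt at e
      split_ifs at e <;> omega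
    rcases Nat.eq_zero_or_pos i with hi | hi
    · subst hi
      rw [pow_zero, one_mul] at hb
      exact ih h1 hb
    · obtain ⟨k, rfl⟩ := Nat.exists_eq_add_of_le' hi
      rw [pow_succ] at hb
      have : 4 ∣ 2 := ⟨4 ^ k * nd 5 v, by rw [← hb]; ring⟩
      omega

/-- A nonempty word from `5` does not lead back to `5`. -/
theorem BsI_ne_five {v : List ℕ} {i : ℕ} (h : Vd 5 (v ++ [i])) : nd 5 (v ++ [i]) ≠ 5 := by
  obtain ⟨h1, _, h3⟩ := BsI_Vd_snoc h
  rw [BsI_nd_snoc]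
  intro e
  have hm := BsI_pow_mod (i := i) (BsI_mod h1)
  have hb : 4 ^ i * nd 5 v = 8 := by
    unfold nxt at e
    split_ifs at e <;> omega
  have h4 := nd5_four h1
  have h2 := nd5_ne_two h1
  rcases i with _ | _ | k
  · rw [pow_zero, one_mul] at hb
    exact h4 ⟨2, by rw [hb]⟩
  · rw [zero_add, pow_one] at hb
    omega
  · have : 16 ∣ 8 := ⟨4 ^ k * nd 5 v, by rw [← hb]; ring⟩
    omega

theorem inj5 {v v' : List ℕ} (h : Vd 5 v) (h' : Vd 5 v') (e : nd 5 v = nd 5 v') : v = v' := by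
  induction v using List.reverseRecOn generalizing v' with
  | nil =>
    rcases List.eq_nil_or_concat' v' with rfl | ⟨w, j, rfl⟩
    · rfl
    · exact absurd e.symm (BsI_ne_five h')
  | append_singleton v i ih =>
    rcases List.eq_nil_or_concat' v' with rfl | ⟨w, j, rfl⟩
    · exact absurd e (BsI_ne_five h)
    · obtain ⟨h1, _, h3⟩ := BsI_Vd_snoc h
      obtain ⟨h1', _, h3'⟩ := BsI_Vd_snoc h'
      rw [BsI_nd_snoc, BsI_nd_snoc] at e
      obtain ⟨hij, ha⟩ := nxt_inj (BsI_mod h1) (BsI_mod h1') h3 h3' (nd5_four h1) (nd5_four h1') e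
      rw [hij, ih h1 h1' ha]

end Pool.Agent.helper82.K3X
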