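import Pool.Agent.helper82.K3X.Wd

/-!
# K3X: integer tables
-/

namespace Pool.Agent.helper82.K3X

open Finset

/-- The integer weight of the letter `i` at `a` (`2 ^ 24` times a lower bound for `growth ^ (-shi)`). -/
def Wg (W2 W8 : ℕ → ℕ) (i a : ℕ) : ℕ :=
  if 4 ^ i * a % 9 = 2 then W2 i else if 4 ^ i * a % 9 = 8 then W8 i else 0

/-- Nine times the square of the growth factor. -/
def Rg (i a : ℕ) : ℕ := if 4 ^ i * a % 9 = 2 then 16 * 16 ^ i else 4 * 16 ^ i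

/-- The sum of the weights at `a`. -/
def Af (W2 W8 M : ℕ → ℕ) (a : ℕ) : ℕ := ∑ i ∈ range 7, Wg W2 W8 i a * M (nxt i a)

/-- The numerator for the low exponent. -/
def Bf (W2 W8 M h : ℕ → ℕ) (a : ℕ) : ℕ :=
  ∑ i ∈ range 7, (Wg W2 W8 i a * M (nxt i a)) ^ 16 * (Rg i a * h (nxt i a))

/-- The inequality for the high exponent. -/
def Hi (M0 A0 A1 A2 n1 d1 : ℕ) : Prop :=
  M0 ^ 15 * ((A1 * A2) ^ 15 + (A0 * A2) ^ 15 + (A0 * A1) ^ 15) * (2 ^ 360 * d1) ≤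
    n1 * (A0 * A1 * A2) ^ 15

/-- The inequality for the low exponent. -/
def Lo (h0 A0 A1 A2 B0 B1 B2 n2 d2 : ℕ) : Prop :=
  (B0 * (A1 * A2) ^ 16 + B1 * (A0 * A2) ^ 16 + B2 * (A0 * A1) ^ 16) * d2 ≤
    n2 * h0 * (A0 * A1 * A2) ^ 16

/-- The tables `M` and `h` on the residues modulo `3 ^ N`. -/
structure Tab (N : ℕ) (W2 W8 M h : ℕ → ℕ) (n1 d1 n2 d2 : ℕ) : Prop where
  N1 : 1 ≤ N
  Mpos : ∀ c, c % 3 = 2 → 1 ≤ M c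
  Mle : ∀ c, M c ≤ 2 ^ 20
  hpos : ∀ c, c % 3 = 2 → 1 ≤ h c
  Mper : ∀ c, M (c + 3 ^ N) = M c
  hper : ∀ c, h (c + 3 ^ N) = h c
  Wpos : ∀ i < 7, 1 ≤ W2 i ∧ 1 ≤ W8 i
  hi : ∀ c, c % 3 = 2 → Hi (M c) (Af W2 W8 M c) (Af W2 W8 M (c + 3 ^ N))
    (Af W2 W8 M (c + 2 * 3 ^ N)) n1 d1
  lo : ∀ c, c % 3 = 2 → Lo (h c) (Af W2 W8 M c) (Af W2 W8 M (c + 3 ^ N))
    (Af W2 W8 M (c + 2 * 3 ^ N)) (Bf W2 W8 M h c) (Bf W2 W8 M h (c + 3 ^ N))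
    (Bf W2 W8 M h (c + 2 * 3 ^ N)) n2 d2

end Pool.Agent.helper82.K3X
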