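import Pool.Agent.helper82.K3X.CrtDefs

/-!
# K3X-CrtR: from the integer tables to the certificate
-/

namespace Pool.Agent.helper82.K3X

open Finset

/-! ## Periodicity -/

theorem CrtR_mod9 {N : ℕ} (hN : 1 ≤ N) (i a : ℕ) :
    4 ^ i * (a + 3 ^ (N + 1)) % 9 = 4 ^ i * a % 9 := by
  obtain ⟨k, rfl⟩ := Nat.exists_eq_add_of_le hN
  have e : 4 ^ i * (a + 3 ^ (1 + k + 1)) = 4 ^ i * a + 9 * (4 ^ i * 3 ^ k) := by ring
  rw [e, Nat.add_mul_mod_self_left]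

theorem CrtR_mod3 {N : ℕ} (hN : 1 ≤ N) (a : ℕ) : (a + 3 ^ N) % 3 = a % 3 := by
  obtain ⟨k, rfl⟩ := Nat.exists_eq_add_of_le hN
  have e : a + 3 ^ (1 + k) = a + 3 * 3 ^ k := by ring
  rw [e, Nat.add_mul_mod_self_left]

theorem CrtR_mod3' {N : ℕ} (hN : 1 ≤ N) (a l : ℕ) : (a + l * 3 ^ N) % 3 = a % 3 := by
  obtain ⟨k, rfl⟩ := Nat.exists_eq_add_of_le hN
  have e : a + l * 3 ^ (1 + k) = a + 3 * (l * 3 ^ k) := by ring
  rw [e, Nat.add_mul_mod_self_left]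

theorem CrtR_per {f : ℕ → ℕ} {m : ℕ} (hf : ∀ c, f (c + m) = f c) (c k : ℕ) :
    f (c + m * k) = f c := by
  induction k with
  | zero => simp
  | succ k ih => rw [Nat.mul_succ, ← add_assoc, hf, ih]

/-! ## The numerators -/

/-- The numerator of the weight. -/
def CrtR_num (W2 W8 M : ℕ → ℕ) (i a : ℕ) : ℕ := Wg W2 W8 i a * M (nxt i a)

section

variable {N n1 d1 n2 d2 : ℕ} {W2 W8 M h : ℕ → ℕ}

theorem CrtR_Wg5 {i a : ℕ} (h5 : 4 ^ i * a % 9 = 5) : Wg W2 W8 i a = 0 := by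
  unfold Wg
  rw [h5]
  rfl

theorem CrtR_Wg_le (i a : ℕ) : Wg W2 W8 i a ≤ W2 i + W8 i := by
  unfold Wg
  split_ifs <;> omega

theorem CrtR_num_per (hN : 1 ≤ N) (hM : ∀ c, M (c + 3 ^ N) = M c) (i : ℕ) {a : ℕ} (ha : a % 3 = 2) :
    CrtR_num W2 W8 M i (a + 3 ^ (N + 1)) = CrtR_num W2 W8 M i a := by
  have e1 : Wg W2 W8 i (a + 3 ^ (N + 1)) = Wg W2 W8 i a := by
    unfold Wg
    rw [CrtR_mod9 hN]
  unfold CrtR_num
  rw [e1]
  by_cases h5 : 4 ^ i * a % 9 = 5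
  · rw [CrtR_Wg5 h5, zero_mul, zero_mul]
  · have e2 := nxt_per hN ha h5 1
    rw [mul_one, mul_one] at e2
    rw [e2, CrtR_per hM]

theorem CrtR_Af_per (hN : 1 ≤ N) (hM : ∀ c, M (c + 3 ^ N) = M c) {a : ℕ} (ha : a % 3 = 2) :
    Af W2 W8 M (a + 3 ^ (N + 1)) = Af W2 W8 M a :=
  Finset.sum_congr rfl fun i _ => CrtR_num_per hN hM i ha

/-- two different letters are allowed -/
theorem CrtR_two {a : ℕ} (ha : a % 3 = 2) (i : ℕ) : ∃ j < 7, j ≠ i ∧ 4 ^ j * a % 9 ≠ 5 := by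
  have h9 : a % 9 = 2 ∨ a % 9 = 5 ∨ a % 9 = 8 := by omega
  have k0 : 4 ^ 0 * a % 9 = a % 9 := by norm_num
  have k1 : 4 ^ 1 * a % 9 = (4 * (a % 9)) % 9 := by
    rw [pow_one, Nat.mul_mod, Nat.mul_mod 4 (a % 9), Nat.mod_mod]
  have k2 : 4 ^ 2 * a % 9 = (16 * (a % 9)) % 9 := by
    norm_num
  rcases h9 with h9 | h9 | h9
  · rcases eq_or_ne i 0 with rfl | hi
    · exact ⟨1, by norm_num, by norm_num, by rw [k1, h9]; norm_num⟩
    · exact ⟨0, by norm_num, hi.symm, by rw [k0, h9]; norm_num⟩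
  · rcases eq_or_ne i 1 with rfl | hi
    · exact ⟨2, by norm_num, by norm_num, by rw [k2, h9]; norm_num⟩
    · exact ⟨1, by norm_num, hi.symm, by rw [k1, h9]; norm_num⟩
  · rcases eq_or_ne i 0 with rfl | hi
    · exact ⟨2, by norm_num, by norm_num, by rw [k2, h9]; norm_num⟩
    · exact ⟨0, by norm_num, hi.symm, by rw [k0, h9]; norm_num⟩

theorem CrtR_kind {i a : ℕ} (ha : a % 3 = 2) (h5 : 4 ^ i * a % 9 ≠ 5) :
    4 ^ i * a % 9 = 2 ∨ 4 ^ i * a % 9 = 8 := by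
  have h3 : 4 ^ i * a % 3 = 2 := by
    rw [Nat.mul_mod, Nat.pow_mod, ha]
    norm_num
  omega

theorem CrtR_num_pos (T : Tab N W2 W8 M h n1 d1 n2 d2) {i a : ℕ} (hi : i < 7) (ha : a % 3 = 2)
    (h5 : 4 ^ i * a % 9 ≠ 5) : 1 ≤ CrtR_num W2 W8 M i a := by
  have h1 := T.Wpos i hi
  have h2 := T.Mpos _ (nxt_mod ha h5)
  have h3 : 1 ≤ Wg W2 W8 i a := by
    unfold Wg
    rcases CrtR_kind ha h5 with h6 | h6
    · rw [if_pos h6]
      exact h1.1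
    · rw [if_neg (by omega), if_pos h6]
      exact h1.2
  exact Nat.mul_pos h3 h2

theorem CrtR_lt (T : Tab N W2 W8 M h n1 d1 n2 d2) {i a : ℕ} (hi : i < 7) (ha : a % 3 = 2) :
    CrtR_num W2 W8 M i a + 1 ≤ Af W2 W8 M a := by
  obtain ⟨j, hj, hji, h5⟩ := CrtR_two ha i
  have h1 := CrtR_num_pos T hj ha h5
  have h2 : ∑ x ∈ ({i, j} : Finset ℕ), CrtR_num W2 W8 M x a ≤
      ∑ x ∈ range 7, CrtR_num W2 W8 M x a := by
    refine Finset.sum_le_sum_of_subset ?_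
    intro x hx
    rw [Finset.mem_insert, Finset.mem_singleton] at hx
    rw [Finset.mem_range]
    rcases hx with rfl | rfl
    · exact hi
    · exact hj
  rw [Finset.sum_pair hji.symm] at h2
  have h3 : Af W2 W8 M a = ∑ x ∈ range 7, CrtR_num W2 W8 M x a := rfl
  omega

theorem CrtR_Af_pos (T : Tab N W2 W8 M h n1 d1 n2 d2) {a : ℕ} (ha : a % 3 = 2) :
    (0 : ℝ) < Af W2 W8 M a := by
  have := CrtR_lt T (i := 0) (by norm_num) ha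
  have h2 : 0 < Af W2 W8 M a := by omega
  exact_mod_cast h2

theorem CrtR_Af_le (T : Tab N W2 W8 M h n1 d1 n2 d2) (a : ℕ) :
    Af W2 W8 M a ≤ ∑ i ∈ range 7, (W2 i + W8 i) * 2 ^ 20 :=
  Finset.sum_le_sum fun _ _ => Nat.mul_le_mul (CrtR_Wg_le _ _) (T.Mle _)

end

/-! ## The transition probabilities -/

/-- The transition probabilities. -/
noncomputable def CrtR_p (W2 W8 M : ℕ → ℕ) (i a : ℕ) : ℝ :=
  if a % 3 = 2 ∧ i < 7 then (CrtR_num W2 W8 M i a : ℝ) / (Af W2 W8 M a : ℝ) else 0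

section

variable {N n1 d1 n2 d2 P Q : ℕ} {W2 W8 M h : ℕ → ℕ}

theorem CrtR_p_eq {i a : ℕ} (ha : a % 3 = 2) (hi : i < 7) :
    CrtR_p W2 W8 M i a = (CrtR_num W2 W8 M i a : ℝ) / (Af W2 W8 M a : ℝ) :=
  if_pos ⟨ha, hi⟩

theorem CrtR_p_nn (i a : ℕ) : 0 ≤ CrtR_p W2 W8 M i a := by
  unfold CrtR_p
  split_ifs
  · positivity
  · exact le_rfl

theorem CrtR_p_five {i a : ℕ} (h5 : 4 ^ i * a % 9 = 5) : CrtR_p W2 W8 M i a = 0 := by
  unfold CrtR_p CrtR_num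
  rw [CrtR_Wg5 h5]
  simp

theorem CrtR_wt (T : Tab N W2 W8 M h n1 d1 n2 d2) : Wt N (CrtR_p W2 W8 M) where
  nn := CrtR_p_nn
  inv _ _ h5 := CrtR_p_five h5
  per i a := by
    unfold CrtR_p
    have e3 := CrtR_mod3 (show 1 ≤ N + 1 by omega) a
    by_cases ha : a % 3 = 2 ∧ i < 7
    · rw [if_pos ha, if_pos ⟨e3.trans ha.1, ha.2⟩, CrtR_num_per T.N1 T.Mper i ha.1,
        CrtR_Af_per T.N1 T.Mper ha.1]
    · rw [if_neg ha, if_neg (by rw [e3]; exact ha)]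

theorem CrtR_sum (T : Tab N W2 W8 M h n1 d1 n2 d2) {a : ℕ} (ha : a % 3 = 2) :
    ∑ i ∈ range 7, CrtR_p W2 W8 M i a = 1 := by
  have h1 : ∑ i ∈ range 7, CrtR_p W2 W8 M i a =
      ∑ i ∈ range 7, (CrtR_num W2 W8 M i a : ℝ) / (Af W2 W8 M a : ℝ) :=
    Finset.sum_congr rfl fun i hi => CrtR_p_eq ha (Finset.mem_range.1 hi)
  rw [h1, ← Finset.sum_div]
  have h2 : (Af W2 W8 M a : ℝ) = ∑ i ∈ range 7, (CrtR_num W2 W8 M i a : ℝ) := by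
    rw [← Nat.cast_sum]
    rfl
  rw [← h2]
  exact div_self (CrtR_Af_pos T ha).ne'

theorem CrtR_le (T : Tab N W2 W8 M h n1 d1 n2 d2) :
    ∃ d : ℝ, 0 < d ∧ d < 1 ∧ ∀ i a, CrtR_p W2 W8 M i a ≤ 1 - d := by
  obtain ⟨A, hA⟩ : ∃ A : ℕ, A = ∑ i ∈ range 7, (W2 i + W8 i) * 2 ^ 20 := ⟨_, rfl⟩
  have hA2 : 2 ≤ A := by
    have h1 := CrtR_Af_le T 2
    rw [← hA] at h1
    have h2 := CrtR_lt T (i := 0) (a := 2) (by norm_num) (by norm_num)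
    have h3 := CrtR_num_pos T (i := 0) (a := 2) (by norm_num) (by norm_num) (by norm_num)
    omega
  have hA2' : (2 : ℝ) ≤ A := by exact_mod_cast hA2
  have hd0 : (0 : ℝ) < 1 / A := by positivity
  have hd1 : (1 : ℝ) / A ≤ 1 / 2 := by
    exact one_div_le_one_div_of_le (by norm_num) hA2'
  refine ⟨1 / A, hd0, by linarith, fun i a => ?_⟩
  by_cases ha : a % 3 = 2 ∧ i < 7
  · rw [CrtR_p_eq ha.1 ha.2]
    have h0 := CrtR_Af_pos T ha.1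
    have h1 : (CrtR_num W2 W8 M i a : ℝ) + 1 ≤ (Af W2 W8 M a : ℝ) := by
      exact_mod_cast CrtR_lt T ha.2 ha.1
    have h2 : (Af W2 W8 M a : ℝ) ≤ A := by
      rw [hA]
      exact_mod_cast CrtR_Af_le T a
    have h3 : (1 : ℝ) / A ≤ 1 / (Af W2 W8 M a : ℝ) := one_div_le_one_div_of_le h0 h2
    have h4 : (CrtR_num W2 W8 M i a : ℝ) / (Af W2 W8 M a : ℝ) ≤ 1 - 1 / (Af W2 W8 M a : ℝ) := by
      rw [div_le_iff₀ h0, sub_mul, one_mul, div_mul_cancel₀ _ h0.ne']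
      linarith
    linarith
  · unfold CrtR_p
    rw [if_neg ha]
    linarith

/-! ## The low exponent -/

theorem CrtR_gro_sq (i a : ℕ) : gro i a ^ 2 = (Rg i a : ℝ) / 9 := by
  have e : ((4 : ℝ) ^ i) ^ 2 = 16 ^ i := by
    rw [← pow_mul, mul_comm, pow_mul]
    norm_num
  unfold gro Rg
  split_ifs
  · rw [mul_pow, e]
    push_cast
    ring
  · rw [mul_pow, e]
    push_cast
    ring

theorem CrtR_lo_sum {a : ℕ} (ha : a % 3 = 2) :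
    ∑ i ∈ range 7, wq (CrtR_p W2 W8 M) 15 (2 / 15) i a *
      (if nxt i a % 3 = 2 then (h (nxt i a) : ℝ) else 1) =
      (Bf W2 W8 M h a : ℝ) / (9 * (Af W2 W8 M a : ℝ) ^ 16) := by
  have h1 : (Bf W2 W8 M h a : ℝ) = ∑ i ∈ range 7, (CrtR_num W2 W8 M i a : ℝ) ^ 16 *
      ((Rg i a : ℝ) * (h (nxt i a) : ℝ)) := by
    unfold Bf CrtR_num
    push_cast
    rfl
  rw [h1, Finset.sum_div]
  refine Finset.sum_congr rfl fun i hi => ?_
  have hi7 := Finset.mem_range.1 hi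
  have e1 : ((15 : ℕ) : ℝ) * (2 / 15) = ((2 : ℕ) : ℝ) := by norm_num
  unfold wq
  rw [e1, Real.rpow_natCast, CrtR_gro_sq]
  by_cases h5 : 4 ^ i * a % 9 = 5
  · rw [CrtR_p_five h5]
    unfold CrtR_num
    rw [CrtR_Wg5 h5]
    simp
  · rw [if_pos (nxt_mod ha h5), CrtR_p_eq ha hi7, div_pow]
    ring

theorem CrtR_lo (T : Tab N W2 W8 M h n1 d1 n2 d2) (hd2 : 0 < d2) :
    Sup N (wq (CrtR_p W2 W8 M) 15 (2 / 15)) (fun c => if c % 3 = 2 then (h c : ℝ) else 1)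
      ((n2 : ℝ) / (27 * d2)) where
  one a := by
    show (1 : ℝ) ≤ if a % 3 = 2 then (h a : ℝ) else 1
    split_ifs with ha
    · exact_mod_cast T.hpos a ha
    · exact le_rfl
  per a := by
    show (if (a + 3 ^ N) % 3 = 2 then (h (a + 3 ^ N) : ℝ) else 1) = if a % 3 = 2 then (h a : ℝ) else 1
    rw [CrtR_mod3 T.N1, T.hper]
  sub c hc := by
    show ∑ l ∈ range 3, ∑ i ∈ range 7, wq (CrtR_p W2 W8 M) 15 (2 / 15) i (c + l * 3 ^ N) *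
      (if nxt i (c + l * 3 ^ N) % 3 = 2 then (h (nxt i (c + l * 3 ^ N)) : ℝ) else 1) ≤
        3 * ((n2 : ℝ) / (27 * d2)) * (if c % 3 = 2 then (h c : ℝ) else 1)
    have hl : ∀ l, (c + l * 3 ^ N) % 3 = 2 := fun l => by rw [CrtR_mod3' T.N1, hc]
    rw [Finset.sum_congr rfl fun l _ => CrtR_lo_sum (hl l), if_pos hc]
    rw [Finset.sum_range_succ, Finset.sum_range_succ, Finset.sum_range_succ, Finset.sum_range_zero,
      zero_add, zero_mul, add_zero, one_mul]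
    have hA0 := CrtR_Af_pos T hc
    have hA1 := CrtR_Af_pos T (a := c + 3 ^ N) (by have := hl 1; rwa [one_mul] at this)
    have hA2 := CrtR_Af_pos T (hl 2)
    have hL := T.lo c hc
    unfold Lo at hL
    have hL' : ((Bf W2 W8 M h c : ℝ) * ((Af W2 W8 M (c + 3 ^ N) : ℝ) * Af W2 W8 M (c + 2 * 3 ^ N)) ^ 16 +
        (Bf W2 W8 M h (c + 3 ^ N) : ℝ) * ((Af W2 W8 M c : ℝ) * Af W2 W8 M (c + 2 * 3 ^ N)) ^ 16 +
        (Bf W2 W8 M h (c + 2 * 3 ^ N) : ℝ) * ((Af W2 W8 M c : ℝ) * Af W2 W8 M (c + 3 ^ N)) ^ 16) * d2 ≤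
        n2 * h c * ((Af W2 W8 M c : ℝ) * Af W2 W8 M (c + 3 ^ N) * Af W2 W8 M (c + 2 * 3 ^ N)) ^ 16 := by
      exact_mod_cast hL
    have hd2' : (0 : ℝ) < d2 := by exact_mod_cast hd2
    generalize (Af W2 W8 M c : ℝ) = A0 at *
    generalize (Af W2 W8 M (c + 3 ^ N) : ℝ) = A1 at *
    generalize (Af W2 W8 M (c + 2 * 3 ^ N) : ℝ) = A2 at *
    generalize (Bf W2 W8 M h c : ℝ) = B0 at *
    generalize (Bf W2 W8 M h (c + 3 ^ N) : ℝ) = B1 at *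
    generalize (Bf W2 W8 M h (c + 2 * 3 ^ N) : ℝ) = B2 at *
    have e1 : B0 / (9 * A0 ^ 16) + B1 / (9 * A1 ^ 16) + B2 / (9 * A2 ^ 16) =
        ((B0 * (A1 * A2) ^ 16 + B1 * (A0 * A2) ^ 16 + B2 * (A0 * A1) ^ 16)) /
          (9 * (A0 * A1 * A2) ^ 16) := by
      field_simp
    have e2 : 3 * ((n2 : ℝ) / (27 * d2)) * (h c : ℝ) = (n2 * h c : ℝ) / (9 * d2) := by
      field_simp
      ring
    rw [e1, e2, div_le_div_iff₀ (by positivity) (by positivity)]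
    linarith

/-! ## The high exponent -/

theorem CrtR_wg (hQ : 0 < Q)
    (hW2 : ∀ i < 7, W2 i ^ Q * (4 * 4 ^ i) ^ P ≤ 2 ^ (24 * Q) * 3 ^ P)
    (hW8 : ∀ i < 7, W8 i ^ Q * (2 * 4 ^ i) ^ P ≤ 2 ^ (24 * Q) * 3 ^ P) {i : ℕ} (hi : i < 7) (a : ℕ) :
    (Wg W2 W8 i a : ℝ) * gro i a ^ ((P : ℝ) / Q) ≤ 2 ^ 24 := by
  have hg := gro_pos i a
  have hQ' : (Q : ℝ) ≠ 0 := by exact_mod_cast hQ.ne'
  have key : ∀ (w : ℕ) (r : ℝ), 0 ≤ r → w ^ Q * r ^ P ≤ 2 ^ (24 * Q) * 3 ^ P → gro i a = r / 3 →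
      (w : ℝ) * gro i a ^ ((P : ℝ) / Q) ≤ 2 ^ 24 := by
    intro w r hr hw e
    have h1 : ((w : ℝ) * gro i a ^ ((P : ℝ) / Q)) ^ Q ≤ ((2 : ℝ) ^ 24) ^ Q := by
      rw [mul_pow, ← Real.rpow_natCast (gro i a ^ ((P : ℝ) / Q)) Q, ← Real.rpow_mul hg.le,
        div_mul_cancel₀ _ hQ', Real.rpow_natCast, e, div_pow, ← pow_mul, ← mul_div_assoc,
        div_le_iff₀ (by positivity)]
      exact hw
    exact (pow_le_pow_iff_left₀ (by positivity) (by positivity) hQ.ne').1 h1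
  unfold Wg
  split_ifs with h2 h8
  · refine key (W2 i) (4 * 4 ^ i) (by positivity) ?_ ?_
    · exact_mod_cast hW2 i hi
    · unfold gro
      rw [if_pos h2]
      ring
  · refine key (W8 i) (2 * 4 ^ i) (by positivity) ?_ ?_
    · exact_mod_cast hW8 i hi
    · unfold gro
      rw [if_neg h2]
      ring
  · rw [Nat.cast_zero, zero_mul]
    positivity

theorem CrtR_hi_sum (T : Tab N W2 W8 M h n1 d1 n2 d2) (hQ : 0 < Q)
    (hW2 : ∀ i < 7, W2 i ^ Q * (4 * 4 ^ i) ^ P ≤ 2 ^ (24 * Q) * 3 ^ P)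
    (hW8 : ∀ i < 7, W8 i ^ Q * (2 * 4 ^ i) ^ P ≤ 2 ^ (24 * Q) * 3 ^ P) {a : ℕ} (ha : a % 3 = 2) :
    ∑ i ∈ range 7, wq (CrtR_p W2 W8 M) 15 ((P : ℝ) / Q) i a *
      (if nxt i a % 3 = 2 then ((2 : ℝ) ^ 20 / (M (nxt i a) : ℝ)) ^ 15 else 1) ≤
      2 ^ 360 * ((2 : ℝ) ^ 20) ^ 15 / (Af W2 W8 M a : ℝ) ^ 15 := by
  have hA := CrtR_Af_pos T ha
  obtain ⟨B, hB⟩ : ∃ B : ℝ, B = ((2 : ℝ) ^ 20) ^ 15 := ⟨_, rfl⟩
  obtain ⟨B', hB'⟩ : ∃ B' : ℝ, B' = (2 : ℝ) ^ 360 := ⟨_, rfl⟩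
  have hB0 : 0 < B := by rw [hB]; positivity
  have hB'0 : 0 < B' := by rw [hB']; positivity
  have e360 : ((2 : ℝ) ^ 24) ^ 15 = B' := by
    rw [hB', ← pow_mul]
  have hterm : ∀ i ∈ range 7, wq (CrtR_p W2 W8 M) 15 ((P : ℝ) / Q) i a *
      (if nxt i a % 3 = 2 then ((2 : ℝ) ^ 20 / (M (nxt i a) : ℝ)) ^ 15 else 1) ≤
      (CrtR_num W2 W8 M i a : ℝ) * (B' * B / (Af W2 W8 M a : ℝ) ^ 16) := by
    intro i hi
    have hi7 := Finset.mem_range.1 hi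
    have hg := gro_pos i a
    have e1 : gro i a ^ (((15 : ℕ) : ℝ) * ((P : ℝ) / Q)) = (gro i a ^ ((P : ℝ) / Q)) ^ 15 := by
      rw [mul_comm, Real.rpow_mul hg.le, Real.rpow_natCast]
    unfold wq
    rw [e1]
    by_cases h5 : 4 ^ i * a % 9 = 5
    · rw [CrtR_p_five h5]
      have : (0 : ℝ) ^ (15 + 1) = 0 := by norm_num
      rw [this, zero_mul, zero_mul]
      positivity
    · have hM : (0 : ℝ) < (M (nxt i a) : ℝ) := by
        have := T.Mpos _ (nxt_mod ha h5)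
        exact_mod_cast this
      have hw := CrtR_wg hQ hW2 hW8 hi7 a
      rw [if_pos (nxt_mod ha h5), CrtR_p_eq ha hi7, div_pow, div_pow, ← hB]
      have e2 : (CrtR_num W2 W8 M i a : ℝ) = (Wg W2 W8 i a : ℝ) * (M (nxt i a) : ℝ) := by
        unfold CrtR_num
        push_cast
        rfl
      rw [e2]
      have hw0 : (0 : ℝ) ≤ (Wg W2 W8 i a : ℝ) := Nat.cast_nonneg _
      have hgp : 0 < gro i a ^ ((P : ℝ) / Q) := Real.rpow_pos_of_pos hg _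
      have h3 : ((Wg W2 W8 i a : ℝ) * gro i a ^ ((P : ℝ) / Q)) ^ 15 ≤ B' := by
        rw [← e360]
        exact pow_le_pow_left₀ (by positivity) hw 15
      generalize (Wg W2 W8 i a : ℝ) = w at *
      generalize (M (nxt i a) : ℝ) = m at *
      generalize gro i a ^ ((P : ℝ) / Q) = g at *
      generalize (Af W2 W8 M a : ℝ) = A at *
      have e3 : (w * m) ^ (15 + 1) / A ^ (15 + 1) * g ^ 15 * (B / m ^ 15) =
          w * m * ((w * g) ^ 15 * (B / A ^ 16)) := by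
        field_simp
        ring
      rw [e3]
      refine mul_le_mul_of_nonneg_left ?_ (by positivity)
      rw [mul_div_assoc]
      exact mul_le_mul_of_nonneg_right h3 (by positivity)
  refine (Finset.sum_le_sum hterm).trans (le_of_eq ?_)
  rw [← Finset.sum_mul]
  have h2 : ∑ i ∈ range 7, (CrtR_num W2 W8 M i a : ℝ) = (Af W2 W8 M a : ℝ) := by
    rw [← Nat.cast_sum]
    rfl
  rw [h2, ← hB, ← hB']
  field_simp

theorem CrtR_hi (T : Tab N W2 W8 M h n1 d1 n2 d2) (hQ : 0 < Q) (hd1 : 0 < d1)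
    (hW2 : ∀ i < 7, W2 i ^ Q * (4 * 4 ^ i) ^ P ≤ 2 ^ (24 * Q) * 3 ^ P)
    (hW8 : ∀ i < 7, W8 i ^ Q * (2 * 4 ^ i) ^ P ≤ 2 ^ (24 * Q) * 3 ^ P) :
    Sup N (wq (CrtR_p W2 W8 M) 15 ((P : ℝ) / Q))
      (fun c => if c % 3 = 2 then ((2 : ℝ) ^ 20 / (M c : ℝ)) ^ 15 else 1)
      ((n1 : ℝ) / (3 * d1)) where
  one a := by
    show (1 : ℝ) ≤ if a % 3 = 2 then ((2 : ℝ) ^ 20 / (M a : ℝ)) ^ 15 else 1
    split_ifs with ha
    · have h1 : (1 : ℝ) ≤ (M a : ℝ) := by exact_mod_cast T.Mpos a ha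
      have h2 : (M a : ℝ) ≤ 2 ^ 20 := by exact_mod_cast T.Mle a
      refine one_le_pow₀ ?_
      rw [le_div_iff₀ (by linarith)]
      linarith
    · exact le_rfl
  per a := by
    show (if (a + 3 ^ N) % 3 = 2 then ((2 : ℝ) ^ 20 / (M (a + 3 ^ N) : ℝ)) ^ 15 else 1) =
      if a % 3 = 2 then ((2 : ℝ) ^ 20 / (M a : ℝ)) ^ 15 else 1
    rw [CrtR_mod3 T.N1, T.Mper]
  sub c hc := by
    show ∑ l ∈ range 3, ∑ i ∈ range 7, wq (CrtR_p W2 W8 M) 15 ((P : ℝ) / Q) i (c + l * 3 ^ N) *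
      (if nxt i (c + l * 3 ^ N) % 3 = 2 then
        ((2 : ℝ) ^ 20 / (M (nxt i (c + l * 3 ^ N)) : ℝ)) ^ 15 else 1) ≤
        3 * ((n1 : ℝ) / (3 * d1)) * (if c % 3 = 2 then ((2 : ℝ) ^ 20 / (M c : ℝ)) ^ 15 else 1)
    have hl : ∀ l, (c + l * 3 ^ N) % 3 = 2 := fun l => by rw [CrtR_mod3' T.N1, hc]
    refine (Finset.sum_le_sum fun l _ => CrtR_hi_sum T hQ hW2 hW8 (hl l)).trans ?_
    rw [if_pos hc]
    rw [Finset.sum_range_succ, Finset.sum_range_succ, Finset.sum_range_succ, Finset.sum_range_zero,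
      zero_add, zero_mul, add_zero, one_mul]
    have hA0 := CrtR_Af_pos T hc
    have hA1 := CrtR_Af_pos T (a := c + 3 ^ N) (by have := hl 1; rwa [one_mul] at this)
    have hA2 := CrtR_Af_pos T (hl 2)
    have hM0 : (0 : ℝ) < (M c : ℝ) := by
      have := T.Mpos c hc
      exact_mod_cast this
    have hH := T.hi c hc
    unfold Hi at hH
    have hH' : (M c : ℝ) ^ 15 * (((Af W2 W8 M (c + 3 ^ N) : ℝ) * Af W2 W8 M (c + 2 * 3 ^ N)) ^ 15 +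
        ((Af W2 W8 M c : ℝ) * Af W2 W8 M (c + 2 * 3 ^ N)) ^ 15 +
        ((Af W2 W8 M c : ℝ) * Af W2 W8 M (c + 3 ^ N)) ^ 15) * (2 ^ 360 * d1) ≤
        n1 * ((Af W2 W8 M c : ℝ) * Af W2 W8 M (c + 3 ^ N) * Af W2 W8 M (c + 2 * 3 ^ N)) ^ 15 := by
      exact_mod_cast hH
    have hd1' : (0 : ℝ) < d1 := by exact_mod_cast hd1
    rw [div_pow]
    obtain ⟨B, hB⟩ : ∃ B : ℝ, B = ((2 : ℝ) ^ 20) ^ 15 := ⟨_, rfl⟩
    obtain ⟨B', hB'⟩ : ∃ B' : ℝ, B' = (2 : ℝ) ^ 360 := ⟨_, rfl⟩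
    have hB0 : 0 < B := by rw [hB]; positivity
    have hB'0 : 0 < B' := by rw [hB']; positivity
    rw [← hB, ← hB']
    rw [← hB'] at hH'
    generalize (Af W2 W8 M c : ℝ) = A0 at *
    generalize (Af W2 W8 M (c + 3 ^ N) : ℝ) = A1 at *
    generalize (Af W2 W8 M (c + 2 * 3 ^ N) : ℝ) = A2 at *
    generalize (M c : ℝ) = M0 at *
    have e1 : B' * B / A0 ^ 15 + B' * B / A1 ^ 15 + B' * B / A2 ^ 15 =
        B * (B' * ((A1 * A2) ^ 15 + (A0 * A2) ^ 15 + (A0 * A1) ^ 15) / (A0 * A1 * A2) ^ 15) := by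
      field_simp
    have e2 : 3 * ((n1 : ℝ) / (3 * d1)) * (B / M0 ^ 15) = B * ((n1 : ℝ) / (M0 ^ 15 * d1)) := by
      field_simp
    rw [e1, e2]
    refine mul_le_mul_of_nonneg_left ?_ hB0.le
    rw [div_le_div_iff₀ (by positivity) (by positivity)]
    linarith

/-! ## The numerical conditions -/

theorem CrtR_llo {n2 d2 : ℕ} (hd2 : 0 < d2) (h2 : n2 ^ 15 < 9 * (9 * d2) ^ 15) :
    (n2 : ℝ) / (27 * d2) < 3 ^ (-(1 - (2 / 15 : ℝ))) := by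
  have hd : (0 : ℝ) < d2 := by exact_mod_cast hd2
  have h2' : (n2 : ℝ) ^ 15 < 9 * (9 * d2) ^ 15 := by exact_mod_cast h2
  have e1 : (3 : ℝ) ^ (-(1 - (2 / 15 : ℝ))) = 3 ^ (2 / 15 : ℝ) / 3 := by
    rw [show (-(1 - (2 / 15 : ℝ))) = 2 / 15 - 1 by ring, Real.rpow_sub (by norm_num), Real.rpow_one]
  have h3 : (n2 : ℝ) / (9 * d2) < 3 ^ (2 / 15 : ℝ) := by
    refine lt_of_pow_lt_pow_left₀ 15 (by positivity) ?_
    rw [div_pow, div_lt_iff₀ (by positivity), ← Real.rpow_natCast ((3 : ℝ) ^ (2 / 15 : ℝ)) 15,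
      ← Real.rpow_mul (by norm_num), show (2 / 15 : ℝ) * ((15 : ℕ) : ℝ) = ((2 : ℕ) : ℝ) by norm_num,
      Real.rpow_natCast]
    norm_num at h2' ⊢
    linarith
  rw [e1]
  have e2 : (n2 : ℝ) / (27 * d2) = (n2 : ℝ) / (9 * d2) / 3 := by
    field_simp
    ring
  rw [e2]
  exact div_lt_div_of_pos_right h3 (by norm_num)

theorem CrtR_lhi {n1 d1 P Q : ℕ} (hQ : 0 < Q) (hd1 : 0 < d1) (h1 : n1 ^ Q < 3 ^ P * d1 ^ Q) :
    (n1 : ℝ) / (3 * d1) < 3 ^ (-(1 - (P : ℝ) / Q)) := by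
  have hd : (0 : ℝ) < d1 := by exact_mod_cast hd1
  have hQ' : (Q : ℝ) ≠ 0 := by exact_mod_cast hQ.ne'
  have h1' : (n1 : ℝ) ^ Q < 3 ^ P * d1 ^ Q := by exact_mod_cast h1
  have e1 : (3 : ℝ) ^ (-(1 - (P : ℝ) / Q)) = 3 ^ ((P : ℝ) / Q) / 3 := by
    rw [show (-(1 - (P : ℝ) / Q)) = (P : ℝ) / Q - 1 by ring, Real.rpow_sub (by norm_num),
      Real.rpow_one]
  have h3 : (n1 : ℝ) / d1 < 3 ^ ((P : ℝ) / Q) := by
    refine lt_of_pow_lt_pow_left₀ Q (by positivity) ?_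
    rw [div_pow, div_lt_iff₀ (by positivity), ← Real.rpow_natCast ((3 : ℝ) ^ ((P : ℝ) / Q)) Q,
      ← Real.rpow_mul (by norm_num), div_mul_cancel₀ _ hQ', Real.rpow_natCast]
    exact h1'
  rw [e1]
  have e2 : (n1 : ℝ) / (3 * d1) = (n1 : ℝ) / d1 / 3 := by
    field_simp
  rw [e2]
  exact div_lt_div_of_pos_right h3 (by norm_num)

end

theorem cert_of_tab {N n1 d1 n2 d2 P Q : ℕ} {W2 W8 M h : ℕ → ℕ}
    (T : Tab N W2 W8 M h n1 d1 n2 d2) (hn1 : 0 < n1) (hd1 : 0 < d1) (hn2 : 0 < n2) (hd2 : 0 < d2)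
    (hPQ : P < Q) (hP : 2 * Q < 15 * P)
    (hW2 : ∀ i < 7, W2 i ^ Q * (4 * 4 ^ i) ^ P ≤ 2 ^ (24 * Q) * 3 ^ P)
    (hW8 : ∀ i < 7, W8 i ^ Q * (2 * 4 ^ i) ^ P ≤ 2 ^ (24 * Q) * 3 ^ P)
    (h1 : n1 ^ Q < 3 ^ P * d1 ^ Q) (h2 : n2 ^ 15 < 9 * (9 * d2) ^ 15) :
    ∃ p : ℕ → ℕ → ℝ, Cert N 15 (2 / 15) ((P : ℝ) / Q) ((n2 : ℝ) / (27 * d2)) ((n1 : ℝ) / (3 * d1)) p := by
  have hQ : 0 < Q := by omega
  have hQ' : (0 : ℝ) < Q := by exact_mod_cast hQ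
  have hn1' : (0 : ℝ) < n1 := by exact_mod_cast hn1
  have hn2' : (0 : ℝ) < n2 := by exact_mod_cast hn2
  have hd1' : (0 : ℝ) < d1 := by exact_mod_cast hd1
  have hd2' : (0 : ℝ) < d2 := by exact_mod_cast hd2
  refine ⟨CrtR_p W2 W8 M, ?_⟩
  exact
    { N1 := T.N1
      wt := CrtR_wt T
      sum := fun a ha => CrtR_sum T ha
      le := CrtR_le T
      t1 := by norm_num
      slo0 := by norm_num
      slohi := by
        rw [lt_div_iff₀ hQ']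
        have : (2 : ℝ) * Q < 15 * P := by exact_mod_cast hP
        linarith
      shi1 := by
        rw [div_lt_one hQ']
        exact_mod_cast hPQ
      llo0 := by positivity
      lhi0 := by positivity
      lo := ⟨_, CrtR_lo T hd2⟩
      hi := ⟨_, CrtR_hi T hQ hd1 hW2 hW8⟩
      llo1 := CrtR_llo hd2 h2
      lhi1 := CrtR_lhi hQ hd1 h1
      init := by
        rw [show (1 + ((15 : ℕ) : ℝ) * (2 / 15)) = ((3 : ℕ) : ℝ) by norm_num, Real.rpow_natCast]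
        norm_num }

end Pool.Agent.helper82.K3X
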