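import Pool.Agent.helper82.K3X.AsD

/-!
# K3X-Fin: the final form
-/

namespace Pool.Agent.helper82.K3X

open Finset Filter Pool.Agent.helper41.Coll

variable {N t : ℕ} {slo shi llo lhi : ℝ} {p : ℕ → ℕ → ℝ}

theorem final3 (hc : Cert N t slo shi llo lhi p) {th lth : ℝ} {K0 : ℕ}
    (hl : CertL N shi th lth K0 p) {kc ks : ℝ} (hkc : (K0 : ℝ) / Real.log 3 < kc)
    (hks : ((K0 : ℝ) + 1) / Real.log 2 < ks) {sg : ℝ} (h : sg < shi) :
    ∀ᶠ x : ℕ in atTop, (x : ℝ) ^ sg ≤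
      (Nat.card {n : ℕ // 2 ≤ n ∧ n ≤ x ∧ (∃ c : ℕ, HasC n c ∧ (c : ℝ) ≤ kc * Real.log n) ∧
        ∃ j : ℕ, f^[j] n = 1 ∧ (j : ℝ) ≤ ks * Real.log n} : ℝ) := by
  classical
  set s1 : ℝ := (max sg 0 + shi) / 2 with hs1
  have hshi : 0 < shi := lt_trans hc.slo0 hc.slohi
  have hm : max sg 0 < shi := max_lt h hshi
  have h1 : s1 < shi := by rw [hs1]; linarith
  have h2 : max sg 0 < s1 := by rw [hs1]; linarith
  have h3 : sg ≤ max sg 0 := le_max_left _ _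
  have h4 : 0 ≤ max sg 0 := le_max_right _ _
  have hs0 : 0 < s1 := lt_of_le_of_lt h4 h2
  have key := final2 hc hl hkc hks h1
  have hlim : Tendsto (fun x : ℕ => (x : ℝ) ^ (s1 - max sg 0)) atTop atTop :=
    (tendsto_rpow_atTop (by linarith)).comp tendsto_natCast_atTop_atTop
  filter_upwards [key, hlim.eventually_ge_atTop 2, eventually_ge_atTop 1] with x hx hx2 hx1
  have hx1' : (1 : ℝ) ≤ x := by exact_mod_cast hx1
  have hx0 : (0 : ℝ) < x := by linarith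
  set F := (Icc 1 x).filter (fun n => (∃ m : ℕ, HasC n m ∧ (m : ℝ) ≤ kc * Real.log n) ∧
          ∃ j : ℕ, f^[j] n = 1 ∧ (j : ℝ) ≤ ks * Real.log n) with hF
  set G := (Icc 2 x).filter (fun n => (∃ m : ℕ, HasC n m ∧ (m : ℝ) ≤ kc * Real.log n) ∧
          ∃ j : ℕ, f^[j] n = 1 ∧ (j : ℝ) ≤ ks * Real.log n) with hG
  have hFG : F ⊆ insert 1 G := by
    intro n hn
    rw [hF, mem_filter, mem_Icc] at hn
    rw [mem_insert, hG, mem_filter, mem_Icc]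
    rcases Nat.lt_or_ge n 2 with h5 | h5
    · left; omega
    · right; exact ⟨⟨h5, hn.1.2⟩, hn.2⟩
  have hcard : F.card ≤ G.card + 1 := (card_le_card hFG).trans (card_insert_le _ _)
  have hcardR : (F.card : ℝ) ≤ (G.card : ℝ) + 1 := by exact_mod_cast hcard
  have hnat : Nat.card {n : ℕ // 2 ≤ n ∧ n ≤ x ∧ (∃ c : ℕ, HasC n c ∧ (c : ℝ) ≤ kc * Real.log n) ∧
        ∃ j : ℕ, f^[j] n = 1 ∧ (j : ℝ) ≤ ks * Real.log n} = G.card := by
    rw [← Nat.card_eq_finsetCard]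
    refine Nat.card_congr (Equiv.subtypeEquivRight fun n => ?_)
    rw [hG, mem_filter, mem_Icc]
    tauto
  rw [hnat]
  have h5 : (x : ℝ) ^ s1 = (x : ℝ) ^ (max sg 0) * (x : ℝ) ^ (s1 - max sg 0) := by
    rw [← Real.rpow_add hx0]; congr 1; ring
  have h6 : (x : ℝ) ^ sg ≤ (x : ℝ) ^ (max sg 0) := Real.rpow_le_rpow_of_exponent_le hx1' h3
  have h7 : (1 : ℝ) ≤ (x : ℝ) ^ (max sg 0) := Real.one_le_rpow hx1' h4
  have h8 : (x : ℝ) ^ (max sg 0) * 2 ≤ (x : ℝ) ^ s1 := by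
    rw [h5]
    exact mul_le_mul_of_nonneg_left hx2 (by linarith)
  linarith

end Pool.Agent.helper82.K3X
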