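import Pool.Agent.helper82.K3X.Wd

/-!
# K3X: the two kinds of nodes with too large mass
-/

namespace Pool.Agent.helper82.K3X

open Finset

/-- Some ancestor, `j` steps above the node `nd a v`, has logarithm (to the base `3`) at most `j`. -/
def Bal (a : ℕ) (v : List ℕ) : Prop :=
  ∃ j ≤ v.length, Nat.log 3 (nd a (v.take (v.length - j))) ≤ j

/-- A node with too large mass. -/
def Big (p : ℕ → ℕ → ℝ) (mu : ℝ) (y : ℕ) (E : ℕ → ℝ) (a : ℕ) (v : List ℕ) : Prop :=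
  y ≤ nd a v ∧
  (3 : ℝ) ^ (-(E (Nat.log 3 (nd a v)) * (Nat.log 3 (nd a v) : ℝ))) < mu * pr p a v

/-- The bound for the block `i`. -/
noncomputable def KB (p : ℕ → ℕ → ℝ) (t : ℕ) (e s : ℝ) (i : ℕ) : ℝ :=
  ∑ b ∈ (range (3 ^ (i + 1))).filter (fun b => b % 3 = 2), ∑ j ∈ Icc i (i + 8), ∑ v ∈ wd j,
    ((3 : ℝ) ^ (-(e * i)) * pr p b v) ^ (t + 1) * (pr gro b v * 3 ^ (i + 1)) ^ ((t : ℝ) * s)

/-- The bound for the initial nodes. -/
noncomputable def KI (p : ℕ → ℕ → ℝ) (t : ℕ) (slo eta mu : ℝ) (L0 : ℕ) : ℝ :=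
  ∑ a ∈ (range (3 ^ (L0 + 1))).filter (fun a => a % 3 = 2), ∑ k ∈ range (L0 + 1), ∑ v ∈ wd k,
    (mu * pr p a v) ^ (t + 1) * (pr gro a v * 3 ^ (L0 + 1)) ^ ((t : ℝ) * slo) *
      (3 : ℝ) ^ (9 * (t : ℝ) * eta * L0)

/-- The bound for the logarithms of the starting nodes. -/
noncomputable def LL (s : ℕ) : ℕ := Nat.log 3 ⌊(5 : ℝ) * (64 / 3) ^ s⌋₊

end Pool.Agent.helper82.K3X
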