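import Pool.Agent.helper82.K3X.Av
import Pool.Agent.helper82.K3X.K1Defs

/-!
# K3X-Itp: interpolation between the exponents `slo` and `shi`, the bound for one block
-/

namespace Pool.Agent.helper82.K3X

open Finset

variable {N t : ℕ} {slo shi llo lhi : ℝ} {p : ℕ → ℕ → ℝ}

theorem slack_pos (hc : Cert N t slo shi llo lhi p) : 0 < slack slo shi llo lhi := by
  unfold slack
  rw [lt_min_iff]
  constructor
  · have h := (Real.logb_lt_iff_lt_rpow (by norm_num : (1 : ℝ) < 3) hc.llo0).2 hc.llo1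
    linarith
  · have h := (Real.logb_lt_iff_lt_rpow (by norm_num : (1 : ℝ) < 3) hc.lhi0).2 hc.lhi1
    linarith

/-- The average for the weights `wq p t s` whenever there is a superharmonic function. -/
theorem Itp_avg (hN : 1 ≤ N) (hp : Wt N p) {s lam : ℝ} (hl : 0 < lam)
    (hs : ∃ h : ℕ → ℝ, Sup N (wq p t s) h lam) :
    ∃ H : ℝ, 0 < H ∧ ∀ k m : ℕ, N + k ≤ m →
      ∑ b ∈ (range (3 ^ m)).filter (fun b => b % 3 = 2), ∑ v ∈ wd k,
        pr p b v ^ (t + 1) * pr gro b v ^ ((t : ℝ) * s) ≤ H * 3 ^ m * lam ^ k := by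
  obtain ⟨h, hh⟩ := hs
  obtain ⟨H, hH, hb⟩ := avg hN (wt_wq hN hp t s) hh hl
  refine ⟨H, hH, fun k m hkm => ?_⟩
  have h1 := hb k m hkm
  unfold Uk at h1
  simpa only [pr_wq hp.nn t s] using h1

theorem avg_lo (hc : Cert N t slo shi llo lhi p) :
    ∃ H : ℝ, 0 < H ∧ ∀ k m : ℕ, N + k ≤ m →
      ∑ b ∈ (range (3 ^ m)).filter (fun b => b % 3 = 2), ∑ v ∈ wd k,
        pr p b v ^ (t + 1) * pr gro b v ^ ((t : ℝ) * slo) ≤ H * 3 ^ m * llo ^ k :=
  Itp_avg hc.N1 hc.wt hc.llo0 hc.lo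

/-- A power of `lam` in terms of the slack. -/
theorem Itp_pow {lam s g : ℝ} (hl : 0 < lam) (h : g ≤ -(1 - s) - Real.logb 3 lam) (k : ℕ) :
    lam ^ k ≤ (3 : ℝ) ^ ((s - 1 - g) * k) := by
  have h1 : lam = (3 : ℝ) ^ Real.logb 3 lam :=
    (Real.rpow_logb (by norm_num) (by norm_num) hl).symm
  have h2 : lam ^ k = (3 : ℝ) ^ (Real.logb 3 lam * k) := by
    rw [Real.rpow_mul (by norm_num), ← h1, Real.rpow_natCast]
  rw [h2]
  apply Real.rpow_le_rpow_of_exponent_le (by norm_num)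
  apply mul_le_mul_of_nonneg_right _ (Nat.cast_nonneg k)
  linarith

/-- The pointwise interpolation. -/
theorem Itp_point {r : ℝ} (hr : 0 < r) {g s : ℝ} (h1 : slo ≤ s) (h2 : s ≤ shi) (k : ℕ) :
    r ^ ((t : ℝ) * s) ≤
      (3 : ℝ) ^ ((s - 1 - g) * k) *
        (r ^ ((t : ℝ) * slo) * (3 : ℝ) ^ (-((slo - 1 - g) * k)) +
          r ^ ((t : ℝ) * shi) * (3 : ℝ) ^ (-((shi - 1 - g) * k))) := by
  have hu : r = (3 : ℝ) ^ Real.logb 3 r :=
    (Real.rpow_logb (by norm_num) (by norm_num) hr).symm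
  set u := Real.logb 3 r with hu'
  have e : ∀ z : ℝ, r ^ z = (3 : ℝ) ^ (u * z) := by
    intro z
    rw [Real.rpow_mul (by norm_num), ← hu]
  rw [e, e, e, ← Real.rpow_add (by norm_num), ← Real.rpow_add (by norm_num), mul_add,
    ← Real.rpow_add (by norm_num), ← Real.rpow_add (by norm_num)]
  rcases le_total 0 (u * t - k) with h | h
  · have h3 : (3 : ℝ) ^ (u * ((t : ℝ) * s)) ≤
        (3 : ℝ) ^ ((s - 1 - g) * k + (u * ((t : ℝ) * shi) + -((shi - 1 - g) * k))) := by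
      apply Real.rpow_le_rpow_of_exponent_le (by norm_num)
      nlinarith [mul_nonneg h (sub_nonneg.2 h2)]
    have h4 : 0 ≤ (3 : ℝ) ^ ((s - 1 - g) * k + (u * ((t : ℝ) * slo) + -((slo - 1 - g) * k))) := by
      positivity
    linarith
  · have h3 : (3 : ℝ) ^ (u * ((t : ℝ) * s)) ≤
        (3 : ℝ) ^ ((s - 1 - g) * k + (u * ((t : ℝ) * slo) + -((slo - 1 - g) * k))) := by
      apply Real.rpow_le_rpow_of_exponent_le (by norm_num)
      nlinarith [mul_nonneg (neg_nonneg.2 h) (sub_nonneg.2 h1)]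
    have h4 : 0 ≤ (3 : ℝ) ^ ((s - 1 - g) * k + (u * ((t : ℝ) * shi) + -((shi - 1 - g) * k))) := by
      positivity
    linarith

theorem avg_mid (hc : Cert N t slo shi llo lhi p) :
    ∃ H : ℝ, 0 < H ∧ ∀ s : ℝ, slo ≤ s → s ≤ shi → ∀ k m : ℕ, N + k ≤ m →
      ∑ b ∈ (range (3 ^ m)).filter (fun b => b % 3 = 2), ∑ v ∈ wd k,
        pr p b v ^ (t + 1) * pr gro b v ^ ((t : ℝ) * s) ≤
          H * 3 ^ m * (3 : ℝ) ^ ((s - 1 - slack slo shi llo lhi) * k) := by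
  obtain ⟨H1, hH1, hb1⟩ := Itp_avg hc.N1 hc.wt hc.llo0 hc.lo
  obtain ⟨H2, hH2, hb2⟩ := Itp_avg hc.N1 hc.wt hc.lhi0 hc.hi
  refine ⟨H1 + H2, by positivity, fun s hs1 hs2 k m hkm => ?_⟩
  set g := slack slo shi llo lhi with hg
  have hg1 : g ≤ -(1 - slo) - Real.logb 3 llo := min_le_left _ _
  have hg2 : g ≤ -(1 - shi) - Real.logb 3 lhi := min_le_right _ _
  have hp1 := Itp_pow hc.llo0 hg1 k
  have hp2 := Itp_pow hc.lhi0 hg2 k
  have c1 := hb1 k m hkm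
  have c2 := hb2 k m hkm
  set A := ∑ b ∈ (range (3 ^ m)).filter (fun b => b % 3 = 2), ∑ v ∈ wd k,
        pr p b v ^ (t + 1) * pr gro b v ^ ((t : ℝ) * slo) with hA
  set B := ∑ b ∈ (range (3 ^ m)).filter (fun b => b % 3 = 2), ∑ v ∈ wd k,
        pr p b v ^ (t + 1) * pr gro b v ^ ((t : ℝ) * shi) with hB
  have h3m : (0 : ℝ) < 3 ^ m := by positivity
  have a1 : A * (3 : ℝ) ^ (-((slo - 1 - g) * k)) ≤ H1 * 3 ^ m := by
    rw [Real.rpow_neg (by norm_num), ← div_eq_mul_inv, div_le_iff₀ (by positivity)]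
    exact c1.trans (mul_le_mul_of_nonneg_left hp1 (by positivity))
  have a2 : B * (3 : ℝ) ^ (-((shi - 1 - g) * k)) ≤ H2 * 3 ^ m := by
    rw [Real.rpow_neg (by norm_num), ← div_eq_mul_inv, div_le_iff₀ (by positivity)]
    exact c2.trans (mul_le_mul_of_nonneg_left hp2 (by positivity))
  have hs : ∑ b ∈ (range (3 ^ m)).filter (fun b => b % 3 = 2), ∑ v ∈ wd k,
        pr p b v ^ (t + 1) * pr gro b v ^ ((t : ℝ) * s) ≤
      (3 : ℝ) ^ ((s - 1 - g) * k) * (A * (3 : ℝ) ^ (-((slo - 1 - g) * k)) +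
        B * (3 : ℝ) ^ (-((shi - 1 - g) * k))) := by
    rw [hA, hB, sum_mul, sum_mul, ← sum_add_distrib, mul_sum]
    apply sum_le_sum
    intro b _
    rw [sum_mul, sum_mul, ← sum_add_distrib, mul_sum]
    apply sum_le_sum
    intro v _
    have h1 := Itp_point (t := t) (pr_gro_pos b v) (g := g) hs1 hs2 k
    have h2 : 0 ≤ pr p b v ^ (t + 1) := pow_nonneg (pr_nn hc.wt.nn b v) _
    have h3 := mul_le_mul_of_nonneg_left h1 h2
    refine h3.trans (le_of_eq ?_)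
    ring
  refine hs.trans ?_
  have h4 : A * (3 : ℝ) ^ (-((slo - 1 - g) * k)) + B * (3 : ℝ) ^ (-((shi - 1 - g) * k)) ≤
      (H1 + H2) * 3 ^ m := by
    rw [add_mul]
    exact add_le_add a1 a2
  have h5 := mul_le_mul_of_nonneg_left h4
    (Real.rpow_nonneg (by norm_num : (0 : ℝ) ≤ 3) ((s - 1 - g) * k))
  refine h5.trans (le_of_eq ?_)
  ring

theorem Itp_mul4 (H a b c d : ℝ) :
    (3 : ℝ) ^ a * (3 : ℝ) ^ b * (H * ((3 : ℝ) ^ c * (3 : ℝ) ^ d)) =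
      H * (3 : ℝ) ^ (a + b + c + d) := by
  rw [Real.rpow_add (by norm_num) (a + b + c) d, Real.rpow_add (by norm_num) (a + b) c,
    Real.rpow_add (by norm_num) a b]
  ring

theorem Itp_mul2 (H a b : ℝ) :
    H * (3 : ℝ) ^ a * (3 : ℝ) ^ b = H * (3 : ℝ) ^ (a + b) := by
  rw [Real.rpow_add (by norm_num) a b]
  ring

/-- One length in the block `i`. -/
theorem Itp_block (hp : Wt N p) {H g s e : ℝ} (hH : 0 < H) (hg : 0 < g)
    (hs1 : s ≤ 1)
    (hb : ∀ k m : ℕ, N + k ≤ m →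
      ∑ b ∈ (range (3 ^ m)).filter (fun b => b % 3 = 2), ∑ v ∈ wd k,
        pr p b v ^ (t + 1) * pr gro b v ^ ((t : ℝ) * s) ≤
          H * 3 ^ m * (3 : ℝ) ^ ((s - 1 - g) * k)) (i j : ℕ) (hij : i ≤ j) (hji : j ≤ i + 8) :
    ∑ b ∈ (range (3 ^ (i + 1))).filter (fun b => b % 3 = 2), ∑ v ∈ wd j,
      ((3 : ℝ) ^ (-(e * i)) * pr p b v) ^ (t + 1) * (pr gro b v * 3 ^ (i + 1)) ^ ((t : ℝ) * s) ≤
    H * 3 ^ (N + 9 + t) * (3 : ℝ) ^ (((t + 1 : ℝ) * (s - e) - g) * i) := by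
  have e1 : ∀ b : ℕ, ∀ v : List ℕ,
      ((3 : ℝ) ^ (-(e * i)) * pr p b v) ^ (t + 1) * (pr gro b v * 3 ^ (i + 1)) ^ ((t : ℝ) * s) =
      ((3 : ℝ) ^ (-(e * i) * (t + 1 : ℝ)) * (3 : ℝ) ^ ((i + 1 : ℝ) * (t * s))) *
        (pr p b v ^ (t + 1) * pr gro b v ^ ((t : ℝ) * s)) := by
    intro b v
    rw [Real.mul_rpow (pr_gro_pos b v).le (by positivity), mul_pow]
    have h1 : ((3 : ℝ) ^ (-(e * i))) ^ (t + 1) = (3 : ℝ) ^ (-(e * i) * (t + 1 : ℝ)) := by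
      rw [Real.rpow_mul (by norm_num), ← Real.rpow_natCast (_ ^ _) (t + 1)]
      push_cast
      rfl
    have h2 : ((3 : ℝ) ^ (i + 1)) ^ ((t : ℝ) * s) = (3 : ℝ) ^ ((i + 1 : ℝ) * (t * s)) := by
      rw [Real.rpow_mul (by norm_num) ((i : ℝ) + 1) ((t : ℝ) * s), ← Real.rpow_natCast 3 (i + 1)]
      push_cast
      rfl
    rw [h1, h2]
    ring
  have hm := hb j (N + j + 1) (by omega)
  set F : ℕ → ℝ := fun b => ∑ v ∈ wd j, pr p b v ^ (t + 1) * pr gro b v ^ ((t : ℝ) * s) with hF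
  have hFn : ∀ b, 0 ≤ F b := by
    intro b
    apply sum_nonneg
    intro v _
    exact mul_nonneg (pow_nonneg (pr_nn hp.nn b v) _) (Real.rpow_nonneg (pr_gro_pos b v).le _)
  have hsub : ∑ b ∈ (range (3 ^ (i + 1))).filter (fun b => b % 3 = 2), F b ≤
      ∑ b ∈ (range (3 ^ (N + j + 1))).filter (fun b => b % 3 = 2), F b := by
    apply sum_le_sum_of_subset_of_nonneg
    · apply filter_subset_filter
      apply range_subset_range.2
      exact Nat.pow_le_pow_right (by norm_num) (by omega)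
    · intro b _ _
      exact hFn b
  have h3 : ∑ b ∈ (range (3 ^ (i + 1))).filter (fun b => b % 3 = 2), ∑ v ∈ wd j,
      ((3 : ℝ) ^ (-(e * i)) * pr p b v) ^ (t + 1) * (pr gro b v * 3 ^ (i + 1)) ^ ((t : ℝ) * s) =
      ((3 : ℝ) ^ (-(e * i) * (t + 1 : ℝ)) * (3 : ℝ) ^ ((i + 1 : ℝ) * (t * s))) *
        ∑ b ∈ (range (3 ^ (i + 1))).filter (fun b => b % 3 = 2), F b := by
    rw [mul_sum]
    apply sum_congr rfl
    intro b _
    rw [hF, mul_sum]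
    apply sum_congr rfl
    intro v _
    rw [e1]
  rw [h3]
  have h4 : ∑ b ∈ (range (3 ^ (i + 1))).filter (fun b => b % 3 = 2), F b ≤
      H * ((3 : ℝ) ^ ((N : ℝ) + j + 1) * (3 : ℝ) ^ ((s - 1 - g) * j)) := by
    refine hsub.trans (hm.trans (le_of_eq ?_))
    rw [mul_assoc]
    congr 2
    rw [← Real.rpow_natCast]
    push_cast
    rfl
  refine (mul_le_mul_of_nonneg_left h4 (by positivity)).trans ?_
  have h5 : ((3 : ℝ) ^ (N + 9 + t)) = (3 : ℝ) ^ ((N : ℝ) + 9 + t) := by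
    rw [← Real.rpow_natCast]
    push_cast
    rfl
  rw [h5]
  rw [Itp_mul4, Itp_mul2]
  apply mul_le_mul_of_nonneg_left _ hH.le
  apply Real.rpow_le_rpow_of_exponent_le (by norm_num)
  have hij' : (i : ℝ) ≤ j := by exact_mod_cast hij
  have hji' : (j : ℝ) ≤ i + 8 := by exact_mod_cast hji
  have h8 : 0 ≤ g * ((j : ℝ) - i) := mul_nonneg hg.le (by linarith)
  have h9 : 0 ≤ (1 - s) * (i + 8 - (j : ℝ)) := mul_nonneg (by linarith) (by linarith)
  have h9' : 0 ≤ (1 - s) * ((j : ℝ) - i) := mul_nonneg (by linarith) (by linarith)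
  have h10 : 0 ≤ (t : ℝ) * (1 - s) := mul_nonneg (Nat.cast_nonneg t) (by linarith)
  nlinarith [h8, h9, h9', h10, hij', hji']

theorem KB_bound (hc : Cert N t slo shi llo lhi p) :
    ∃ K : ℝ, 0 < K ∧ ∀ (eta e s : ℝ) (i : ℕ), slo ≤ s → s ≤ shi → s ≤ e + eta →
      KB p t e s i ≤ K * (3 : ℝ) ^ (-((slack slo shi llo lhi - (t + 1) * eta) * i)) := by
  obtain ⟨H, hH, hb⟩ := avg_mid hc
  refine ⟨9 * (H * 3 ^ (N + 9 + t)), by positivity, fun eta e s i hs1 hs2 hse => ?_⟩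
  set g := slack slo shi llo lhi with hg
  have hg0 : 0 < g := slack_pos hc
  unfold KB
  have h0 : ∑ b ∈ (range (3 ^ (i + 1))).filter (fun b => b % 3 = 2), ∑ j ∈ Icc i (i + 8),
      ∑ v ∈ wd j, ((3 : ℝ) ^ (-(e * i)) * pr p b v) ^ (t + 1) *
        (pr gro b v * 3 ^ (i + 1)) ^ ((t : ℝ) * s) =
      ∑ j ∈ Icc i (i + 8), ∑ b ∈ (range (3 ^ (i + 1))).filter (fun b => b % 3 = 2),
      ∑ v ∈ wd j, ((3 : ℝ) ^ (-(e * i)) * pr p b v) ^ (t + 1) *
        (pr gro b v * 3 ^ (i + 1)) ^ ((t : ℝ) * s) := sum_comm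
  rw [h0]
  have h1 : ∀ j ∈ Icc i (i + 8), ∑ b ∈ (range (3 ^ (i + 1))).filter (fun b => b % 3 = 2),
      ∑ v ∈ wd j, ((3 : ℝ) ^ (-(e * i)) * pr p b v) ^ (t + 1) *
        (pr gro b v * 3 ^ (i + 1)) ^ ((t : ℝ) * s) ≤
      H * 3 ^ (N + 9 + t) * (3 : ℝ) ^ (((t + 1 : ℝ) * (s - e) - g) * i) := by
    intro j hj
    rw [mem_Icc] at hj
    exact Itp_block hc.wt hH hg0 (hs2.trans hc.shi1.le)
      (hb s hs1 hs2) i j hj.1 hj.2
  have h2 := sum_le_card_nsmul _ _ _ h1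
  refine h2.trans ?_
  have h3 : (Icc i (i + 8)).card = 9 := by
    rw [Nat.card_Icc]
    omega
  rw [h3, nsmul_eq_mul]
  have h4 : (3 : ℝ) ^ (((t + 1 : ℝ) * (s - e) - g) * i) ≤
      (3 : ℝ) ^ (-((g - (t + 1) * eta) * i)) := by
    apply Real.rpow_le_rpow_of_exponent_le (by norm_num)
    have h5 : 0 ≤ ((t : ℝ) + 1) * (eta - (s - e)) := mul_nonneg (by positivity) (by linarith)
    have h6 := mul_nonneg h5 (Nat.cast_nonneg (α := ℝ) i)
    nlinarith [h6]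
  have h5 := mul_le_mul_of_nonneg_left h4
    (show (0 : ℝ) ≤ 9 * (H * 3 ^ (N + 9 + t)) by positivity)
  refine le_trans (le_of_eq ?_) h5
  push_cast
  ring

end Pool.Agent.helper82.K3X
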