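import Pool.Agent.helper82.K3X.K1Defs
import Pool.Agent.helper82.K3X.Itp

/-!
# K3X-KIl: the bound for the initial nodes tends to `0`
-/

namespace Pool.Agent.helper82.K3X

open Finset Filter

variable {N t : ℕ} {slo shi llo lhi : ℝ} {p : ℕ → ℕ → ℝ}

theorem KIl_floor (s : ℕ) : 5 ≤ ⌊(5 : ℝ) * (64 / 3) ^ s⌋₊ := by
  have h1 : (1 : ℝ) ≤ (64 / 3 : ℝ) ^ s := one_le_pow₀ (by norm_num)
  apply Nat.le_floor
  push_cast
  linarith

theorem LL_pos (s : ℕ) : 1 ≤ LL s := by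
  unfold LL
  have h5 := KIl_floor s
  exact Nat.le_log_of_pow_le (by norm_num) (by omega)

theorem LL_ge {S : Finset ℕ} {s : ℕ} (hb : Base S s) : ∀ a ∈ S, Nat.log 3 a ≤ LL s := by
  intro a ha
  unfold LL
  exact Nat.log_mono_right (Nat.le_floor (hb.le a ha))

theorem KIl_pow (s : ℕ) : (3 : ℝ) ^ (LL s) ≤ 5 * (64 / 3) ^ s := by
  have h5 := KIl_floor s
  have h1 : 3 ^ (LL s) ≤ ⌊(5 : ℝ) * (64 / 3) ^ s⌋₊ := by
    unfold LL
    exact Nat.pow_log_le_self 3 (by omega)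
  have h2 : ((3 ^ (LL s) : ℕ) : ℝ) ≤ (⌊(5 : ℝ) * (64 / 3) ^ s⌋₊ : ℝ) := by exact_mod_cast h1
  push_cast at h2
  exact h2.trans (Nat.floor_le (by positivity))

theorem KIl_lin (s : ℕ) : ((LL s : ℕ) : ℝ) + 1 ≤ 3 * (s : ℝ) + 3 := by
  have h1 := KIl_pow s
  have h2 : (5 : ℝ) * (64 / 3) ^ s ≤ 3 ^ (3 * s + 2) := by
    have e : (3 : ℝ) ^ (3 * s + 2) = 27 ^ s * 9 := by
      rw [pow_add, pow_mul]; norm_num
    rw [e]
    have h3 : (64 / 3 : ℝ) ^ s ≤ 27 ^ s := pow_le_pow_left₀ (by norm_num) (by norm_num) s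
    have h4 : (0 : ℝ) < 27 ^ s := by positivity
    linarith
  have h3 : (3 : ℝ) ^ (LL s) ≤ 3 ^ (3 * s + 2) := h1.trans h2
  have h4 : LL s ≤ 3 * s + 2 := (pow_le_pow_iff_right₀ (by norm_num : (1 : ℝ) < 3)).1 h3
  have h5 : ((LL s : ℕ) : ℝ) ≤ ((3 * s + 2 : ℕ) : ℝ) := by exact_mod_cast h4
  push_cast at h5
  linarith

theorem KIl_pr_nn {q : ℕ → ℕ → ℝ} (hq : ∀ i a, 0 ≤ q i a) (v : List ℕ) :
    ∀ a, 0 ≤ pr q a v := by
  induction v with
  | nil => intro a; simp [pr]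
  | cons i v ih => intro a; simp only [pr]; exact mul_nonneg (hq i a) (ih _)

theorem KIl_gro_nn (i a : ℕ) : 0 ≤ gro i a := by
  unfold gro
  split <;> positivity

/-- the bound for fixed `L0` -/
theorem KIl_bound (hc : Cert N t slo shi llo lhi p) : ∃ H : ℝ, 0 < H ∧
    ∀ (eta mu : ℝ) (L0 : ℕ), 0 ≤ mu → KI p t slo eta mu L0 ≤
      H * mu ^ (t + 1) * ((L0 : ℝ) + 1) * ((3 : ℝ) ^ L0) ^ (1 + (t : ℝ) * slo + 9 * t * eta) := by
  obtain ⟨H, hH, hav⟩ := avg_lo hc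
  have hllo : llo ≤ 1 := by
    have h1 := hc.llo1
    have h2 : (3 : ℝ) ^ (-(1 - slo)) ≤ 1 :=
      Real.rpow_le_one_of_one_le_of_nonpos (by norm_num) (by linarith [hc.slohi, hc.shi1])
    linarith
  refine ⟨H * 3 ^ (N + 1) * 3 ^ ((t : ℝ) * slo), by positivity, ?_⟩
  intro eta mu L0 hmu
  have hsum : ∀ k ∈ range (L0 + 1), ∑ a ∈ (range (3 ^ (L0 + 1))).filter (fun a => a % 3 = 2),
      ∑ v ∈ wd k, pr p a v ^ (t + 1) * pr gro a v ^ ((t : ℝ) * slo) ≤ H * 3 ^ (N + L0 + 1) := by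
    intro k hk
    have hk' : k ≤ L0 := by simpa [Nat.lt_succ_iff] using hk
    have h1 : ∑ a ∈ (range (3 ^ (L0 + 1))).filter (fun a => a % 3 = 2),
        ∑ v ∈ wd k, pr p a v ^ (t + 1) * pr gro a v ^ ((t : ℝ) * slo) ≤
        ∑ a ∈ (range (3 ^ (N + L0 + 1))).filter (fun a => a % 3 = 2),
        ∑ v ∈ wd k, pr p a v ^ (t + 1) * pr gro a v ^ ((t : ℝ) * slo) := by
      apply Finset.sum_le_sum_of_subset_of_nonneg
      · intro x hx
        rw [Finset.mem_filter, Finset.mem_range] at hx ⊢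
        refine ⟨lt_of_lt_of_le hx.1 ?_, hx.2⟩
        exact Nat.pow_le_pow_right (by norm_num) (by omega)
      · intro x _ _
        apply Finset.sum_nonneg
        intro v _
        exact mul_nonneg (pow_nonneg (KIl_pr_nn hc.wt.nn v x) _)
          (Real.rpow_nonneg (KIl_pr_nn KIl_gro_nn v x) _)
    have h2 := hav k (N + L0 + 1) (by omega)
    have h3 : llo ^ k ≤ 1 := pow_le_one₀ hc.llo0.le hllo
    calc _ ≤ _ := h1
      _ ≤ H * 3 ^ (N + L0 + 1) * llo ^ k := h2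
      _ ≤ H * 3 ^ (N + L0 + 1) * 1 := by
          apply mul_le_mul_of_nonneg_left h3 (by positivity)
      _ = H * 3 ^ (N + L0 + 1) := mul_one _
  have hKI : KI p t slo eta mu L0 = (mu ^ (t + 1) * ((3 : ℝ) ^ (L0 + 1)) ^ ((t : ℝ) * slo) *
      (3 : ℝ) ^ (9 * (t : ℝ) * eta * L0)) * ∑ k ∈ range (L0 + 1),
      ∑ a ∈ (range (3 ^ (L0 + 1))).filter (fun a => a % 3 = 2),
      ∑ v ∈ wd k, pr p a v ^ (t + 1) * pr gro a v ^ ((t : ℝ) * slo) := by
    unfold KI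
    rw [Finset.sum_comm, Finset.mul_sum]
    apply Finset.sum_congr rfl
    intro k _
    rw [Finset.mul_sum]
    apply Finset.sum_congr rfl
    intro a _
    rw [Finset.mul_sum]
    apply Finset.sum_congr rfl
    intro v _
    rw [mul_pow, Real.mul_rpow (KIl_pr_nn KIl_gro_nn v a) (by positivity)]
    ring
  rw [hKI]
  have h4 : ∑ k ∈ range (L0 + 1),
      ∑ a ∈ (range (3 ^ (L0 + 1))).filter (fun a => a % 3 = 2),
      ∑ v ∈ wd k, pr p a v ^ (t + 1) * pr gro a v ^ ((t : ℝ) * slo) ≤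
      ((L0 : ℝ) + 1) * (H * 3 ^ (N + L0 + 1)) := by
    refine (Finset.sum_le_card_nsmul _ _ _ hsum).trans ?_
    rw [Finset.card_range, nsmul_eq_mul]
    push_cast
    exact le_rfl
  have h5 : 0 ≤ mu ^ (t + 1) * ((3 : ℝ) ^ (L0 + 1)) ^ ((t : ℝ) * slo) *
      (3 : ℝ) ^ (9 * (t : ℝ) * eta * L0) := by positivity
  refine (mul_le_mul_of_nonneg_left h4 h5).trans (le_of_eq ?_)
  have e1 : ((3 : ℝ) ^ (L0 + 1)) ^ ((t : ℝ) * slo) =
      ((3 : ℝ) ^ L0) ^ ((t : ℝ) * slo) * 3 ^ ((t : ℝ) * slo) := by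
    rw [pow_succ, Real.mul_rpow (by positivity) (by norm_num)]
  have e2 : (3 : ℝ) ^ (9 * (t : ℝ) * eta * L0) = ((3 : ℝ) ^ L0) ^ (9 * (t : ℝ) * eta) := by
    rw [← Real.rpow_natCast 3 L0, ← Real.rpow_mul (by norm_num)]
    congr 1
    ring
  have e3 : ((3 : ℝ) ^ L0) ^ (1 + (t : ℝ) * slo + 9 * t * eta) =
      (3 : ℝ) ^ L0 * ((3 : ℝ) ^ L0) ^ ((t : ℝ) * slo) * ((3 : ℝ) ^ L0) ^ (9 * (t : ℝ) * eta) := by
    rw [Real.rpow_add (by positivity), Real.rpow_add (by positivity), Real.rpow_one]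
  rw [e1, e2, e3, show N + L0 + 1 = (N + 1) + L0 by ring, pow_add 3 (N + 1) L0]
  ring

theorem KI_lim (hc : Cert N t slo shi llo lhi p) :
    ∃ eta0 : ℝ, 0 < eta0 ∧ ∀ eta : ℝ, 0 < eta → eta ≤ eta0 →
      Tendsto (fun s : ℕ => KI p t slo eta ((1 / 2) ^ s) (LL s)) atTop (nhds 0) := by
  obtain ⟨H, hH, hb⟩ := KIl_bound hc
  have hcont : ContinuousAt (fun e : ℝ => (64 / 3 : ℝ) ^ (1 + (t : ℝ) * slo + 9 * t * e)) 0 := by
    apply ContinuousAt.rpow continuousAt_const _ (Or.inl (by norm_num))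
    fun_prop
  have hlt : (fun e : ℝ => (64 / 3 : ℝ) ^ (1 + (t : ℝ) * slo + 9 * t * e)) 0 < 2 ^ (t + 1) := by
    simpa using hc.init
  obtain ⟨d, hd, hd'⟩ := Metric.eventually_nhds_iff.1 (hcont.eventually_lt continuousAt_const hlt)
  refine ⟨d / 2, by positivity, ?_⟩
  intro eta he he'
  set al : ℝ := 1 + (t : ℝ) * slo + 9 * t * eta with hal
  have hal0 : 0 ≤ al := by
    have h1 := hc.slo0
    positivity
  have hr : (64 / 3 : ℝ) ^ al < 2 ^ (t + 1) := by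
    have h1 : dist eta 0 < d := by
      rw [Real.dist_eq, sub_zero, abs_of_pos he]; linarith
    exact hd' h1
  set r : ℝ := (64 / 3 : ℝ) ^ al / 2 ^ (t + 1) with hrdef
  have hr0 : 0 ≤ r := by positivity
  have hr1 : r < 1 := by
    rw [hrdef, div_lt_one (by positivity)]; exact hr
  have hlim : Tendsto (fun s : ℕ => H * 5 ^ al * 3 * ((s : ℝ) * r ^ s) + H * 5 ^ al * 3 * r ^ s)
      atTop (nhds (H * 5 ^ al * 3 * 0 + H * 5 ^ al * 3 * 0)) := by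
    apply Tendsto.add
    · exact (tendsto_self_mul_const_pow_of_lt_one hr0 hr1).const_mul _
    · exact (tendsto_pow_atTop_nhds_zero_of_lt_one hr0 hr1).const_mul _
  rw [mul_zero, add_zero] at hlim
  refine squeeze_zero (fun s => ?_) (fun s => ?_) hlim
  · unfold KI
    apply Finset.sum_nonneg
    intro a _
    apply Finset.sum_nonneg
    intro k _
    apply Finset.sum_nonneg
    intro v _
    have h1 := KIl_pr_nn hc.wt.nn v a
    have h2 := KIl_pr_nn KIl_gro_nn v a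
    positivity
  · have h1 := hb eta ((1 / 2) ^ s) (LL s) (by positivity)
    refine h1.trans ?_
    have h2 : ((3 : ℝ) ^ (LL s)) ^ al ≤ (5 * (64 / 3) ^ s) ^ al :=
      Real.rpow_le_rpow (by positivity) (KIl_pow s) hal0
    have h3 : ((5 : ℝ) * (64 / 3) ^ s) ^ al = 5 ^ al * ((64 / 3 : ℝ) ^ al) ^ s := by
      rw [Real.mul_rpow (by norm_num) (by positivity), ← Real.rpow_natCast, ← Real.rpow_natCast,
        ← Real.rpow_mul (by norm_num), ← Real.rpow_mul (by norm_num), mul_comm al]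
    have h4 : r ^ s = ((64 / 3 : ℝ) ^ al) ^ s * ((1 / 2) ^ s) ^ (t + 1) := by
      rw [hrdef, div_pow, ← pow_mul, ← pow_mul, one_div, inv_pow, mul_comm (t + 1) s]
      rw [div_eq_mul_inv]
    have h5 := KIl_lin s
    calc H * ((1 / 2) ^ s) ^ (t + 1) * ((LL s : ℝ) + 1) * ((3 : ℝ) ^ LL s) ^ al
        ≤ H * ((1 / 2) ^ s) ^ (t + 1) * (3 * (s : ℝ) + 3) * (5 * (64 / 3) ^ s) ^ al := by
          gcongr
      _ = H * 5 ^ al * 3 * ((s : ℝ) * r ^ s) + H * 5 ^ al * 3 * r ^ s := by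
          rw [h3, h4]; ring

end Pool.Agent.helper82.K3X
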