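import Pool.Agent.helper82.K3X.Ar

/-!
# K3X-Wd: words
-/

namespace Pool.Agent.helper82.K3X

open Finset

theorem Wd_pr_gro_pos (a : ℕ) (v : List ℕ) : 0 < pr gro a v := by
  induction v generalizing a with
  | nil => exact zero_lt_one
  | cons i v ih => exact mul_pos (gro_pos i a) (ih _)

theorem nd_append (a : ℕ) (u v : List ℕ) : nd a (u ++ v) = nd (nd a u) v := by
  induction u generalizing a with
  | nil => rfl
  | cons i u ih => exact ih _

theorem Vd_append (a : ℕ) (u v : List ℕ) : Vd a (u ++ v) ↔ Vd a u ∧ Vd (nd a u) v := by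
  induction u generalizing a with
  | nil => simp [Vd, nd]
  | cons i u ih =>
    simp only [List.cons_append, Vd, nd]
    rw [ih]
    simp only [and_assoc]

theorem pr_append (q : ℕ → ℕ → ℝ) (a : ℕ) (u v : List ℕ) :
    pr q a (u ++ v) = pr q a u * pr q (nd a u) v := by
  induction u generalizing a with
  | nil => simp [pr, nd]
  | cons i u ih =>
    simp only [List.cons_append, pr, nd]
    rw [ih, mul_assoc]

theorem nd_take_drop (a : ℕ) (v : List ℕ) (j : ℕ) : nd (nd a (v.take j)) (v.drop j) = nd a v := by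
  rw [← nd_append, List.take_append_drop]

theorem pr_take_drop (q : ℕ → ℕ → ℝ) (a : ℕ) (v : List ℕ) (j : ℕ) :
    pr q a (v.take j) * pr q (nd a (v.take j)) (v.drop j) = pr q a v := by
  rw [← pr_append, List.take_append_drop]

theorem Vd_take {a : ℕ} {v : List ℕ} (h : Vd a v) (j : ℕ) : Vd a (v.take j) := by
  rw [← List.take_append_drop j v, Vd_append] at h
  exact h.1

theorem Vd_drop {a : ℕ} {v : List ℕ} (h : Vd a v) (j : ℕ) : Vd (nd a (v.take j)) (v.drop j) := by
  rw [← List.take_append_drop j v, Vd_append] at h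
  exact h.2

theorem Vd_lt {a : ℕ} {v : List ℕ} (h : Vd a v) : ∀ i ∈ v, i < 7 := by
  induction v generalizing a with
  | nil => simp
  | cons j v ih =>
    intro i hi
    rcases List.mem_cons.mp hi with rfl | hi
    · exact h.1.1
    · exact ih h.2 i hi

theorem mem_wd {k : ℕ} {v : List ℕ} : v ∈ wd k ↔ v.length = k ∧ ∀ i ∈ v, i < 7 := by
  induction k generalizing v with
  | zero =>
    simp only [wd, mem_singleton]
    constructor
    · rintro rfl
      exact ⟨rfl, by simp⟩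
    · rintro ⟨h, -⟩
      exact List.length_eq_zero_iff.mp h
  | succ k ih =>
    simp only [wd, mem_image, mem_product, mem_range]
    constructor
    · rintro ⟨⟨i, u⟩, ⟨hi, hu⟩, rfl⟩
      obtain ⟨h1, h2⟩ := ih.mp hu
      refine ⟨by simp [h1], ?_⟩
      intro j hj
      rcases List.mem_cons.mp hj with rfl | hj
      · exact hi
      · exact h2 j hj
    · rintro ⟨h1, h2⟩
      cases v with
      | nil => simp at h1
      | cons i u =>
        refine ⟨(i, u), ⟨h2 i List.mem_cons_self, ih.mpr ⟨?_, ?_⟩⟩, rfl⟩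
        · simpa using h1
        · exact fun j hj => h2 j (List.mem_cons_of_mem _ hj)

theorem mem_wds {D : ℕ} {v : List ℕ} : v ∈ wds D ↔ v.length ≤ D ∧ ∀ i ∈ v, i < 7 := by
  simp only [wds, mem_biUnion, mem_range, mem_wd]
  constructor
  · rintro ⟨k, hk, h1, h2⟩
    exact ⟨by omega, h2⟩
  · rintro ⟨h1, h2⟩
    exact ⟨v.length, by omega, rfl, h2⟩

theorem sum_wd_succ (k : ℕ) (f : List ℕ → ℝ) :
    ∑ v ∈ wd (k + 1), f v = ∑ i ∈ range 7, ∑ v ∈ wd k, f (i :: v) := by
  have hinj : Set.InjOn (fun x : ℕ × List ℕ => x.1 :: x.2) (range 7 ×ˢ wd k : Finset (ℕ × List ℕ)) := by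
    rintro ⟨i, u⟩ - ⟨j, v⟩ - h
    simp only [List.cons.injEq] at h
    rw [h.1, h.2]
  have h1 : wd (k + 1) = (range 7 ×ˢ wd k).image (fun x => x.1 :: x.2) := rfl
  rw [h1, sum_image hinj, sum_product]

theorem sum_wd_snoc (k : ℕ) (f : List ℕ → ℝ) :
    ∑ v ∈ wd (k + 1), f v = ∑ v ∈ wd k, ∑ i ∈ range 7, f (v ++ [i]) := by
  induction k generalizing f with
  | zero =>
    rw [sum_wd_succ]
    simp [wd]
  | succ k ih =>
    rw [sum_wd_succ, sum_wd_succ]
    refine sum_congr rfl (fun i _ => ?_)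
    rw [ih (fun v => f (i :: v))]
    rfl

theorem sum_wds (D : ℕ) (f : List ℕ → ℝ) :
    ∑ v ∈ wds D, f v = ∑ k ∈ range (D + 1), ∑ v ∈ wd k, f v := by
  unfold wds
  refine sum_biUnion ?_
  intro i _ j _ hij
  refine Finset.disjoint_left.mpr ?_
  intro v hi hj
  exact hij ((mem_wd.mp hi).1.symm.trans (mem_wd.mp hj).1)

theorem nd_mod {a : ℕ} (ha : a % 3 = 2) {v : List ℕ} (h : Vd a v) : nd a v % 3 = 2 := by
  induction v generalizing a with
  | nil => exact ha
  | cons i v ih => exact ih (nxt_mod ha h.1.2) h.2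

theorem nd_pos {a : ℕ} (ha : a % 3 = 2) {v : List ℕ} (h : Vd a v) : 1 ≤ nd a v := by
  have h1 := nd_mod ha h
  omega

theorem nd_le (a : ℕ) (v : List ℕ) : (nd a v : ℝ) ≤ pr gro a v * a := by
  induction v generalizing a with
  | nil => simp [nd, pr]
  | cons i v ih =>
    calc (nd (nxt i a) v : ℝ) ≤ pr gro (nxt i a) v * (nxt i a : ℝ) := ih _
      _ ≤ pr gro (nxt i a) v * (gro i a * a) :=
          mul_le_mul_of_nonneg_left (nxt_le i a) (Wd_pr_gro_pos _ _).le
      _ = pr gro a (i :: v) * a := by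
          simp only [pr]
          ring

theorem nd_log {a : ℕ} (ha : a % 3 = 2) {v : List ℕ} (h : Vd a v) :
    Nat.log 3 (nd a v) ≤ Nat.log 3 a + 8 * v.length := by
  induction v generalizing a with
  | nil => simp [nd]
  | cons i v ih =>
    have h1 := ih (nxt_mod ha h.1.2) h.2
    have h2 := nxt_log h.1.1 (show 1 ≤ a by omega)
    have h3 : nd a (i :: v) = nd (nxt i a) v := rfl
    rw [h3, List.length_cons]
    omega

theorem pr_nn {q : ℕ → ℕ → ℝ} (hq : ∀ i a, 0 ≤ q i a) (a : ℕ) (v : List ℕ) : 0 ≤ pr q a v := by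
  induction v generalizing a with
  | nil => exact zero_le_one
  | cons i v ih => exact mul_nonneg (hq i a) (ih _)

theorem pr_gro_pos (a : ℕ) (v : List ℕ) : 0 < pr gro a v := by
  exact Wd_pr_gro_pos a v

theorem pr_inv {q : ℕ → ℕ → ℝ} (hq : ∀ i a, 4 ^ i * a % 9 = 5 → q i a = 0) {a : ℕ} {v : List ℕ}
    (hv : ∀ i ∈ v, i < 7) (h : ¬ Vd a v) : pr q a v = 0 := by
  induction v generalizing a with
  | nil => exact absurd trivial h
  | cons i v ih =>
    have e : pr q a (i :: v) = q i a * pr q (nxt i a) v := rfl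
    rw [e]
    by_cases h5 : 4 ^ i * a % 9 = 5
    · rw [hq i a h5, zero_mul]
    · have h1 : ¬ Vd (nxt i a) v := fun h2 => h ⟨⟨hv i List.mem_cons_self, h5⟩, h2⟩
      rw [ih (fun j hj => hv j (List.mem_cons_of_mem _ hj)) h1, mul_zero]

theorem pr_wq {p : ℕ → ℕ → ℝ} (hp : ∀ i a, 0 ≤ p i a) (t : ℕ) (s : ℝ) (a : ℕ) (v : List ℕ) :
    pr (wq p t s) a v = pr p a v ^ (t + 1) * pr gro a v ^ ((t : ℝ) * s) := by
  induction v generalizing a with
  | nil => simp [pr]
  | cons i v ih =>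
    have e1 : pr (wq p t s) a (i :: v) = wq p t s i a * pr (wq p t s) (nxt i a) v := rfl
    have e2 : pr p a (i :: v) = p i a * pr p (nxt i a) v := rfl
    have e3 : pr gro a (i :: v) = gro i a * pr gro (nxt i a) v := rfl
    rw [e1, e2, e3, ih, mul_pow, Real.mul_rpow (gro_pos i a).le (Wd_pr_gro_pos _ _).le]
    unfold wq
    ring

theorem pr_le_pow {q : ℕ → ℕ → ℝ} (hq : ∀ i a, 0 ≤ q i a) {d : ℝ} (hd : ∀ i a, q i a ≤ 1 - d)
    (a : ℕ) (v : List ℕ) : pr q a v ≤ (1 - d) ^ v.length := by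
  induction v generalizing a with
  | nil => simp [pr]
  | cons i v ih =>
    have e : pr q a (i :: v) = q i a * pr q (nxt i a) v := rfl
    rw [e, List.length_cons, pow_succ, mul_comm ((1 - d) ^ v.length)]
    exact mul_le_mul (hd i a) (ih _) (pr_nn hq _ _) ((hq i a).trans (hd i a))

theorem wt_wq {N : ℕ} (hN : 1 ≤ N) {p : ℕ → ℕ → ℝ} (hp : Wt N p) (t : ℕ) (s : ℝ) :
    Wt N (wq p t s) := by
  refine ⟨fun i a => ?_, fun i a h => ?_, fun i a => ?_⟩
  · exact mul_nonneg (pow_nonneg (hp.nn i a) _) (Real.rpow_nonneg (gro_pos i a).le _)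
  · unfold wq
    rw [hp.inv i a h, zero_pow (Nat.succ_ne_zero t), zero_mul]
  · unfold wq
    rw [hp.per, gro_per hN]

end Pool.Agent.helper82.K3X
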